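import Pool.Agent.DED.Reg

open scoped BigOperators ComplexConjugate Topology
open MeasureTheory Set Filter

noncomputable section

namespace Pool.Agent.DED

lemma lip_ac {f : ℝ → ℝ} {L a b : ℝ} (hab : a ≤ b)
    (h : ∀ s ∈ Icc a b, ∀ t ∈ Icc a b, |f t - f s| ≤ L * |t - s|) :
    AbsolutelyContinuousOnInterval f a b := by
  have h1 : LipschitzOnWith (Real.toNNReal L) f (uIcc a b) := by
    rw [uIcc_of_le hab]
    apply LipschitzOnWith.of_dist_le_mul
    intro x hx y hy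
    rw [Real.dist_eq, Real.dist_eq]
    refine (h y hy x hx).trans ?_
    apply mul_le_mul_of_nonneg_right _ (abs_nonneg _)
    exact Real.le_coe_toNNReal L
  exact h1.absolutelyContinuousOnInterval

lemma ac_sub {f : ℝ → ℝ} {a b c d : ℝ} (hf : AbsolutelyContinuousOnInterval f a b)
    (hab : a ≤ b) (hcd : c ≤ d) (hac : a ≤ c) (hdb : d ≤ b) :
    AbsolutelyContinuousOnInterval f c d := by
  apply hf.mono
  rw [uIcc_of_le hab, uIcc_of_le hcd]
  exact Icc_subset_Icc hac hdb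

lemma ac_mono {f : ℝ → ℝ} {a b : ℝ} (hab : a ≤ b) (hf : AbsolutelyContinuousOnInterval f a b)
    (h : ∀ᵐ t : ℝ, t ∈ Icc a b → ∃ d, HasDerivAt f d t ∧ 0 ≤ d) : f a ≤ f b := by
  have h1 := hf.integral_deriv_eq_sub
  have h2 : 0 ≤ ∫ x in a..b, deriv f x := by
    apply intervalIntegral.integral_nonneg_of_ae_restrict hab
    rw [EventuallyLE, ae_restrict_iff' measurableSet_Icc]
    filter_upwards [h] with t ht hmem
    obtain ⟨d, hd, hd0⟩ := ht hmem
    rw [hd.deriv]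
    exact hd0
  linarith

lemma barrier {z : ℝ → ℝ} {a b : ℝ} (hz : AbsolutelyContinuousOnInterval z a b)
    (h0 : z a ≤ 0)
    (h : ∀ᵐ t : ℝ, t ∈ Icc a b → 0 ≤ z t → ∃ d, HasDerivAt z d t ∧ d ≤ 0) :
    ∀ t ∈ Icc a b, z t ≤ 0 := by
  intro t ht
  by_contra hc
  push Not at hc
  have hab : a ≤ b := ht.1.trans ht.2
  have hcont : ContinuousOn z (Icc a t) := by
    have := hz.continuousOn
    rw [uIcc_of_le hab] at this
    exact this.mono (Icc_subset_Icc le_rfl ht.2)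
  set S : Set ℝ := Icc a t ∩ z ⁻¹' (Iic 0) with hS
  have hSc : IsClosed S := hcont.preimage_isClosed_of_isClosed isClosed_Icc isClosed_Iic
  have hSn : S.Nonempty := ⟨a, ⟨le_rfl, ht.1⟩, h0⟩
  have hSb : BddAbove S := ⟨t, fun x hx => hx.1.2⟩
  have hs := hSc.csSup_mem hSn hSb
  set s := sSup S with hsdef
  have hs1 : s ∈ Icc a t := hs.1
  have hs2 : z s ≤ 0 := hs.2
  have hpos : ∀ τ, s < τ → τ ≤ t → 0 < z τ := by
    intro τ h1 h2
    by_contra h3
    push Not at h3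
    have : τ ∈ S := ⟨⟨hs1.1.trans h1.le, h2⟩, h3⟩
    exact absurd (le_csSup hSb this) (not_le.2 h1)
  have hac : AbsolutelyContinuousOnInterval (fun x => - z x) s t :=
    (ac_sub hz hab hs1.2 hs1.1 ht.2).neg
  have hm := ac_mono hs1.2 hac (by
    have hne : ∀ᵐ x : ℝ, x ≠ s := by simp [ae_iff, measure_singleton]
    filter_upwards [h, hne] with x hx hxs hmem
    have hlt : s < x := lt_of_le_of_ne hmem.1 (Ne.symm hxs)
    obtain ⟨d, hd, hd0⟩ := hx ⟨hs1.1.trans hmem.1, hmem.2.trans ht.2⟩ (hpos x hlt hmem.2).le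
    exact ⟨-d, hd.neg, by linarith⟩)
  beta_reduce at hm
  linarith

lemma exp_lower {n : ℝ → ℝ} {κ a b : ℝ} (hab : a ≤ b)
    (hn : AbsolutelyContinuousOnInterval n a b)
    (h : ∀ᵐ t : ℝ, t ∈ Icc a b → ∃ d, HasDerivAt n d t ∧ -κ * n t ≤ d) :
    Real.exp (-(κ * (b - a))) * n a ≤ n b := by
  have he : AbsolutelyContinuousOnInterval (fun t => Real.exp (κ * t)) a b := by
    apply ContDiffOn.absolutelyContinuousOnInterval
    apply ContDiff.contDiffOn
    fun_prop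
  have hac := he.fun_mul hn
  have hm := ac_mono hab hac (by
    filter_upwards [h] with t ht hmem
    obtain ⟨d, hd, hd0⟩ := ht hmem
    have h1 : HasDerivAt (fun t => Real.exp (κ * t)) (Real.exp (κ * t) * κ) t := by
      have := ((hasDerivAt_id t).const_mul κ).exp
      simpa using this
    refine ⟨_, h1.mul hd, ?_⟩
    have hp := Real.exp_pos (κ * t)
    have : Real.exp (κ * t) * κ * n t + Real.exp (κ * t) * d =
      Real.exp (κ * t) * (κ * n t + d) := by ring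
    rw [this]
    apply mul_nonneg hp.le
    linarith)
  beta_reduce at hm
  have e1 : Real.exp (-(κ * (b - a))) = Real.exp (-(κ * b)) * Real.exp (κ * a) := by
    rw [← Real.exp_add]
    congr 1
    ring
  have e2 : Real.exp (-(κ * b)) * Real.exp (κ * b) = 1 := by
    rw [← Real.exp_add, neg_add_cancel, Real.exp_zero]
  rw [e1]
  calc Real.exp (-(κ * b)) * Real.exp (κ * a) * n a
      = Real.exp (-(κ * b)) * (Real.exp (κ * a) * n a) := by ring
    _ ≤ Real.exp (-(κ * b)) * (Real.exp (κ * b) * n b) :=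
        mul_le_mul_of_nonneg_left hm (Real.exp_pos _).le
    _ = _ := by rw [← mul_assoc, e2, one_mul]

lemma exp_upper {n : ℝ → ℝ} {κ a b : ℝ} (hab : a ≤ b)
    (hn : AbsolutelyContinuousOnInterval n a b)
    (h : ∀ᵐ t : ℝ, t ∈ Icc a b → ∃ d, HasDerivAt n d t ∧ d ≤ -κ * n t) :
    n b ≤ Real.exp (-(κ * (b - a))) * n a := by
  have := exp_lower (n := fun t => - n t) (κ := κ) hab hn.neg (by
    filter_upwards [h] with t ht hmem
    obtain ⟨d, hd, hd0⟩ := ht hmem
    exact ⟨-d, hd.neg, by linarith⟩)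
  linarith

lemma hasDerivAt_tsum_lip {f : K → ℝ → ℝ} {f' : K → ℝ} {L : K → ℝ} {a b t : ℝ}
    (hL : Summable L) (hlip : ∀ k, ∀ s ∈ Icc a b, |f k s - f k t| ≤ L k * |s - t|)
    (hs : ∀ s ∈ Icc a b, Summable (fun k => f k s)) (ht : t ∈ Ioo a b)
    (h : ∀ k, HasDerivAt (f k) (f' k) t) :
    HasDerivAt (fun s => ∑' k, f k s) (∑' k, f' k) t := by
  rw [hasDerivAt_iff_tendsto_slope]
  have h1 : Tendsto (fun s => ∑' k, slope (f k) t s) (𝓝[≠] t) (𝓝 (∑' k, f' k)) := by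
    apply tendsto_tsum_of_dominated_convergence hL
    · intro k
      exact hasDerivAt_iff_tendsto_slope.1 (h k)
    · have h2 : ∀ᶠ s in 𝓝[≠] t, s ∈ Ioo a b :=
        mem_nhdsWithin_of_mem_nhds (Ioo_mem_nhds ht.1 ht.2)
      filter_upwards [h2, self_mem_nhdsWithin] with s hs1 hs2 k
      have h3 : 0 < |s - t| := abs_pos.2 (sub_ne_zero.2 hs2)
      rw [slope_def_field, Real.norm_eq_abs, abs_div, div_le_iff₀ h3]
      exact hlip k s ⟨hs1.1.le, hs1.2.le⟩
  apply h1.congr'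
  have h2 : ∀ᶠ s in 𝓝[≠] t, s ∈ Ioo a b :=
    mem_nhdsWithin_of_mem_nhds (Ioo_mem_nhds ht.1 ht.2)
  filter_upwards [h2] with s hs1
  rw [slope_def_field, ← (hs s ⟨hs1.1.le, hs1.2.le⟩).tsum_sub (hs t ⟨ht.1.le, ht.2.le⟩),
    ← tsum_div_const]
  apply tsum_congr
  intro k
  rw [slope_def_field]

end Pool.Agent.DED
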