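import Pool.Agent.DED.Wt

open scoped BigOperators ComplexConjugate
open MeasureTheory Set

noncomputable section

namespace Pool.Agent.DED

/-- bounded measurable forcing -/
structure BM (f : ℝ → ℂ) (A : ℝ) : Prop where
  meas : Measurable f
  bd : ∀ s, ‖f s‖ ≤ A

lemma BM.nonneg {f : ℝ → ℂ} {A : ℝ} (h : BM f A) : 0 ≤ A := le_trans (norm_nonneg _) (h.bd 0)

/-- forward Duhamel integral -/
def fwd (w : ℝ) (f : ℝ → ℂ) (t : ℝ) : ℂ :=
  ∫ s in (0 : ℝ)..t, ((Real.exp (-(w * (t - s))) : ℝ) : ℂ) * f s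

lemma BM.intInt {f : ℝ → ℂ} {A : ℝ} (h : BM f A) {g : ℝ → ℂ} (hg : Continuous g) (a b : ℝ) :
    IntervalIntegrable (fun s => g s * f s) volume a b := by
  have h1 : IntervalIntegrable f volume a b := by
    rw [intervalIntegrable_iff]
    apply Measure.integrableOn_of_bounded (M := A)
    · simp
    · exact h.meas.aestronglyMeasurable
    · exact Filter.Eventually.of_forall h.bd
  exact h1.continuousOn_mul hg.continuousOn

lemma int_exp {w : ℝ} (hw : w ≠ 0) (t : ℝ) :
    ∫ s in (0 : ℝ)..t, Real.exp (-(w * (t - s))) = (1 - Real.exp (-(w * t))) / w := by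
  have h : ∀ s ∈ uIcc 0 t, HasDerivAt (fun s => Real.exp (-(w * (t - s))) / w)
      (Real.exp (-(w * (t - s)))) s := by
    intro s _
    have h1 : HasDerivAt (fun s => -(w * (t - s))) w s := by
      have := (((hasDerivAt_const s t).sub (hasDerivAt_id s)).const_mul w).neg
      convert! this using 1
      simp
    have h2 := h1.exp.div_const w
    convert! h2 using 1
    field_simp
  rw [intervalIntegral.integral_eq_sub_of_hasDerivAt h]
  · simp
    ring
  · apply Continuous.intervalIntegrable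
    fun_prop

lemma int_exp_mul {D : ℝ} (hD : 0 < D) {t : ℝ} (ht : 0 ≤ t) :
    ∫ s in (0 : ℝ)..t, (t - s) * Real.exp (-(D * (t - s))) ≤ 1 / D ^ 2 := by
  have h : ∀ s ∈ uIcc 0 t, HasDerivAt
      (fun s => Real.exp (-(D * (t - s))) * ((t - s) / D + 1 / D ^ 2))
      ((t - s) * Real.exp (-(D * (t - s)))) s := by
    intro s _
    have h1 : HasDerivAt (fun s => -(D * (t - s))) D s := by
      have := (((hasDerivAt_const s t).sub (hasDerivAt_id s)).const_mul D).neg
      convert! this using 1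
      simp
    have h2 : HasDerivAt (fun s => (t - s) / D + 1 / D ^ 2) (-1 / D) s := by
      have := (((hasDerivAt_const s t).sub (hasDerivAt_id s)).div_const D).add_const (1 / D ^ 2)
      convert! this using 1
      simp
    have h3 := h1.exp.mul h2
    convert! h3 using 1
    field_simp
    ring
  rw [intervalIntegral.integral_eq_sub_of_hasDerivAt h]
  · have : 0 ≤ Real.exp (-(D * (t - 0))) * ((t - 0) / D + 1 / D ^ 2) := by
      rw [sub_zero]; positivity
    simp only [sub_self, mul_zero, neg_zero, Real.exp_zero, zero_div, zero_add, one_mul]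
    linarith
  · apply Continuous.intervalIntegrable
    fun_prop

lemma norm_fwd_le {w : ℝ} {f : ℝ → ℂ} {A : ℝ} (hf : BM f A) (hw : 0 < w) {t : ℝ} (ht : 0 ≤ t) :
    ‖fwd w f t‖ ≤ A / w := by
  unfold fwd
  have h1 : ‖∫ s in (0 : ℝ)..t, ((Real.exp (-(w * (t - s))) : ℝ) : ℂ) * f s‖ ≤
      ∫ s in (0 : ℝ)..t, A * Real.exp (-(w * (t - s))) := by
    apply intervalIntegral.norm_integral_le_of_norm_le ht
    · apply Filter.Eventually.of_forall
      intro s _
      rw [norm_mul, Complex.norm_real, Real.norm_eq_abs, abs_of_pos (Real.exp_pos _), mul_comm]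
      exact mul_le_mul_of_nonneg_right (hf.bd s) (Real.exp_pos _).le
    · apply Continuous.intervalIntegrable
      fun_prop
  refine h1.trans ?_
  rw [intervalIntegral.integral_const_mul, int_exp hw.ne', mul_div_assoc']
  apply div_le_div_of_nonneg_right _ hw.le
  have := Real.exp_pos (-(w * t))
  have := hf.nonneg
  nlinarith

lemma fwd_zero (w : ℝ) (t : ℝ) : fwd w (fun _ => 0) t = 0 := by
  simp [fwd]

lemma fwd_eq (w : ℝ) (f : ℝ → ℂ) (t : ℝ) :
    fwd w f t = ((Real.exp (-(w * t)) : ℝ) : ℂ) *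
      ∫ s in (0 : ℝ)..t, ((Real.exp (w * s) : ℝ) : ℂ) * f s := by
  unfold fwd
  rw [← intervalIntegral.integral_const_mul]
  apply intervalIntegral.integral_congr
  intro s _
  beta_reduce
  rw [← mul_assoc, ← Complex.ofReal_mul, ← Real.exp_add]
  congr 3
  ring

lemma BM.locInt {f : ℝ → ℂ} {A : ℝ} (h : BM f A) {g : ℝ → ℂ} (hg : Continuous g) :
    LocallyIntegrable (fun s => g s * f s) volume := by
  have hc : Continuous (fun s => ‖g s‖ * A) := by fun_prop
  have hA : LocallyIntegrable (fun s => ‖g s‖ * A) volume := hc.locallyIntegrable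
  apply hA.mono (hg.measurable.mul h.meas).aestronglyMeasurable
  apply Filter.Eventually.of_forall
  intro s
  change ‖g s * f s‖ ≤ ‖‖g s‖ * A‖
  rw [norm_mul, norm_mul, norm_norm]
  apply mul_le_mul_of_nonneg_left _ (norm_nonneg _)
  exact (h.bd s).trans (le_abs_self A)

lemma ae_hasDerivAt_fwd (w : ℝ) {f : ℝ → ℂ} {A : ℝ} (hf : BM f A) :
    ∀ᵐ t : ℝ, HasDerivAt (fwd w f) (-(w : ℂ) * fwd w f t + f t) t := by
  have hg : Continuous (fun s : ℝ => ((Real.exp (w * s) : ℝ) : ℂ)) := by fun_prop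
  filter_upwards [LocallyIntegrable.ae_hasDerivAt_integral (hf.locInt hg)] with t ht
  have h1 := ht 0
  have h2 : HasDerivAt (fun t : ℝ => ((Real.exp (-(w * t)) : ℝ) : ℂ))
      (((-w * Real.exp (-(w * t)) : ℝ)) : ℂ) t := by
    apply HasDerivAt.ofReal_comp
    have h3 : HasDerivAt (fun t : ℝ => -(w * t)) (-w) t := by
      have := ((hasDerivAt_id t).const_mul w).neg
      convert! this using 1
      simp
    have := h3.exp
    convert! this using 1
    ring
  have h3 := h2.mul h1
  have h4 : fwd w f = fun t => ((Real.exp (-(w * t)) : ℝ) : ℂ) *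
      ∫ s in (0 : ℝ)..t, ((Real.exp (w * s) : ℝ) : ℂ) * f s := by
    funext t
    exact fwd_eq w f t
  rw [h4]
  convert! h3 using 1
  have h5 : ((Real.exp (-(w * t)) : ℝ) : ℂ) * ((Real.exp (w * t) : ℝ) : ℂ) = 1 := by
    rw [← Complex.ofReal_mul, ← Real.exp_add]
    simp
  rw [← mul_assoc (((Real.exp (-(w * t)) : ℝ) : ℂ)) (((Real.exp (w * t) : ℝ) : ℂ)) (f t), h5]
  push_cast
  ring

lemma fwd_lip {w : ℝ} {f : ℝ → ℂ} {A : ℝ} (hf : BM f A) (hw : 0 < w) {s t : ℝ} (hs : 0 ≤ s)
    (ht : 0 ≤ t) : ‖fwd w f t - fwd w f s‖ ≤ 2 * A * |t - s| := by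
  wlog hst : s ≤ t generalizing s t with H
  · have := H ht hs (le_of_not_ge hst)
    rw [norm_sub_rev, abs_sub_comm]
    exact this
  have hA := hf.nonneg
  have hg : Continuous (fun r : ℝ => ((Real.exp (-(w * (t - r))) : ℝ) : ℂ)) := by fun_prop
  have e : fwd w f t - fwd w f s = (((Real.exp (-(w * (t - s))) - 1 : ℝ)) : ℂ) * fwd w f s +
      ∫ r in s..t, ((Real.exp (-(w * (t - r))) : ℝ) : ℂ) * f r := by
    have e1 : fwd w f t = (∫ r in (0 : ℝ)..s, ((Real.exp (-(w * (t - r))) : ℝ) : ℂ) * f r) +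
        ∫ r in s..t, ((Real.exp (-(w * (t - r))) : ℝ) : ℂ) * f r :=
      (intervalIntegral.integral_add_adjacent_intervals (hf.intInt hg _ _)
        (hf.intInt hg _ _)).symm
    have e2 : (∫ r in (0 : ℝ)..s, ((Real.exp (-(w * (t - r))) : ℝ) : ℂ) * f r) =
        ((Real.exp (-(w * (t - s))) : ℝ) : ℂ) * fwd w f s := by
      unfold fwd
      rw [← intervalIntegral.integral_const_mul]
      apply intervalIntegral.integral_congr
      intro r _
      beta_reduce
      rw [← mul_assoc, ← Complex.ofReal_mul, ← Real.exp_add]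
      congr 3
      ring
    rw [e1, e2]
    push_cast
    ring
  rw [e, abs_of_nonneg (sub_nonneg.2 hst)]
  refine (norm_add_le _ _).trans ?_
  have h1 : ‖(((Real.exp (-(w * (t - s))) - 1 : ℝ)) : ℂ) * fwd w f s‖ ≤ A * (t - s) := by
    rw [norm_mul, Complex.norm_real, Real.norm_eq_abs]
    have h2 : |Real.exp (-(w * (t - s))) - 1| ≤ w * (t - s) := by
      have h3 := Real.add_one_le_exp (-(w * (t - s)))
      have h4 : Real.exp (-(w * (t - s))) ≤ 1 := by
        rw [Real.exp_le_one_iff]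
        have := mul_nonneg hw.le (sub_nonneg.2 hst)
        linarith
      rw [abs_of_nonpos (by linarith)]
      linarith
    calc |Real.exp (-(w * (t - s))) - 1| * ‖fwd w f s‖ ≤ (w * (t - s)) * (A / w) := by
          apply mul_le_mul h2 (norm_fwd_le hf hw hs) (norm_nonneg _)
          exact mul_nonneg hw.le (sub_nonneg.2 hst)
      _ = _ := by field_simp
  have h2 : ‖∫ r in s..t, ((Real.exp (-(w * (t - r))) : ℝ) : ℂ) * f r‖ ≤ A * (t - s) := by
    have := intervalIntegral.norm_integral_le_of_norm_le_const (a := s) (b := t)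
      (f := fun r => ((Real.exp (-(w * (t - r))) : ℝ) : ℂ) * f r) (C := A) (by
        intro r hr
        rw [uIoc_of_le hst] at hr
        rw [norm_mul, Complex.norm_real, Real.norm_eq_abs, abs_of_pos (Real.exp_pos _)]
        have h3 : Real.exp (-(w * (t - r))) ≤ 1 := by
          rw [Real.exp_le_one_iff]
          have := mul_nonneg hw.le (sub_nonneg.2 hr.2)
          linarith
        calc Real.exp (-(w * (t - r))) * ‖f r‖ ≤ 1 * A := by
              apply mul_le_mul h3 (hf.bd r) (norm_nonneg _) zero_le_one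
          _ = A := one_mul _)
    rwa [abs_of_nonneg (sub_nonneg.2 hst)] at this
  linarith

lemma exp_sub_exp_le {D x y σ : ℝ} (hx : D ≤ x) (hy : D ≤ y) (hσ : 0 ≤ σ) :
    |Real.exp (-(x * σ)) - Real.exp (-(y * σ))| ≤ |x - y| * (σ * Real.exp (-(D * σ))) := by
  wlog hxy : x ≤ y generalizing x y with H
  · have := H hy hx (le_of_not_ge hxy)
    rw [abs_sub_comm, abs_sub_comm x y]
    exact this
  have h1 : Real.exp (-(y * σ)) ≤ Real.exp (-(x * σ)) := by
    apply Real.exp_le_exp.2
    nlinarith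
  rw [abs_of_nonneg (sub_nonneg.2 h1), abs_of_nonpos (sub_nonpos.2 hxy)]
  have h2 : Real.exp (-(y * σ)) = Real.exp (-(x * σ)) * Real.exp (-((y - x) * σ)) := by
    rw [← Real.exp_add]
    congr 1
    ring
  have h3 := Real.add_one_le_exp (-((y - x) * σ))
  have h4 : Real.exp (-(x * σ)) ≤ Real.exp (-(D * σ)) := by
    apply Real.exp_le_exp.2
    nlinarith
  have h5 := Real.exp_pos (-(x * σ))
  have h6 : 0 ≤ (y - x) * σ := mul_nonneg (sub_nonneg.2 hxy) hσ
  rw [h2]
  nlinarith [mul_le_mul_of_nonneg_left h4 h6]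

lemma fwd_param {w1 w2 D : ℝ} {f1 f2 : ℝ → ℂ} {A E : ℝ} (hD : 0 < D) (h1 : D ≤ w1) (h2 : D ≤ w2)
    (hf1 : BM f1 A) (hf2 : BM f2 A) (hE : ∀ s, ‖f1 s - f2 s‖ ≤ E) {t : ℝ} (ht : 0 ≤ t) :
    ‖fwd w1 f1 t - fwd w2 f2 t‖ ≤ E / D + |w1 - w2| * A / D ^ 2 := by
  have hA := hf1.nonneg
  have hE0 : 0 ≤ E := le_trans (norm_nonneg _) (hE 0)
  have hg1 : Continuous (fun r : ℝ => ((Real.exp (-(w1 * (t - r))) : ℝ) : ℂ)) := by fun_prop
  have hg2 : Continuous (fun r : ℝ => ((Real.exp (-(w2 * (t - r))) : ℝ) : ℂ)) := by fun_prop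
  have e : fwd w1 f1 t - fwd w2 f2 t = ∫ s in (0 : ℝ)..t,
      (((Real.exp (-(w1 * (t - s))) : ℝ) : ℂ) * f1 s -
        ((Real.exp (-(w2 * (t - s))) : ℝ) : ℂ) * f2 s) :=
    (intervalIntegral.integral_sub (hf1.intInt hg1 _ _) (hf2.intInt hg2 _ _)).symm
  rw [e]
  have hb : ‖∫ s in (0 : ℝ)..t,
      (((Real.exp (-(w1 * (t - s))) : ℝ) : ℂ) * f1 s -
        ((Real.exp (-(w2 * (t - s))) : ℝ) : ℂ) * f2 s)‖ ≤
      ∫ s in (0 : ℝ)..t, (E * Real.exp (-(D * (t - s))) +
        |w1 - w2| * A * ((t - s) * Real.exp (-(D * (t - s))))) := by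
    apply intervalIntegral.norm_integral_le_of_norm_le ht
    · apply Filter.Eventually.of_forall
      intro s hs
      have hs' : 0 ≤ t - s := sub_nonneg.2 hs.2
      have e1 : ((Real.exp (-(w1 * (t - s))) : ℝ) : ℂ) * f1 s -
        ((Real.exp (-(w2 * (t - s))) : ℝ) : ℂ) * f2 s =
        ((Real.exp (-(w1 * (t - s))) : ℝ) : ℂ) * (f1 s - f2 s) +
        ((Real.exp (-(w1 * (t - s))) - Real.exp (-(w2 * (t - s))) : ℝ) : ℂ) * f2 s := by
        push_cast
        ring
      rw [e1]
      refine (norm_add_le _ _).trans ?_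
      rw [norm_mul, norm_mul, Complex.norm_real, Complex.norm_real, Real.norm_eq_abs,
        Real.norm_eq_abs, abs_of_pos (Real.exp_pos _)]
      apply add_le_add
      · have : Real.exp (-(w1 * (t - s))) ≤ Real.exp (-(D * (t - s))) := by
          apply Real.exp_le_exp.2
          nlinarith
        calc Real.exp (-(w1 * (t - s))) * ‖f1 s - f2 s‖ ≤ Real.exp (-(D * (t - s))) * E := by
              apply mul_le_mul this (hE s) (norm_nonneg _) (Real.exp_pos _).le
          _ = _ := mul_comm _ _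
      · have h3 := exp_sub_exp_le h1 h2 hs'
        calc |Real.exp (-(w1 * (t - s))) - Real.exp (-(w2 * (t - s)))| * ‖f2 s‖
            ≤ (|w1 - w2| * ((t - s) * Real.exp (-(D * (t - s))))) * A := by
              apply mul_le_mul h3 (hf2.bd s) (norm_nonneg _)
              have := Real.exp_pos (-(D * (t - s)))
              positivity
          _ = _ := by ring
    · apply Continuous.intervalIntegrable
      fun_prop
  refine hb.trans ?_
  rw [intervalIntegral.integral_add, intervalIntegral.integral_const_mul,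
    intervalIntegral.integral_const_mul, int_exp hD.ne']
  · apply add_le_add
    · rw [div_eq_mul_one_div E D]
      apply mul_le_mul_of_nonneg_left _ hE0
      apply div_le_div_of_nonneg_right _ hD.le
      have := Real.exp_pos (-(D * t))
      linarith
    · rw [div_eq_mul_one_div (|w1 - w2| * A)]
      apply mul_le_mul_of_nonneg_left (int_exp_mul hD ht) (by positivity)
  · apply Continuous.intervalIntegrable
    fun_prop
  · apply Continuous.intervalIntegrable
    fun_prop

end Pool.Agent.DED
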