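import Pool.Agent.DED.Calc

open scoped BigOperators ComplexConjugate Topology
open MeasureTheory Set Filter

noncomputable section

namespace Pool.Agent.DED

/-- the formal derivative of a weighted energy -/
def XX (w : K → ℝ) (φ φ' : K → ℂ) : ℝ := ∑' k, w k * (2 * (conj (φ k) * φ' k).re)

lemma nm_sq_gr (φ : K → ℂ) : nm (gr φ) ^ 2 = ∑' k, N k * ‖φ k‖ ^ 2 := by
  rw [nm_sq]
  apply tsum_congr
  intro k
  unfold gr
  rw [norm_mul, norm_real_nonneg (eu_nonneg k), mul_pow, eu_sq]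

/-- summability of weighted energies -/
lemma summable_weight_sq {φ : K → ℂ} {C : ℝ} (hφ : ∀ k, ‖φ k‖ ≤ C / wt k ^ 6)
    {w : K → ℝ} {Cw : ℝ} (hw : ∀ k, |w k| ≤ Cw * wt k ^ 4) :
    Summable (fun k => w k * ‖φ k‖ ^ 2) := by
  have hCw : 0 ≤ Cw := by
    have h := (abs_nonneg _).trans (hw 0)
    have h1 := wt_pos 0
    by_contra hc
    push Not at hc
    have : Cw * wt 0 ^ 4 < 0 := mul_neg_of_neg_of_pos hc (by positivity)
    linarith
  apply Summable.of_norm_bounded (g := fun k : K => Cw * C ^ 2 * (1 / wt k ^ 8))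
    ((summable_wt_pow (by norm_num)).mul_left _)
  intro k
  have h1 := wt_pos k
  rw [norm_mul, Real.norm_eq_abs, norm_pow, norm_norm]
  have h2 := pow_le_pow_left₀ (norm_nonneg _) (hφ k) 2
  calc |w k| * ‖φ k‖ ^ 2 ≤ (Cw * wt k ^ 4) * (C / wt k ^ 6) ^ 2 :=
        mul_le_mul (hw k) h2 (by positivity) (by positivity)
    _ = _ := by
        field_simp

lemma XX_split {w : K → ℝ} {φ Z e : K → ℂ}
    (hA : Summable (fun k => w k * N k * ‖φ k‖ ^ 2))
    (hB : Summable (fun k => (w k : ℂ) * conj (φ k) * (Complex.I * Z k)))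
    (hC : Summable (fun k => (w k : ℂ) * conj (φ k) * e k)) :
    XX w φ (fun k => -(N k : ℂ) * φ k + Complex.I * Z k + e k) =
      -2 * (∑' k, w k * N k * ‖φ k‖ ^ 2) +
      2 * (∑' k, (w k : ℂ) * conj (φ k) * (Complex.I * Z k)).re +
      2 * (∑' k, (w k : ℂ) * conj (φ k) * e k).re := by
  have hB' := Complex.hasSum_re hB.hasSum
  have hC' := Complex.hasSum_re hC.hasSum
  have h := ((hA.hasSum.mul_left (-2)).add (hB'.mul_left 2)).add (hC'.mul_left 2)
  unfold XX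
  rw [← h.tsum_eq]
  apply tsum_congr
  intro k
  have h1 : (conj (φ k) * φ k).re = ‖φ k‖ ^ 2 := by
    rw [← Complex.normSq_eq_conj_mul_self, Complex.ofReal_re, Complex.normSq_eq_norm_sq]
  have h2 : conj (φ k) * (-(N k : ℂ) * φ k + Complex.I * Z k + e k) =
      ((-(N k) : ℝ) : ℂ) * (conj (φ k) * φ k) + conj (φ k) * (Complex.I * Z k) +
        conj (φ k) * e k := by
    push_cast
    ring
  rw [h2, Complex.add_re, Complex.add_re, Complex.re_ofReal_mul, h1, mul_assoc (w k : ℂ),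
    Complex.re_ofReal_mul, mul_assoc (w k : ℂ), Complex.re_ofReal_mul]
  ring

lemma res_bound {v : K → ℂ × ℂ} {U : K → ℝ} {μ δ : ℝ} (hv : Vel v U) (hμ : 0 < μ) (hδ : 0 < δ)
    (m l : K) : ‖res v μ δ m l‖ ≤ si l * U m := by
  have hD : 0 < δ * μ := by positivity
  unfold res
  rw [norm_mul, Complex.norm_real, Real.norm_eq_abs]
  have h1 := ze_nonneg μ m l
  have h2 := ze_le_one μ m l
  have h3 := hh_nonneg (δ * μ) (om m l)
  have h4 := hh_le_one hD (om m l)
  have h6 : |ze μ m l * (1 - hh (δ * μ) (om m l))| ≤ 1 := by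
    rw [abs_of_nonneg (mul_nonneg h1 (by linarith))]
    nlinarith
  calc ‖al v m l‖ * |ze μ m l * (1 - hh (δ * μ) (om m l))| ≤ ‖al v m l‖ * 1 := by gcongr
    _ ≤ _ := by rw [mul_one]; exact al_bound hv.bd m l

/-- fixed time data for the energy estimates -/
structure Fix (F : Finset K) (U : K → ℝ) (μ δ Ut C : ℝ) (v : K → ℂ × ℂ) (φ : K → ℂ) : Prop where
  hμ : 0 < μ
  hδ : 0 < δ
  hF : ∀ m ∈ F, si m ≤ μ
  hsym : ∀ m ∈ F, -m ∈ F
  hv : Vel v U
  hUt : ∑ m ∈ F, U m ≤ Ut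
  hC : 0 ≤ C
  hφ : ∀ k, ‖φ k‖ ≤ C / wt k ^ 6

section

variable {F : Finset K} {U : K → ℝ} {μ δ Ut C : ℝ} {v : K → ℂ × ℂ} {φ e : K → ℂ}

lemma Fix.sq (h : Fix F U μ δ Ut C v φ) : Sq φ := Sq.of_decay (by norm_num) h.hφ

lemma Fix.hUt0 (h : Fix F U μ δ Ut C v φ) : 0 ≤ Ut :=
  le_trans (Finset.sum_nonneg fun m _ => h.hv.U_nonneg m) h.hUt

lemma Fix.hUm (h : Fix F U μ δ Ut C v φ) {m : K} (hm : m ∈ F) : U m ≤ Ut :=
  le_trans (Finset.single_le_sum (fun m _ => h.hv.U_nonneg m) hm) h.hUt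

lemma Fix.hφ4 (h : Fix F U μ δ Ut C v φ) (k : K) : ‖φ k‖ ≤ C / wt k ^ 4 := by
  refine (h.hφ k).trans ?_
  have h1 := wt_pos k
  apply div_le_div_of_nonneg_left h.hC (by positivity)
  exact pow_le_pow_right₀ (wt_ge_one k) (by norm_num)

lemma Fix.coef (h : Fix F U μ δ Ut C v φ) {a : K → K → ℂ}
    (ha : ∀ m l, ‖a m l‖ ≤ si l * U m) : ∀ m ∈ F, ∀ l, ‖a m l‖ ≤ Ut * wt l := by
  intro m hm l
  refine (ha m l).trans ?_
  rw [mul_comm]
  exact mul_le_mul (h.hUm hm) (si_le_wt l) (si_nonneg l) h.hUt0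

lemma Fix.weight_sq (h : Fix F U μ δ Ut C v φ) {w : K → ℝ} {Cw : ℝ} (hCw : 0 ≤ Cw)
    (hw : ∀ k, |w k| ≤ Cw * wt k ^ 2) : Sq (fun k => ((w k : ℝ) : ℂ) * φ k) :=
  Sq.of_decay (p := 4) (by norm_num) (decay_weight h.hC h.hφ hCw hw)

lemma conj_w (w : ℝ) (x y : ℂ) : (w : ℂ) * conj x * y = conj ((w : ℂ) * x) * y := by
  rw [map_mul, Complex.conj_ofReal]

lemma Fix.op_sq (h : Fix F U μ δ Ut C v φ) {a : K → K → ℂ} (ha : ∀ m l, ‖a m l‖ ≤ si l * U m) :
    Sq (op F a φ) := by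
  have hg : Sq (gr φ) := by
    have := h.weight_sq (w := eu) (Cw := 1) zero_le_one (fun k => by
      rw [abs_of_nonneg (eu_nonneg k), one_mul]
      refine (eu_le_wt k).trans ?_
      have := wt_ge_one k
      nlinarith)
    exact this
  refine (op_bound (γ := U) hg (fun m _ => h.hv.U_nonneg m) ?_).1
  intro m _ l
  unfold gr
  rw [norm_mul, norm_mul, norm_real_nonneg (eu_nonneg l), ← mul_assoc]
  apply mul_le_mul_of_nonneg_right _ (norm_nonneg _)
  refine (ha m l).trans ?_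
  rw [mul_comm]
  exact mul_le_mul_of_nonneg_left (si_le_eu l) (h.hv.U_nonneg m)

lemma Fix.zzb (h : Fix F U μ δ Ut C v φ) (m l : K) : ‖zz v μ δ 1 m l‖ ≤ si l * U m :=
  zz_bound h.hv h.hμ h.hδ zero_le_one le_rfl m l

/-- the mass balance -/
lemma energy_n (h : Fix F U μ δ Ut C v φ) (he : Sq e) :
    |XX (fun _ => 1) φ (fun k => -(N k : ℂ) * φ k + Complex.I * op F (zz v μ δ 1) φ k + e k) +
      2 * nm (gr φ) ^ 2| ≤ 2 * (nm φ * nm e) := by
  have hA : Summable (fun k : K => (1 : ℝ) * N k * ‖φ k‖ ^ 2) :=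
    summable_weight_sq (w := fun k => 1 * N k) (Cw := 1) h.hφ (fun k => by
      rw [one_mul, one_mul, abs_of_nonneg (N_nonneg k)]
      refine (N_le_wt k).trans ?_
      exact pow_le_pow_right₀ (wt_ge_one k) (by norm_num))
  have hw : ∀ k : K, |(fun _ : K => (1 : ℝ)) k| ≤ 1 * wt k ^ 2 := fun k => by
    rw [abs_one, one_mul]
    exact one_le_pow₀ (wt_ge_one k)
  have hB := sym_summable (F := F) (a := zz v μ δ 1) (w := fun _ => 1) h.hC zero_le_one h.hUt0 h.hφ4 hw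
    (h.coef h.zzb)
  have hC : Summable (fun k => (((fun _ : K => (1 : ℝ)) k : ℝ) : ℂ) * conj (φ k) * e k) := by
    have := summable_conj_mul h.sq he
    refine this.congr (fun k => ?_)
    simp
  have h1 := XX_split (w := fun _ => 1) (Z := op F (zz v μ δ 1) φ) hA hB hC
  have h2 := sym_bound (F := F) (a := zz v μ δ 1) (w := fun _ => 1) (γ := fun _ => 0) h.hC zero_le_one
    h.hUt0 h.hsym (fun m _ l => zz_symm h.hv 1 m l) h.hφ4 hw (h.coef h.zzb)
    (fun m _ l => by simp)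
  simp only [Finset.sum_const_zero, zero_mul] at h2
  have h3 := abs_eq_zero.1 (le_antisymm h2 (abs_nonneg _))
  rw [h1, h3]
  have e1 : (∑' k : K, (1 : ℝ) * N k * ‖φ k‖ ^ 2) = nm (gr φ) ^ 2 := by
    rw [nm_sq_gr]
    apply tsum_congr
    intro k
    ring
  rw [e1]
  have e2 : -2 * nm (gr φ) ^ 2 + 0 +
      2 * (∑' k, (((fun _ : K => (1 : ℝ)) k : ℝ) : ℂ) * conj (φ k) * e k).re +
      2 * nm (gr φ) ^ 2 =
      2 * (∑' k, (((fun _ : K => (1 : ℝ)) k : ℝ) : ℂ) * conj (φ k) * e k).re := by ring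
  rw [e2, abs_mul, abs_two]
  apply mul_le_mul_of_nonneg_left _ zero_le_two
  refine (Complex.abs_re_le_norm _).trans ?_
  have e3 : (∑' k, (((fun _ : K => (1 : ℝ)) k : ℝ) : ℂ) * conj (φ k) * e k) =
      ∑' k, conj (φ k) * e k := by
    apply tsum_congr
    intro k
    simp
  rw [e3]
  exact norm_tsum_conj_mul_le h.sq he

/-- the energy balance for `p - Λ n` -/
lemma energy_z (h : Fix F U μ δ Ut C v φ) (he : Sq e) {Λ : ℝ} (hΛ0 : 0 ≤ Λ)
    (hΛ : Λ ≤ 4 * μ ^ 2) :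
    XX (fun k => N k - Λ) φ
      (fun k => -(N k : ℂ) * φ k + Complex.I * op F (zz v μ δ 1) φ k + e k) ≤
      -2 * nm (fun k => ((N k - Λ : ℝ) : ℂ) * φ k) ^ 2 - 2 * Λ * (nm (gr φ) ^ 2 - Λ * nm φ ^ 2) +
      34 * δ * μ ^ 2 * Ut * nm φ ^ 2 +
      Ut / (3 * μ) * nm (fun k => ((N k - Λ : ℝ) : ℂ) * φ k) ^ 2 +
      nm (fun k => ((N k - Λ : ℝ) : ℂ) * φ k) ^ 2 / 2 + 2 * nm e ^ 2 := by
  have hμ := h.hμ
  have hUt0 := h.hUt0
  set w : K → ℝ := fun k => N k - Λ with hw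
  set W : K → ℂ := fun k => ((N k - Λ : ℝ) : ℂ) * φ k with hW
  have hwb : ∀ k, |w k| ≤ (1 + Λ) * wt k ^ 2 := by
    intro k
    simp only [hw]
    refine (abs_sub _ _).trans ?_
    rw [abs_of_nonneg (N_nonneg k), abs_of_nonneg hΛ0, add_mul, one_mul]
    apply add_le_add (N_le_wt k)
    have : 1 ≤ wt k ^ 2 := one_le_pow₀ (wt_ge_one k)
    nlinarith
  have hWsq : Sq W := h.weight_sq (w := w) (by linarith) hwb
  have hA : Summable (fun k : K => w k * N k * ‖φ k‖ ^ 2) :=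
    summable_weight_sq (w := fun k => w k * N k) (Cw := 1 + Λ) h.hφ (fun k => by
      rw [abs_mul, abs_of_nonneg (N_nonneg k)]
      calc |w k| * N k ≤ ((1 + Λ) * wt k ^ 2) * wt k ^ 2 :=
            mul_le_mul (hwb k) (N_le_wt k) (N_nonneg k) (by positivity)
        _ = _ := by ring)
  have hB1 := sym_summable (F := F) (a := res v μ δ) (w := w) h.hC (by linarith) h.hUt0 h.hφ4 hwb
    (h.coef (res_bound h.hv h.hμ h.hδ))
  have hhig := op_bound (F := F) (b := hig v μ) (ψ := φ) (g := W) (γ := fun m => U m / (6 * μ))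
    hWsq (fun m _ => div_nonneg (h.hv.U_nonneg m) (by positivity))
    (fun m hm l => hig_bound h.hv h.hμ (h.hF m hm) hΛ φ l)
  have hB2 : Summable (fun k => (w k : ℂ) * conj (φ k) * (Complex.I * op F (hig v μ) φ k)) := by
    have := summable_conj_mul hWsq (hhig.1.const_mul Complex.I)
    refine this.congr (fun k => ?_)
    rw [conj_w]
  have hop : ∀ k, op F (zz v μ δ 1) φ k = op F (res v μ δ) φ k + op F (hig v μ) φ k := by
    intro k
    unfold op
    rw [← Finset.sum_add_distrib]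
    apply Finset.sum_congr rfl
    intro m _
    rw [zz_one]
    ring
  have hBeq : (fun k => (w k : ℂ) * conj (φ k) * (Complex.I * op F (zz v μ δ 1) φ k)) =
      fun k => (w k : ℂ) * conj (φ k) * (Complex.I * op F (res v μ δ) φ k) +
        (w k : ℂ) * conj (φ k) * (Complex.I * op F (hig v μ) φ k) := by
    funext k
    rw [hop]
    ring
  have hB : Summable (fun k => (w k : ℂ) * conj (φ k) * (Complex.I * op F (zz v μ δ 1) φ k)) := by
    rw [hBeq]
    exact hB1.add hB2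
  have hC : Summable (fun k => (w k : ℂ) * conj (φ k) * e k) := by
    have := summable_conj_mul hWsq he
    refine this.congr (fun k => ?_)
    rw [conj_w]
  have h1 := XX_split (w := w) (Z := op F (zz v μ δ 1) φ) hA hB hC
  rw [h1]
  have t1 : (∑' k, w k * N k * ‖φ k‖ ^ 2) = nm W ^ 2 + Λ * (nm (gr φ) ^ 2 - Λ * nm φ ^ 2) := by
    rw [nm_sq, nm_sq_gr, nm_sq]
    have s1 : Summable (fun k => N k * ‖φ k‖ ^ 2) :=
      summable_weight_sq (w := N) (Cw := 1) h.hφ (fun k => by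
        rw [one_mul, abs_of_nonneg (N_nonneg k)]
        refine (N_le_wt k).trans ?_
        exact pow_le_pow_right₀ (wt_ge_one k) (by norm_num))
    have s2 : Summable (fun k => ‖φ k‖ ^ 2) := h.sq
    have s3 : Summable (fun k => ‖W k‖ ^ 2) := hWsq
    rw [← tsum_mul_left (a := Λ) (f := fun k => ‖φ k‖ ^ 2), ← s1.tsum_sub (s2.mul_left Λ),
      ← tsum_mul_left, ← s3.tsum_add ((s1.sub (s2.mul_left Λ)).mul_left Λ)]
    apply tsum_congr
    intro k
    simp only [hW, hw]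
    rw [norm_mul, Complex.norm_real, Real.norm_eq_abs, mul_pow, sq_abs]
    ring
  have t2 : 2 * (∑' k, (w k : ℂ) * conj (φ k) * (Complex.I * op F (res v μ δ) φ k)).re ≤
      34 * δ * μ ^ 2 * Ut * nm φ ^ 2 := by
    have := sym_bound (F := F) (a := res v μ δ) (w := w) (γ := fun m => 34 * δ * μ ^ 2 * U m)
      h.hC (by linarith : (0 : ℝ) ≤ 1 + Λ) h.hUt0 h.hsym (fun m _ l => res_symm h.hv m l)
      h.hφ4 hwb (h.coef (res_bound h.hv h.hμ h.hδ))
      (fun m hm l => by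
        have e1 : w (l + m) - w l = om m l := by
          simp only [hw, om]
          ring
        rw [e1]
        exact res_gap h.hv h.hμ h.hδ (h.hF m hm) l)
    refine (le_abs_self _).trans (this.trans ?_)
    apply mul_le_mul_of_nonneg_right _ (by positivity)
    rw [← Finset.mul_sum]
    have := h.hδ
    exact mul_le_mul_of_nonneg_left h.hUt (by positivity)
  have t3 : 2 * (∑' k, (w k : ℂ) * conj (φ k) * (Complex.I * op F (hig v μ) φ k)).re ≤
      Ut / (3 * μ) * nm W ^ 2 := by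
    have e1 : (∑' k, (w k : ℂ) * conj (φ k) * (Complex.I * op F (hig v μ) φ k)) =
        ∑' k, conj (W k) * (Complex.I * op F (hig v μ) φ k) := by
      apply tsum_congr
      intro k
      rw [conj_w]
    have h2 := norm_tsum_conj_mul_le hWsq (hhig.1.const_mul Complex.I)
    rw [nm_const_mul, Complex.norm_I, one_mul] at h2
    have h3 : ∑ m ∈ F, U m / (6 * μ) ≤ Ut / (6 * μ) := by
      rw [← Finset.sum_div]
      exact div_le_div_of_nonneg_right h.hUt (by positivity)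
    have h4 : nm (op F (hig v μ) φ) ≤ Ut / (6 * μ) * nm W :=
      hhig.2.trans (mul_le_mul_of_nonneg_right h3 (nm_nonneg _))
    rw [e1]
    calc 2 * (∑' k, conj (W k) * (Complex.I * op F (hig v μ) φ k)).re
        ≤ 2 * (nm W * nm (op F (hig v μ) φ)) := by
          apply mul_le_mul_of_nonneg_left _ zero_le_two
          exact (Complex.re_le_norm _).trans h2
      _ ≤ 2 * (nm W * (Ut / (6 * μ) * nm W)) := by
          apply mul_le_mul_of_nonneg_left _ zero_le_two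
          exact mul_le_mul_of_nonneg_left h4 (nm_nonneg _)
      _ = _ := by field_simp; ring
  have t4 : 2 * (∑' k, (w k : ℂ) * conj (φ k) * e k).re ≤ nm W ^ 2 / 2 + 2 * nm e ^ 2 := by
    have e1 : (∑' k, (w k : ℂ) * conj (φ k) * e k) = ∑' k, conj (W k) * e k := by
      apply tsum_congr
      intro k
      rw [conj_w]
    have h2 := norm_tsum_conj_mul_le hWsq he
    rw [e1]
    have h3 := (Complex.re_le_norm _).trans h2
    nlinarith [sq_nonneg (nm W - 2 * nm e)]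
  have t5 : (∑' k, (w k : ℂ) * conj (φ k) * (Complex.I * op F (zz v μ δ 1) φ k)) =
      (∑' k, (w k : ℂ) * conj (φ k) * (Complex.I * op F (res v μ δ) φ k)) +
      ∑' k, (w k : ℂ) * conj (φ k) * (Complex.I * op F (hig v μ) φ k) := by
    rw [hBeq, hB1.tsum_add hB2]
  rw [t1, t5, Complex.add_re]
  linarith

end

end Pool.Agent.DED
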