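import Pool.Agent.DED.Energy

open scoped BigOperators ComplexConjugate Topology
open MeasureTheory Set Filter

noncomputable section

namespace Pool.Agent.DED

/-- weighted energy -/
def EE (w : K → ℝ) (φ : K → ℂ) : ℝ := ∑' k, w k * ‖φ k‖ ^ 2

lemma EE_one (φ : K → ℂ) : EE (fun _ => 1) φ = nm φ ^ 2 := by
  unfold EE
  rw [nm_sq]
  simp

lemma EE_N (φ : K → ℂ) : EE N φ = nm (gr φ) ^ 2 := by
  unfold EE
  rw [nm_sq_gr]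

lemma weight_four {w : K → ℝ} {Cw : ℝ} (hCw : 0 ≤ Cw) (hw : ∀ k, |w k| ≤ Cw * wt k ^ 2) (k : K) :
    |w k| ≤ Cw * wt k ^ 4 := by
  refine (hw k).trans ?_
  apply mul_le_mul_of_nonneg_left _ hCw
  exact pow_le_pow_right₀ (wt_ge_one k) (by norm_num)

section

variable {φ : ℝ → K → ℂ} {w : K → ℝ} {Cw C L T : ℝ}

lemma term_lip (hCw : 0 ≤ Cw) (hw : ∀ k, |w k| ≤ Cw * wt k ^ 2) (hC : 0 ≤ C) (hL : 0 ≤ L)
    (hd : Dec (Icc 0 T) φ C) (hl : DLip (Icc 0 T) φ L) (k : K) {s t : ℝ} (hs : s ∈ Icc 0 T)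
    (ht : t ∈ Icc 0 T) :
    |w k * ‖φ t k‖ ^ 2 - w k * ‖φ s k‖ ^ 2| ≤ (2 * Cw * C * L) * (1 / wt k ^ 2) * |t - s| := by
  have h1 := wt_pos k
  have hts := abs_nonneg (t - s)
  have e : w k * ‖φ t k‖ ^ 2 - w k * ‖φ s k‖ ^ 2 =
      w k * ((‖φ t k‖ + ‖φ s k‖) * (‖φ t k‖ - ‖φ s k‖)) := by ring
  rw [e, abs_mul, abs_mul, abs_of_nonneg (add_nonneg (norm_nonneg _) (norm_nonneg _))]
  have h2 : |‖φ t k‖ - ‖φ s k‖| ≤ L * |t - s| / wt k ^ 6 :=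
    (abs_norm_sub_norm_le _ _).trans (hl s hs t ht k)
  have h3 : ‖φ t k‖ + ‖φ s k‖ ≤ 2 * C / wt k ^ 6 := by
    have := hd t ht k
    have := hd s hs k
    have e2 : 2 * C / wt k ^ 6 = C / wt k ^ 6 + C / wt k ^ 6 := by ring
    linarith
  calc |w k| * ((‖φ t k‖ + ‖φ s k‖) * |‖φ t k‖ - ‖φ s k‖|)
      ≤ (Cw * wt k ^ 2) * ((2 * C / wt k ^ 6) * (L * |t - s| / wt k ^ 6)) := by
        apply mul_le_mul (hw k) _ (by positivity) (by positivity)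
        apply mul_le_mul h3 h2 (abs_nonneg _) (by positivity)
    _ = (2 * Cw * C * L) * |t - s| * (1 / wt k ^ 10) := by field_simp
    _ ≤ (2 * Cw * C * L) * |t - s| * (1 / wt k ^ 2) := by
        apply mul_le_mul_of_nonneg_left _ (by positivity)
        apply one_div_le_one_div_of_le (by positivity)
        exact pow_le_pow_right₀ (wt_ge_one k) (by norm_num)
    _ = _ := by ring

lemma EE_summable (hCw : 0 ≤ Cw) (hw : ∀ k, |w k| ≤ Cw * wt k ^ 2)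
    (hd : Dec (Icc 0 T) φ C) {t : ℝ} (ht : t ∈ Icc 0 T) :
    Summable (fun k => w k * ‖φ t k‖ ^ 2) :=
  summable_weight_sq (hd t ht) (weight_four hCw hw)

lemma EE_ac (hT : 0 ≤ T) (hCw : 0 ≤ Cw) (hw : ∀ k, |w k| ≤ Cw * wt k ^ 2) (hC : 0 ≤ C)
    (hL : 0 ≤ L) (hd : Dec (Icc 0 T) φ C) (hl : DLip (Icc 0 T) φ L) :
    AbsolutelyContinuousOnInterval (fun t => EE w (φ t)) 0 T := by
  apply lip_ac (L := ∑' k : K, (2 * Cw * C * L) * (1 / wt k ^ 2)) hT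
  intro s hs t ht
  have h0 : Summable (fun k : K => (2 * Cw * C * L) * (1 / wt k ^ 2)) := summable_wt.mul_left _
  unfold EE
  rw [← (EE_summable hCw hw hd ht).tsum_sub (EE_summable hCw hw hd hs), ← tsum_mul_right,
    ← Real.norm_eq_abs]
  apply tsum_of_norm_bounded (h0.mul_right _).hasSum
  intro k
  rw [Real.norm_eq_abs]
  exact term_lip hCw hw hC hL hd hl k hs ht

lemma EE_deriv (hCw : 0 ≤ Cw) (hw : ∀ k, |w k| ≤ Cw * wt k ^ 2) (hC : 0 ≤ C)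
    (hL : 0 ≤ L) (hd : Dec (Icc 0 T) φ C) (hl : DLip (Icc 0 T) φ L) {t : ℝ} (ht : t ∈ Ioo 0 T)
    {φ' : K → ℂ} (h : ∀ k, HasDerivAt (fun s => φ s k) (φ' k) t) :
    HasDerivAt (fun s => EE w (φ s)) (XX w (φ t) φ') t := by
  unfold EE XX
  apply hasDerivAt_tsum_lip (L := fun k : K => (2 * Cw * C * L) * (1 / wt k ^ 2)) (a := 0) (b := T)
    (summable_wt.mul_left _)
  · intro k s hs
    exact term_lip hCw hw hC hL hd hl k ⟨ht.1.le, ht.2.le⟩ hs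
  · intro s hs
    exact EE_summable hCw hw hd hs
  · exact ht
  · intro k
    have h1 := (h k).norm_sq
    have h2 := h1.const_mul (w k)
    convert! h2 using 1
    rw [Complex.inner, mul_comm (φ' k)]

lemma deriv_decay (hL : 0 ≤ L) (hl : DLip (Icc 0 T) φ L) {t : ℝ} (ht : t ∈ Ioo 0 T)
    {φ' : K → ℂ} (h : ∀ k, HasDerivAt (fun s => φ s k) (φ' k) t) (k : K) :
    ‖φ' k‖ ≤ L / wt k ^ 6 := by
  have h1 := wt_pos k
  apply (h k).le_of_lip' (by positivity)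
  filter_upwards [Ioo_mem_nhds ht.1 ht.2] with s hs
  have := hl t ⟨ht.1.le, ht.2.le⟩ s ⟨hs.1.le, hs.2.le⟩ k
  rw [Real.norm_eq_abs]
  refine this.trans (le_of_eq ?_)
  ring

lemma XX_summable (hCw : 0 ≤ Cw) (hw : ∀ k, |w k| ≤ Cw * wt k ^ 2)
    (hL : 0 ≤ L) (hC : 0 ≤ C) {ψ φ' : K → ℂ} (h1 : ∀ k, ‖ψ k‖ ≤ C / wt k ^ 6)
    (h2 : ∀ k, ‖φ' k‖ ≤ L / wt k ^ 6) :
    Summable (fun k => w k * (2 * (conj (ψ k) * φ' k).re)) := by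
  apply Summable.of_norm_bounded (g := fun k : K => (2 * Cw * C * L) * (1 / wt k ^ 10))
    ((summable_wt_pow (by norm_num)).mul_left _)
  intro k
  have hk := wt_pos k
  rw [norm_mul, norm_mul, Real.norm_eq_abs, Real.norm_two, Real.norm_eq_abs]
  have h3 : |(conj (ψ k) * φ' k).re| ≤ (C / wt k ^ 6) * (L / wt k ^ 6) := by
    refine (Complex.abs_re_le_norm _).trans ?_
    rw [norm_mul, RCLike.norm_conj]
    exact mul_le_mul (h1 k) (h2 k) (norm_nonneg _) (by positivity)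
  calc |w k| * (2 * |(conj (ψ k) * φ' k).re|)
      ≤ (Cw * wt k ^ 2) * (2 * ((C / wt k ^ 6) * (L / wt k ^ 6))) := by
        apply mul_le_mul (hw k) _ (by positivity) (by positivity)
        exact mul_le_mul_of_nonneg_left h3 zero_le_two
    _ = _ := by field_simp

lemma XX_sub {Λ : ℝ} (hL : 0 ≤ L) (hC : 0 ≤ C) {ψ φ' : K → ℂ} (h1 : ∀ k, ‖ψ k‖ ≤ C / wt k ^ 6)
    (h2 : ∀ k, ‖φ' k‖ ≤ L / wt k ^ 6) :
    XX N ψ φ' - Λ * XX (fun _ => 1) ψ φ' = XX (fun k => N k - Λ) ψ φ' := by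
  have s1 := XX_summable (w := N) (Cw := 1) zero_le_one (fun k => by
    rw [one_mul, abs_of_nonneg (N_nonneg k)]; exact N_le_wt k) hL hC h1 h2
  have s2 := XX_summable (w := fun _ => 1) (Cw := 1) zero_le_one (fun k => by
    rw [abs_one, one_mul]; exact one_le_pow₀ (wt_ge_one k)) hL hC h1 h2
  unfold XX
  rw [← tsum_mul_left, ← s1.tsum_sub (s2.mul_left Λ)]
  apply tsum_congr
  intro k
  ring

end

/-- the energy data on a window -/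
structure Win (F : Finset K) (U : K → ℝ) (μ δ Ut C L T A1 A2 : ℝ) (v : ℝ → K → ℂ × ℂ)
    (φ e : ℝ → K → ℂ) : Prop where
  hμ : 1 ≤ μ
  hδ : 0 < δ
  hT : 0 < T
  hF : ∀ m ∈ F, si m ≤ μ
  hsym : ∀ m ∈ F, -m ∈ F
  hv : TVel v U
  hUt : ∑ m ∈ F, U m ≤ Ut
  hC : 0 ≤ C
  hL : 0 ≤ L
  dec : Dec (Icc 0 T) φ C
  lip : DLip (Icc 0 T) φ L
  ode : ∀ᵐ t : ℝ, t ∈ Ioo 0 T → ∀ k, HasDerivAt (fun s => φ s k)
    (-(N k : ℂ) * φ t k + Complex.I * op F (zz (v t) μ δ 1) (φ t) k + e t k) t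
  esq : ∀ t ∈ Icc 0 T, Sq (e t)
  ebd : ∀ t ∈ Icc 0 T, nm (e t) ≤ A1 * nm (gr (φ t)) + A2 * nm (φ t)
  hA1 : 0 ≤ A1
  hA2 : 0 ≤ A2
  c1 : 34 * δ * Ut ≤ 1 / (2 * T)
  c2 : 16 * A1 ^ 2 ≤ 1 / (2 * T)
  c3 : 4 * A2 ^ 2 ≤ μ ^ 2 / T
  c4 : Ut / (3 * μ) ≤ 3 / 2
  c5 : A1 ≤ 1 / 8
  c6 : A1 + 2 * A2 ≤ μ ^ 2 / 4

section

variable {F : Finset K} {U : K → ℝ} {μ δ Ut C L T A1 A2 : ℝ} {v : ℝ → K → ℂ × ℂ}
    {φ e : ℝ → K → ℂ}

lemma Win.fix (h : Win F U μ δ Ut C L T A1 A2 v φ e) {t : ℝ} (ht : t ∈ Icc 0 T) :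
    Fix F U μ δ Ut C (v t) (φ t) where
  hμ := lt_of_lt_of_le one_pos h.hμ
  hδ := h.hδ
  hF := h.hF
  hsym := h.hsym
  hv := h.hv.vel t
  hUt := h.hUt
  hC := h.hC
  hφ := h.dec t ht

lemma one_weight : ∀ k : K, |(fun _ : K => (1 : ℝ)) k| ≤ 1 * wt k ^ 2 := fun k => by
  rw [abs_one, one_mul]
  exact one_le_pow₀ (wt_ge_one k)

lemma N_weight : ∀ k : K, |N k| ≤ 1 * wt k ^ 2 := fun k => by
  rw [one_mul, abs_of_nonneg (N_nonneg k)]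
  exact N_le_wt k

lemma ae_Ioo {T : ℝ} {P : ℝ → Prop} (h : ∀ᵐ t : ℝ, t ∈ Ioo 0 T → P t) {a b : ℝ} (ha : 0 ≤ a)
    (hb : b ≤ T) : ∀ᵐ t : ℝ, t ∈ Icc a b → t ∈ Ioo 0 T ∧ P t := by
  have h1 : ∀ᵐ t : ℝ, t ≠ 0 := by simp [ae_iff, measure_singleton]
  have h2 : ∀ᵐ t : ℝ, t ≠ T := by simp [ae_iff, measure_singleton]
  filter_upwards [h, h1, h2] with t ht ht1 ht2 hmem
  have : t ∈ Ioo 0 T := ⟨lt_of_le_of_ne (ha.trans hmem.1) (Ne.symm ht1),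
    lt_of_le_of_ne (hmem.2.trans hb) ht2⟩
  exact ⟨this, ht this⟩

lemma Win.n_deriv (h : Win F U μ δ Ut C L T A1 A2 v φ e) {t : ℝ} (ht : t ∈ Ioo 0 T)
    (ho : ∀ k, HasDerivAt (fun s => φ s k)
      (-(N k : ℂ) * φ t k + Complex.I * op F (zz (v t) μ δ 1) (φ t) k + e t k) t) :
    ∃ d, HasDerivAt (fun s => nm (φ s) ^ 2) d t ∧
      |d + 2 * nm (gr (φ t)) ^ 2| ≤ A1 * nm (gr (φ t)) ^ 2 + (A1 + 2 * A2) * nm (φ t) ^ 2 := by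
  have ht' : t ∈ Icc 0 T := ⟨ht.1.le, ht.2.le⟩
  have h1 := EE_deriv (w := fun _ => 1) zero_le_one one_weight h.hC h.hL h.dec h.lip ht ho
  simp only [EE_one] at h1
  refine ⟨_, h1, ?_⟩
  refine (energy_n (h.fix ht') (h.esq t ht')).trans ?_
  have h2 := h.ebd t ht'
  have h3 := nm_nonneg (φ t)
  have h4 := nm_nonneg (gr (φ t))
  have h5 := mul_le_mul_of_nonneg_left h2 h3
  have h6 : 0 ≤ A1 * (nm (φ t) - nm (gr (φ t))) ^ 2 := mul_nonneg h.hA1 (sq_nonneg _)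
  nlinarith

lemma Win.n_ac (h : Win F U μ δ Ut C L T A1 A2 v φ e) :
    AbsolutelyContinuousOnInterval (fun t => nm (φ t) ^ 2) 0 T := by
  have := EE_ac (w := fun _ => 1) h.hT.le zero_le_one one_weight h.hC h.hL h.dec h.lip
  simpa only [EE_one] using this

lemma Win.p_ac (h : Win F U μ δ Ut C L T A1 A2 v φ e) :
    AbsolutelyContinuousOnInterval (fun t => nm (gr (φ t)) ^ 2) 0 T := by
  have := EE_ac (w := N) h.hT.le zero_le_one N_weight h.hC h.hL h.dec h.lip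
  simpa only [EE_N] using this

lemma low_arith {X n2 g2 V e2 Λ : ℝ} (hμ : 1 ≤ μ) (hT : 0 < T) (hn2 : 0 ≤ n2)
    (hV0 : 0 ≤ V)
    (h1 : X ≤ -2 * V - 2 * Λ * (g2 - Λ * n2) + 34 * δ * μ ^ 2 * Ut * n2 + Ut / (3 * μ) * V +
      V / 2 + 2 * e2)
    (h3 : e2 ≤ 2 * A1 ^ 2 * g2 + 2 * A2 ^ 2 * n2) (hz : 0 ≤ g2 - Λ * n2)
    (hΛ1 : 2 * μ ^ 2 ≤ Λ) (hΛ2 : Λ ≤ 4 * μ ^ 2) (hA1 : 0 ≤ A1)
    (c1 : 34 * δ * Ut ≤ 1 / (2 * T)) (c2 : 16 * A1 ^ 2 ≤ 1 / (2 * T))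
    (c3 : 4 * A2 ^ 2 ≤ μ ^ 2 / T) (c4 : Ut / (3 * μ) ≤ 3 / 2) (c5 : A1 ≤ 1 / 8) :
    X - 2 * μ ^ 2 / T * n2 ≤ 0 := by
  have h4 : Ut / (3 * μ) * V ≤ 3 / 2 * V := mul_le_mul_of_nonneg_right c4 hV0
  have h5 : 34 * δ * μ ^ 2 * Ut * n2 ≤ (μ ^ 2 / (2 * T)) * n2 := by
    have := mul_le_mul_of_nonneg_left c1 (show 0 ≤ μ ^ 2 * n2 by positivity)
    calc 34 * δ * μ ^ 2 * Ut * n2 = μ ^ 2 * n2 * (34 * δ * Ut) := by ring
      _ ≤ μ ^ 2 * n2 * (1 / (2 * T)) := this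
      _ = _ := by ring
  have h6 : 4 * A1 ^ 2 * (Λ * n2) ≤ (μ ^ 2 / (2 * T)) * n2 := by
    have h7 : 4 * A1 ^ 2 * (Λ * n2) ≤ 4 * A1 ^ 2 * (4 * μ ^ 2 * n2) := by
      apply mul_le_mul_of_nonneg_left _ (by positivity)
      exact mul_le_mul_of_nonneg_right hΛ2 hn2
    have := mul_le_mul_of_nonneg_left c2 (show 0 ≤ μ ^ 2 * n2 by positivity)
    calc 4 * A1 ^ 2 * (Λ * n2) ≤ 4 * A1 ^ 2 * (4 * μ ^ 2 * n2) := h7
      _ = μ ^ 2 * n2 * (16 * A1 ^ 2) := by ring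
      _ ≤ μ ^ 2 * n2 * (1 / (2 * T)) := this
      _ = _ := by ring
  have h7 : 4 * A2 ^ 2 * n2 ≤ (μ ^ 2 / T) * n2 := mul_le_mul_of_nonneg_right c3 hn2
  have h8 : 4 * A1 ^ 2 ≤ 2 * Λ := by
    have : A1 ^ 2 ≤ 1 := by nlinarith
    have : 1 ≤ μ ^ 2 := one_le_pow₀ hμ
    linarith
  have h9 : 4 * A1 ^ 2 * (g2 - Λ * n2) ≤ 2 * Λ * (g2 - Λ * n2) :=
    mul_le_mul_of_nonneg_right h8 hz
  have h10 : 2 * μ ^ 2 / T * n2 = (μ ^ 2 / (2 * T)) * n2 + (μ ^ 2 / (2 * T)) * n2 +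
      (μ ^ 2 / T) * n2 := by
    field_simp
    ring
  have h11 : 2 * e2 ≤ 4 * A1 ^ 2 * (g2 - Λ * n2) + 4 * A1 ^ 2 * (Λ * n2) + 4 * A2 ^ 2 * n2 := by
    linarith
  linarith

/-- the time derivative of `p - Λ n` -/
lemma Win.z_deriv (h : Win F U μ δ Ut C L T A1 A2 v φ e) {Λ : ℝ → ℝ} {κ t : ℝ}
    (hΛ : HasDerivAt Λ κ t) (h1 : 2 * μ ^ 2 ≤ Λ t) (h2 : Λ t ≤ 4 * μ ^ 2)
    (hκ : κ = 2 * μ ^ 2 / T) (ht0 : t ∈ Ioo 0 T)
    (ho : ∀ k, HasDerivAt (fun s => φ s k)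
      (-(N k : ℂ) * φ t k + Complex.I * op F (zz (v t) μ δ 1) (φ t) k + e t k) t)
    (hz : 0 ≤ nm (gr (φ t)) ^ 2 - Λ t * nm (φ t) ^ 2) :
    ∃ d, HasDerivAt (fun t => nm (gr (φ t)) ^ 2 - Λ t * nm (φ t) ^ 2) d t ∧ d ≤ 0 := by
  have ht' : t ∈ Icc 0 T := ⟨ht0.1.le, ht0.2.le⟩
  have d1 := EE_deriv (w := fun _ => 1) zero_le_one one_weight h.hC h.hL h.dec h.lip ht0 ho
  have d2 := EE_deriv (w := N) zero_le_one N_weight h.hC h.hL h.dec h.lip ht0 ho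
  simp only [EE_one] at d1
  simp only [EE_N] at d2
  have d3 := d2.fun_sub (hΛ.fun_mul d1)
  have hd := deriv_decay h.hL h.lip ht0 ho
  have e1 := XX_sub (Λ := Λ t) h.hL h.hC (h.dec t ht') hd
  have hpos : 0 ≤ Λ t := le_trans (by positivity) h1
  have h3 := energy_z (h.fix ht') (h.esq t ht') (Λ := Λ t) hpos h2
  refine ⟨_, d3, ?_⟩
  have e2 : XX N (φ t) (fun k => -(N k : ℂ) * φ t k +
      Complex.I * op F (zz (v t) μ δ 1) (φ t) k + e t k) -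
      (κ * nm (φ t) ^ 2 + Λ t * XX (fun _ => 1) (φ t) (fun k => -(N k : ℂ) * φ t k +
      Complex.I * op F (zz (v t) μ δ 1) (φ t) k + e t k)) =
      XX (fun k => N k - Λ t) (φ t) (fun k => -(N k : ℂ) * φ t k +
      Complex.I * op F (zz (v t) μ δ 1) (φ t) k + e t k) - 2 * μ ^ 2 / T * nm (φ t) ^ 2 := by
    rw [← e1, hκ]
    ring
  rw [e2]
  apply low_arith h.hμ h.hT (sq_nonneg _) (sq_nonneg _) h3 _ hz h1 h2 h.hA1 h.c1 h.c2 h.c3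
    h.c4 h.c5
  have h4 := pow_le_pow_left₀ (nm_nonneg (e t)) (h.ebd t ht') 2
  nlinarith [sq_nonneg (A1 * nm (gr (φ t)) - A2 * nm (φ t))]

/-- the frequency stays low -/
lemma Win.low (h : Win F U μ δ Ut C L T A1 A2 v φ e) {t₁ : ℝ} (ht₁ : t₁ ∈ Icc 0 T)
    (hp : nm (gr (φ t₁)) ^ 2 ≤ 2 * μ ^ 2 * nm (φ t₁) ^ 2) :
    ∀ t ∈ Icc t₁ T, nm (gr (φ t)) ^ 2 ≤ 4 * μ ^ 2 * nm (φ t) ^ 2 := by
  have hμ := h.hμ
  have hT := h.hT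
  set κ : ℝ := 2 * μ ^ 2 / T with hκ
  have hκ0 : 0 ≤ κ := by positivity
  set Λ : ℝ → ℝ := fun t => 2 * μ ^ 2 + κ * (t - t₁) with hΛ
  have hΛd : ∀ t, HasDerivAt Λ κ t := by
    intro t
    have h1 : HasDerivAt (fun t => κ * (t - t₁)) (κ * 1) t :=
      ((hasDerivAt_id t).sub_const t₁).const_mul κ
    rw [mul_one] at h1
    exact h1.const_add _
  have hΛb : ∀ t ∈ Icc t₁ T, 2 * μ ^ 2 ≤ Λ t ∧ Λ t ≤ 4 * μ ^ 2 := by
    intro t ht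
    have h1 : 0 ≤ κ * (t - t₁) := mul_nonneg hκ0 (by linarith [ht.1])
    have h2 : κ * (t - t₁) ≤ κ * T := mul_le_mul_of_nonneg_left (by linarith [ht.2, ht₁.1]) hκ0
    have h3 : κ * T = 2 * μ ^ 2 := by rw [hκ]; field_simp
    simp only [hΛ]
    constructor <;> linarith
  have hΛac : AbsolutelyContinuousOnInterval Λ t₁ T := by
    apply ContDiffOn.absolutelyContinuousOnInterval
    apply ContDiff.contDiffOn
    simp only [hΛ]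
    fun_prop
  have hnac := ac_sub h.n_ac hT.le ht₁.2 ht₁.1 le_rfl
  have hpac := ac_sub h.p_ac hT.le ht₁.2 ht₁.1 le_rfl
  have hzac := hpac.fun_sub (hΛac.fun_mul hnac)
  have hb := barrier (z := fun t => nm (gr (φ t)) ^ 2 - Λ t * nm (φ t) ^ 2) hzac (by
    simp only [hΛ, sub_self, mul_zero, add_zero]
    linarith) (by
    filter_upwards [ae_Ioo h.ode ht₁.1 le_rfl] with t ht hmem hz
    obtain ⟨ht0, ho⟩ := ht hmem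
    have hΛt := hΛb t hmem
    exact h.z_deriv (hΛd t) hΛt.1 hΛt.2 hκ ht0 ho hz)
  intro t ht
  have h1 := hb t ht
  have h2 := (hΛb t ht).2
  have h3 : 0 ≤ nm (φ t) ^ 2 := by positivity
  have h4 := mul_le_mul_of_nonneg_right h2 h3
  beta_reduce at h1
  linarith

/-- lower bound while the frequency is low -/
lemma Win.slow (h : Win F U μ δ Ut C L T A1 A2 v φ e) {s t : ℝ} (hs : 0 ≤ s) (hst : s ≤ t)
    (ht : t ≤ T) (hp : ∀ τ ∈ Icc s t, nm (gr (φ τ)) ^ 2 ≤ 4 * μ ^ 2 * nm (φ τ) ^ 2) :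
    Real.exp (-(9 * μ ^ 2 * (t - s))) * nm (φ s) ^ 2 ≤ nm (φ t) ^ 2 := by
  have hμ := h.hμ
  apply exp_lower (n := fun t => nm (φ t) ^ 2) (κ := 9 * μ ^ 2) hst (ac_sub h.n_ac h.hT.le hst hs ht)
  filter_upwards [ae_Ioo h.ode hs ht] with τ hτ hmem
  obtain ⟨h0, ho⟩ := hτ hmem
  obtain ⟨d, hd, hb⟩ := h.n_deriv h0 ho
  refine ⟨d, hd, ?_⟩
  have h1 := (abs_le.1 hb).1
  have h2 := hp τ hmem
  have h3 : 0 ≤ nm (φ τ) ^ 2 := by positivity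
  have h4 : 0 ≤ nm (gr (φ τ)) ^ 2 := by positivity
  have h5 : A1 * nm (gr (φ τ)) ^ 2 ≤ 1 / 8 * nm (gr (φ τ)) ^ 2 :=
    mul_le_mul_of_nonneg_right h.c5 h4
  have h6 : (A1 + 2 * A2) * nm (φ τ) ^ 2 ≤ μ ^ 2 / 4 * nm (φ τ) ^ 2 :=
    mul_le_mul_of_nonneg_right h.c6 h3
  have h7 : 0 ≤ μ ^ 2 * nm (φ τ) ^ 2 := by positivity
  nlinarith

/-- fast decay while the frequency is high -/
lemma Win.fast (h : Win F U μ δ Ut C L T A1 A2 v φ e) (hT1 : 1 ≤ T)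
    (hp : ∀ τ ∈ Icc (0 : ℝ) 1, 2 * μ ^ 2 * nm (φ τ) ^ 2 ≤ nm (gr (φ τ)) ^ 2) :
    nm (φ 1) ^ 2 ≤ Real.exp (-(7 / 2 * μ ^ 2)) * nm (φ 0) ^ 2 := by
  have hμ := h.hμ
  have := exp_upper (n := fun t => nm (φ t) ^ 2) (κ := 7 / 2 * μ ^ 2) zero_le_one
    (ac_sub h.n_ac h.hT.le zero_le_one le_rfl hT1) (by
    filter_upwards [ae_Ioo h.ode le_rfl hT1] with τ hτ hmem
    obtain ⟨h0, ho⟩ := hτ hmem
    obtain ⟨d, hd, hb⟩ := h.n_deriv h0 ho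
    refine ⟨d, hd, ?_⟩
    have h1 := (abs_le.1 hb).2
    have h2 := hp τ hmem
    have h3 : 0 ≤ nm (φ τ) ^ 2 := by positivity
    have h4 : 0 ≤ nm (gr (φ τ)) ^ 2 := by positivity
    have h5 : A1 * nm (gr (φ τ)) ^ 2 ≤ 1 / 8 * nm (gr (φ τ)) ^ 2 :=
      mul_le_mul_of_nonneg_right h.c5 h4
    have h6 : (A1 + 2 * A2) * nm (φ τ) ^ 2 ≤ μ ^ 2 / 4 * nm (φ τ) ^ 2 :=
      mul_le_mul_of_nonneg_right h.c6 h3
    have h7 : 0 ≤ μ ^ 2 * nm (φ τ) ^ 2 := by positivity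
    nlinarith)
  simpa using this

end

end Pool.Agent.DED
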