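import Pool.Agent.DED.Stat
import Pool.Agent.DED.Duh

open scoped BigOperators ComplexConjugate
open MeasureTheory Set

noncomputable section

namespace Pool.Agent.DED

/-- time dependent velocity coefficients -/
structure TVel (v : ℝ → K → ℂ × ℂ) (U : K → ℝ) : Prop where
  vel : ∀ t, Vel (v t) U
  m1 : ∀ m, Measurable (fun t => (v t m).1)
  m2 : ∀ m, Measurable (fun t => (v t m).2)

lemma TVel.rev {v : ℝ → K → ℂ × ℂ} {U : K → ℝ} (h : TVel v U) (T : ℝ) :
    TVel (fun s => v (T - s)) U where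
  vel t := h.vel _
  m1 m := (h.m1 m).comp (measurable_const.sub measurable_id)
  m2 m := (h.m2 m).comp (measurable_const.sub measurable_id)

/-- the forcing -/
def frc (v : ℝ → K → ℂ × ℂ) (w : K → ℝ) (μ D : ℝ) (m l : K) (s : ℝ) : ℂ :=
  Complex.I * (al (v s) m l * ((ze μ m l * hp D (w l) : ℝ) : ℂ))

/-- one sided generator -/
def gg (v : ℝ → K → ℂ × ℂ) (w : K → ℝ) (μ D : ℝ) (m l : K) (t : ℝ) : ℂ :=
  fwd (w l) (frc v w μ D m l) t

variable {v : ℝ → K → ℂ × ℂ} {U : K → ℝ} {w : K → ℝ} {μ δ M : ℝ}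

lemma frc_meas (hv : TVel v U) (D : ℝ) (m l : K) : Measurable (frc v w μ D m l) := by
  unfold frc al
  have h1 := hv.m1 m
  have h2 := hv.m2 m
  exact (((h1.const_mul _).add (h2.const_mul _)).mul_const _).const_mul _

lemma frc_BM (hv : TVel v U) (hμ : 0 < μ) (hM : M ≤ μ) {m : K} (hm : si m ≤ M) (D : ℝ) (l : K) :
    BM (frc v w μ D m l) (17 * μ * U m) := by
  refine ⟨frc_meas hv D m l, fun s => ?_⟩
  have hU := (hv.vel s).U_nonneg m
  unfold frc
  by_cases h : ze μ m l = 0
  · rw [h]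
    simp only [zero_mul, Complex.ofReal_zero, mul_zero, norm_zero]
    positivity
  · have h1 := ze_support hμ (hm.trans hM) h
    rw [norm_mul, Complex.norm_I, one_mul, norm_mul, Complex.norm_real, Real.norm_eq_abs]
    have h2 := ze_nonneg μ m l
    have h3 := ze_le_one μ m l
    have h4 := hp_nonneg D (w l)
    have h5 := hp_le_one D (w l)
    have h6 : |ze μ m l * hp D (w l)| ≤ 1 := by
      rw [abs_of_nonneg (mul_nonneg h2 h4)]
      nlinarith
    calc ‖al (v s) m l‖ * |ze μ m l * hp D (w l)| ≤ ‖al (v s) m l‖ * 1 := by gcongr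
      _ ≤ si l * U m := by rw [mul_one]; exact al_bound (hv.vel s).bd m l
      _ ≤ _ := by gcongr

lemma frc_zero {D : ℝ} {m l : K} (h : ze μ m l * hp D (w l) = 0) : frc v w μ D m l = fun _ => 0 := by
  funext s
  unfold frc
  rw [h]
  simp

lemma gg_zero {D : ℝ} {m l : K} (h : ze μ m l * hp D (w l) = 0) (t : ℝ) :
    gg v w μ D m l t = 0 := by
  unfold gg
  rw [frc_zero h, fwd_zero]

/-- the constant in the Lipschitz bound of the forcing -/
def L1 (M δ : ℝ) : ℝ := M + 18 * (M / 8 + 4 * M ^ 2 / δ)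

lemma L1_nonneg (hM : 0 ≤ M) (hδ : 0 < δ) : 0 ≤ L1 M δ := by
  unfold L1; positivity

lemma frc_lip (hv : TVel v U) (hμ : 0 < μ) (hδ : 0 < δ) (hM0 : 0 ≤ M) (hM : M ≤ μ) {m p : K}
    (hm : si m ≤ M) (hp' : si p ≤ M) (l : K)
    (hw : |w (l + p) - w l| ≤ 4 * si m * si p) (s : ℝ) :
    ‖frc v w μ (δ * μ) m (l + p) s - frc v w μ (δ * μ) m l s‖ ≤ L1 M δ * U m := by
  have hU := (hv.vel s).U_nonneg m
  have hD : 0 < δ * μ := by positivity
  have hL := L1_nonneg hM0 hδ
  set r : K → ℝ := fun l => ze μ m l * hp (δ * μ) (w l) with hr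
  by_cases h0 : ze μ m (l + p) = 0 ∧ ze μ m l = 0
  · unfold frc
    rw [h0.1, h0.2]
    simp only [zero_mul, Complex.ofReal_zero, mul_zero, sub_zero, norm_zero]
    positivity
  · have hl : si l ≤ 18 * μ := by
      by_cases h1 : ze μ m l = 0
      · have h2 : ze μ m (l + p) ≠ 0 := fun h => h0 ⟨h, h1⟩
        have h3 := ze_support hμ (hm.trans hM) h2
        have h4 := si_add (l + p) (-p)
        rw [si_neg, add_neg_cancel_right] at h4
        linarith
      · have := ze_support hμ (hm.trans hM) h1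
        linarith
    have e : frc v w μ (δ * μ) m (l + p) s - frc v w μ (δ * μ) m l s =
        Complex.I * (al (v s) m p * ((r (l + p) : ℝ) : ℂ) +
          al (v s) m l * ((r (l + p) - r l : ℝ) : ℂ)) := by
      unfold frc
      rw [al_add]
      simp only [hr]
      push_cast
      ring
    rw [e, norm_mul, Complex.norm_I, one_mul]
    refine (norm_add_le _ _).trans ?_
    have hr0 : ∀ l, 0 ≤ r l := fun l => mul_nonneg (ze_nonneg _ _ _) (hp_nonneg _ _)
    have hr1 : ∀ l, r l ≤ 1 := fun l => by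
      have := ze_nonneg μ m l
      have := ze_le_one μ m l
      have := hp_nonneg (δ * μ) (w l)
      have := hp_le_one (δ * μ) (w l)
      simp only [hr]
      nlinarith
    have hrd : |r (l + p) - r l| ≤ M / (8 * μ) + 4 * M ^ 2 / (δ * μ) := by
      have e2 : r (l + p) - r l = (ze μ m (l + p) - ze μ m l) * hp (δ * μ) (w (l + p)) +
          ze μ m l * (hp (δ * μ) (w (l + p)) - hp (δ * μ) (w l)) := by
        simp only [hr]; ring
      rw [e2]
      refine (abs_add_le _ _).trans ?_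
      rw [abs_mul, abs_mul, abs_of_nonneg (hp_nonneg _ _), abs_of_nonneg (ze_nonneg _ _ _)]
      apply add_le_add
      · calc |ze μ m (l + p) - ze μ m l| * hp (δ * μ) (w (l + p))
            ≤ (si p / (8 * μ)) * 1 := by
              apply mul_le_mul (ze_lip hμ m l p) (hp_le_one _ _) (hp_nonneg _ _)
              have := si_nonneg p
              positivity
          _ ≤ M / (8 * μ) := by rw [mul_one]; gcongr
      · calc ze μ m l * |hp (δ * μ) (w (l + p)) - hp (δ * μ) (w l)|
            ≤ 1 * (|w (l + p) - w l| / (δ * μ)) := by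
              apply mul_le_mul (ze_le_one _ _ _) (hp_lip hD _ _) (abs_nonneg _) zero_le_one
          _ ≤ 4 * M ^ 2 / (δ * μ) := by
              rw [one_mul]
              apply div_le_div_of_nonneg_right _ hD.le
              refine hw.trans ?_
              have h1 := si_nonneg m
              have h2 := si_nonneg p
              nlinarith [mul_le_mul hm hp' h2 hM0]
    rw [norm_mul, norm_mul, Complex.norm_real, Complex.norm_real, Real.norm_eq_abs,
      Real.norm_eq_abs, abs_of_nonneg (hr0 _)]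
    have h5 : ‖al (v s) m p‖ * r (l + p) ≤ M * U m := by
      calc ‖al (v s) m p‖ * r (l + p) ≤ (si p * U m) * 1 := by
            apply mul_le_mul (al_bound (hv.vel s).bd m p) (hr1 _) (hr0 _)
            exact mul_nonneg (si_nonneg _) hU
        _ ≤ _ := by rw [mul_one]; gcongr
    have h6 : ‖al (v s) m l‖ * |r (l + p) - r l| ≤ 18 * (M / 8 + 4 * M ^ 2 / δ) * U m := by
      calc ‖al (v s) m l‖ * |r (l + p) - r l|
          ≤ (18 * μ * U m) * (M / (8 * μ) + 4 * M ^ 2 / (δ * μ)) := by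
            apply mul_le_mul _ hrd (abs_nonneg _) (by positivity)
            refine (al_bound (hv.vel s).bd m l).trans ?_
            gcongr
        _ = _ := by field_simp
    unfold L1
    linarith

lemma gg_bound (hv : TVel v U) (hμ : 0 < μ) (hδ : 0 < δ) (hM : M ≤ μ) {m : K}
    (hm : si m ≤ M) (l : K) {t : ℝ} (ht : 0 ≤ t) :
    ‖gg v w μ (δ * μ) m l t‖ ≤ 17 / δ * U m := by
  have hU := (hv.vel 0).U_nonneg m
  have hD : 0 < δ * μ := by positivity
  by_cases h : δ * μ ≤ w l
  · unfold gg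
    have h1 := frc_BM (w := w) hv hμ hM hm (δ * μ) l
    refine (norm_fwd_le h1 (lt_of_lt_of_le hD h) ht).trans ?_
    calc 17 * μ * U m / w l ≤ 17 * μ * U m / (δ * μ) := by gcongr
      _ = _ := by field_simp
  · push Not at h
    rw [gg_zero]
    · rw [norm_zero]; positivity
    · rw [hp_zero hD h.le, mul_zero]

/-- Lipschitz constant of the one-sided generator -/
def L2c (M δ : ℝ) : ℝ := L1 M δ / δ + 68 * M ^ 2 / δ ^ 2

lemma L2c_nonneg (hM : 0 ≤ M) (hδ : 0 < δ) : 0 ≤ L2c M δ := by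
  have := L1_nonneg hM hδ
  unfold L2c; positivity

lemma gg_lip (hv : TVel v U) (hμ : 0 < μ) (hδ : 0 < δ) (hM0 : 0 ≤ M) (hM : M ≤ μ) {m p : K}
    (hm : si m ≤ M) (hp' : si p ≤ M) (l : K)
    (hw : |w (l + p) - w l| ≤ 4 * si m * si p) {t : ℝ} (ht : 0 ≤ t) :
    ‖gg v w μ (δ * μ) m (l + p) t - gg v w μ (δ * μ) m l t‖ ≤ L2c M δ * U m / μ := by
  have hU := (hv.vel 0).U_nonneg m
  have hD : 0 < δ * μ := by positivity
  have hL := L1_nonneg hM0 hδ
  have hlip := frc_lip hv hμ hδ hM0 hM hm hp' l hw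
  have hb1 := frc_BM (w := w) hv hμ hM hm (δ * μ) (l + p)
  have hb2 := frc_BM (w := w) hv hμ hM hm (δ * μ) l
  have hfin : L1 M δ * U m / (δ * μ) ≤ L2c M δ * U m / μ := by
    have : L1 M δ * U m / (δ * μ) = (L1 M δ / δ) * U m / μ := by field_simp
    rw [this]
    unfold L2c
    have : 0 ≤ 68 * M ^ 2 / δ ^ 2 := by positivity
    gcongr
    linarith
  by_cases h1 : δ * μ ≤ w (l + p)
  · by_cases h2 : δ * μ ≤ w l
    · unfold gg
      refine (fwd_param hD h1 h2 hb1 hb2 hlip ht).trans ?_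
      have h3 : |w (l + p) - w l| ≤ 4 * M ^ 2 := by
        refine hw.trans ?_
        have h1 := si_nonneg m
        have h2 := si_nonneg p
        nlinarith [mul_le_mul hm hp' h2 hM0]
      calc L1 M δ * U m / (δ * μ) + |w (l + p) - w l| * (17 * μ * U m) / (δ * μ) ^ 2
          ≤ L1 M δ * U m / (δ * μ) + (4 * M ^ 2) * (17 * μ * U m) / (δ * μ) ^ 2 := by gcongr
        _ = _ := by unfold L2c; field_simp; ring
    · push Not at h2
      have hz : ze μ m l * hp (δ * μ) (w l) = 0 := by rw [hp_zero hD h2.le, mul_zero]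
      rw [gg_zero hz, sub_zero]
      have hb : BM (frc v w μ (δ * μ) m (l + p)) (L1 M δ * U m) := by
        refine ⟨hb1.meas, fun s => ?_⟩
        have := hlip s
        rw [frc_zero hz] at this
        simpa using this
      unfold gg
      refine (norm_fwd_le hb (lt_of_lt_of_le hD h1) ht).trans (le_trans ?_ hfin)
      gcongr
  · push Not at h1
    have hz1 : ze μ m (l + p) * hp (δ * μ) (w (l + p)) = 0 := by rw [hp_zero hD h1.le, mul_zero]
    rw [gg_zero hz1, zero_sub, norm_neg]
    by_cases h2 : δ * μ ≤ w l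
    · have hb : BM (frc v w μ (δ * μ) m l) (L1 M δ * U m) := by
        refine ⟨hb2.meas, fun s => ?_⟩
        have := hlip s
        rw [frc_zero hz1] at this
        simpa using this
      unfold gg
      refine (norm_fwd_le hb (lt_of_lt_of_le hD h2) ht).trans (le_trans ?_ hfin)
      gcongr
    · push Not at h2
      have hz : ze μ m l * hp (δ * μ) (w l) = 0 := by rw [hp_zero hD h2.le, mul_zero]
      rw [gg_zero hz, norm_zero]
      have := L2c_nonneg hM0 hδ
      positivity

/-- the generator of the normal form on the window `[0,T]` -/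
def bb (v : ℝ → K → ℂ × ℂ) (μ δ T : ℝ) (t : ℝ) (m l : K) : ℂ :=
  gg v (om m) μ (δ * μ) m l t -
    gg (fun s => v (T - s)) (fun l => - om m l) μ (δ * μ) m l (T - t)

lemma bb_gen (hv : TVel v U) (hμ : 0 < μ) (hδ : 0 < δ) (hM0 : 0 ≤ M) (hM : M ≤ μ)
    {F : Finset K} (hF : ∀ m ∈ F, si m ≤ M) {T t : ℝ} (ht : t ∈ Icc 0 T) :
    Gen F (bb v μ δ T t) U M μ (34 / δ) (2 * L2c M δ) := by
  have hD : 0 < δ * μ := by positivity
  have ht' : 0 ≤ T - t := sub_nonneg.2 ht.2
  refine ⟨?_, ?_, ?_⟩
  · intro m hm l h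
    by_contra hc
    apply h
    have hz : ze μ m l = 0 := by
      by_contra hz
      exact hc (ze_support hμ ((hF m hm).trans hM) hz)
    unfold bb
    rw [gg_zero (by rw [hz, zero_mul]), gg_zero (by rw [hz, zero_mul]), sub_zero]
  · intro m hm l
    unfold bb
    refine (norm_sub_le _ _).trans ?_
    have h1 := gg_bound (w := om m) hv hμ hδ hM (hF m hm) l ht.1
    have h2 := gg_bound (w := fun l => - om m l) (hv.rev T) hμ hδ hM (hF m hm) l ht'
    calc _ ≤ 17 / δ * U m + 17 / δ * U m := add_le_add h1 h2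
      _ = _ := by ring
  · intro m hm p hp' l
    unfold bb
    have e : gg v (om m) μ (δ * μ) m (l + p) t -
        gg (fun s => v (T - s)) (fun l => - om m l) μ (δ * μ) m (l + p) (T - t) -
        (gg v (om m) μ (δ * μ) m l t -
        gg (fun s => v (T - s)) (fun l => - om m l) μ (δ * μ) m l (T - t)) =
        (gg v (om m) μ (δ * μ) m (l + p) t - gg v (om m) μ (δ * μ) m l t) -
        (gg (fun s => v (T - s)) (fun l => - om m l) μ (δ * μ) m (l + p) (T - t) -
        gg (fun s => v (T - s)) (fun l => - om m l) μ (δ * μ) m l (T - t)) := by ring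
    rw [e]
    refine (norm_sub_le _ _).trans ?_
    have h1 := gg_lip (w := om m) hv hμ hδ hM0 hM (hF m hm) hp' l (om_lip m l p) ht.1
    have h2 := gg_lip (w := fun l => - om m l) (hv.rev T) hμ hδ hM0 hM (hF m hm) hp' l
      (by
        have := om_lip m l p
        rw [show - om m (l + p) - - om m l = -(om m (l + p) - om m l) by ring, abs_neg]
        exact this) ht'
    calc _ ≤ L2c M δ * U m / μ + L2c M δ * U m / μ := add_le_add h1 h2
      _ = _ := by ring

lemma bb_lip_t (hv : TVel v U) (hμ : 0 < μ) (hδ : 0 < δ) (hM : M ≤ μ)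
    {m : K} (hm : si m ≤ M) (l : K) {T s t : ℝ} (hs : s ∈ Icc 0 T) (ht : t ∈ Icc 0 T) :
    ‖bb v μ δ T t m l - bb v μ δ T s m l‖ ≤ 4 * (17 * μ * U m) * |t - s| := by
  have hD : 0 < δ * μ := by positivity
  have hU := (hv.vel 0).U_nonneg m
  have key : ∀ (v' : ℝ → K → ℂ × ℂ) (w' : K → ℝ), TVel v' U → ∀ x y : ℝ, 0 ≤ x → 0 ≤ y →
      ‖gg v' w' μ (δ * μ) m l y - gg v' w' μ (δ * μ) m l x‖ ≤ 2 * (17 * μ * U m) * |y - x| := by
    intro v' w' hv' x y hx hy
    by_cases h : δ * μ ≤ w' l
    · exact fwd_lip (frc_BM hv' hμ hM hm (δ * μ) l) (lt_of_lt_of_le hD h) hx hy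
    · push Not at h
      have hz : ze μ m l * hp (δ * μ) (w' l) = 0 := by rw [hp_zero hD h.le, mul_zero]
      rw [gg_zero hz, gg_zero hz, sub_zero, norm_zero]
      positivity
  unfold bb
  have h1 := key v (om m) hv s t hs.1 ht.1
  have h2 := key (fun s => v (T - s)) (fun l => - om m l) (hv.rev T) (T - s) (T - t)
    (sub_nonneg.2 hs.2) (sub_nonneg.2 ht.2)
  rw [show T - t - (T - s) = -(t - s) by ring, abs_neg] at h2
  have e : gg v (om m) μ (δ * μ) m l t -
        gg (fun s => v (T - s)) (fun l => - om m l) μ (δ * μ) m l (T - t) -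
        (gg v (om m) μ (δ * μ) m l s -
        gg (fun s => v (T - s)) (fun l => - om m l) μ (δ * μ) m l (T - s)) =
        (gg v (om m) μ (δ * μ) m l t - gg v (om m) μ (δ * μ) m l s) -
        (gg (fun s => v (T - s)) (fun l => - om m l) μ (δ * μ) m l (T - t) -
        gg (fun s => v (T - s)) (fun l => - om m l) μ (δ * μ) m l (T - s)) := by ring
  rw [e]
  refine (norm_sub_le _ _).trans ?_
  calc _ ≤ 2 * (17 * μ * U m) * |t - s| + 2 * (17 * μ * U m) * |t - s| := add_le_add h1 h2
    _ = _ := by ring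

lemma bb_deriv (hv : TVel v U) (hμ : 0 < μ) (hM : M ≤ μ)
    {m : K} (hm : si m ≤ M) (l : K) (T : ℝ) :
    ∀ᵐ t : ℝ, HasDerivAt (fun t => bb v μ δ T t m l)
      (-(om m l : ℂ) * bb v μ δ T t m l + Complex.I * anr (v t) μ δ m l) t := by
  have h1 := ae_hasDerivAt_fwd (om m l) (frc_BM (w := om m) hv hμ hM hm (δ * μ) l)
  have h2 := ae_hasDerivAt_fwd (- om m l)
    (frc_BM (w := fun l => - om m l) (hv.rev T) hμ hM hm (δ * μ) l)
  have h3 : ∀ᵐ t : ℝ, HasDerivAt
      (fwd (- om m l) (frc (fun s => v (T - s)) (fun l => - om m l) μ (δ * μ) m l))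
      (-((- om m l : ℝ) : ℂ) * fwd (- om m l) (frc (fun s => v (T - s)) (fun l => - om m l) μ
        (δ * μ) m l) (T - t) +
        frc (fun s => v (T - s)) (fun l => - om m l) μ (δ * μ) m l (T - t)) (T - t) :=
    (Measure.measurePreserving_sub_left volume T).quasiMeasurePreserving.ae h2
  filter_upwards [h1, h3] with t ht1 ht2
  have h4 : HasDerivAt (fun t : ℝ => T - t) (-1) t := by
    have := (hasDerivAt_const t T).sub (hasDerivAt_id t)
    convert! this using 1
    simp
  have h5 := HasDerivAt.scomp t ht2 h4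
  have h6 := ht1.sub h5
  unfold bb gg
  convert! h6 using 1
  simp only [frc, anr, eta, hh, sub_sub_cancel, neg_smul, one_smul]
  push_cast
  ring

end Pool.Agent.DED
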