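import Pool.Agent.DED.WinMain

open scoped BigOperators ComplexConjugate Topology
open MeasureTheory Set Filter

noncomputable section

namespace Pool.Agent.DED

/-- global smooth solutions at the level of Fourier coefficients -/
structure GSol (v : ℝ → K → ℂ × ℂ) (c : ℝ → K → ℂ) : Prop where
  reg : ∀ T : ℝ, ∃ C L : ℝ, 0 ≤ C ∧ 0 ≤ L ∧ Dec (Icc 0 T) c C ∧ DLip (Icc 0 T) c L
  ode : ∀ᵐ t : ℝ, 0 < t → ∀ k, HasDerivAt (fun s => c s k)
    (-(N k : ℂ) * c t k + Complex.I * cpl (v t) (c t) k) t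

lemma TVel.shift {v : ℝ → K → ℂ × ℂ} {U : K → ℝ} (h : TVel v U) (τ : ℝ) :
    TVel (fun s => v (τ + s)) U where
  vel t := h.vel (τ + t)
  m1 m := (h.m1 m).comp (measurable_const.add measurable_id)
  m2 m := (h.m2 m).comp (measurable_const.add measurable_id)

lemma GSol.sol {v : ℝ → K → ℂ × ℂ} {c : ℝ → K → ℂ} (h : GSol v c) {τ : ℝ} (hτ : 0 ≤ τ) (T : ℝ) :
    ∃ C L, Sol T (fun s => v (τ + s)) (fun s => c (τ + s)) C L := by
  obtain ⟨C, L, hC, hL, hd, hl⟩ := h.reg (τ + T)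
  have hmem : ∀ t ∈ Icc 0 T, τ + t ∈ Icc 0 (τ + T) := fun t ht =>
    ⟨add_nonneg hτ ht.1, add_le_add_right ht.2 τ⟩
  refine ⟨C, L, hC, hL, fun t ht k => hd _ (hmem t ht) k, fun s hs t ht k => ?_, ?_⟩
  · have := hl _ (hmem s hs) _ (hmem t ht) k
    rw [add_sub_add_left_eq_sub] at this
    exact this
  · have h1 : ∀ᵐ t : ℝ, 0 < τ + t → ∀ k, HasDerivAt (fun s => c s k)
        (-(N k : ℂ) * c (τ + t) k + Complex.I * cpl (v (τ + t)) (c (τ + t)) k) (τ + t) :=
      (measurePreserving_add_left volume τ).quasiMeasurePreserving.ae h.ode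
    filter_upwards [h1] with t ht hmem k
    have h2 := ht (by linarith [hmem.1]) k
    exact h2.comp_const_add τ t

theorem seq_main {U : K → ℝ} (hU0 : ∀ m, 0 ≤ U m) (hU : Summable U)
    (hU1 : Summable (fun m => eu m * U m)) {v : ℝ → K → ℂ × ℂ} {c : ℝ → K → ℂ}
    (hv : TVel v U) (hc : GSol v c) (h0 : 0 < nm (c 0)) {ε : ℝ} (hε : 0 < ε) :
    ∃ A : ℝ, 0 ≤ A ∧ ∀ t : ℝ, 0 ≤ t →
      Real.exp (-(A * Real.exp (ε * t))) * nm (c 0) ≤ nm (c t) := by
  set T₀ : ℝ := max 1 (Real.log 5 / ε) with hT₀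
  have hT1 : 1 ≤ T₀ := le_max_left _ _
  have hT2 : Real.log 5 / ε ≤ T₀ := le_max_right _ _
  obtain ⟨μ₀, β, β1, hμ₀, hβ, hβ1, hμβ, hw⟩ := window hU0 hU hU1 (T := T₀ + 1) (by linarith)
  -- the initial scale
  set X : ℝ := (Real.exp β * (nm (gr (c 0)) + β1 * (Real.exp β * nm (c 0)))) ^ 2 with hX
  have hX0 : 0 ≤ X := sq_nonneg _
  set Y : ℝ := 2 * (Real.exp (-(4 * β)) * nm (c 0) ^ 2) with hY
  have hY0 : 0 < Y := by positivity
  set μ : ℝ := μ₀ + X / Y with hμ
  have hXY : 0 ≤ X / Y := by positivity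
  have hμμ₀ : μ₀ ≤ μ := by linarith
  have hμ1 : 1 ≤ μ := by linarith
  have hμsq : μ ≤ μ ^ 2 := by nlinarith
  have hinit : X ≤ 2 * μ ^ 2 * (Real.exp (-(4 * β)) * nm (c 0) ^ 2) := by
    have h1 : X = X / Y * Y := by field_simp
    have h2 : X / Y * Y ≤ μ ^ 2 * Y := mul_le_mul_of_nonneg_right (by linarith) hY0.le
    rw [hY] at h2
    linarith
  -- the scales
  set mu : ℕ → ℝ := fun j => μ * Real.sqrt 5 ^ j with hmu
  have h5 : (1 : ℝ) ≤ Real.sqrt 5 := by
    rw [Real.one_le_sqrt]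
    norm_num
  have hmu0 : ∀ j, μ ≤ mu j := fun j => by
    have : (1 : ℝ) ≤ Real.sqrt 5 ^ j := one_le_pow₀ h5
    simp only [hmu]
    nlinarith
  have hmusq : ∀ j, mu j ^ 2 = μ ^ 2 * 5 ^ j := fun j => by
    simp only [hmu]
    rw [mul_pow, ← pow_mul, mul_comm j 2, pow_mul, Real.sq_sqrt (by norm_num)]
  set A₀ : ℝ := 18 * μ ^ 2 * (T₀ + 1) + 6 * β with hA₀
  have hA₀0 : 0 ≤ A₀ := by positivity
  have key : ∀ j : ℕ,
      (∀ s t : ℝ, j * T₀ + 1 ≤ s → s ≤ t → t ≤ j * T₀ + (T₀ + 1) →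
        Real.exp (-(9 * mu j ^ 2 * (t - s) + 6 * β)) * nm (c s) ^ 2 ≤ nm (c t) ^ 2) ∧
      (∀ t : ℝ, 0 ≤ t → t ≤ j * T₀ + (T₀ + 1) →
        Real.exp (-(A₀ * 5 ^ j)) * nm (c 0) ^ 2 ≤ nm (c t) ^ 2) := by
    intro j
    induction j with
    | zero =>
      obtain ⟨C, L, hsol⟩ := hc.sol le_rfl (T₀ + 1)
      have hB := (hw _ _ C L (hv.shift 0) hsol μ hμμ₀).2
      simp only [zero_add] at hB
      have hB' := hB hinit
      have e0 : mu 0 = μ := by simp [hmu]
      constructor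
      · intro s t h1 h2 h3
        simp only [Nat.cast_zero, zero_mul, zero_add] at h1 h3
        rw [e0]
        exact hB' s t (by linarith) h2 h3
      · intro t h1 h2
        simp only [Nat.cast_zero, zero_mul, zero_add] at h2
        refine le_trans ?_ (hB' 0 t le_rfl h1 h2)
        apply mul_le_mul_of_nonneg_right _ (sq_nonneg _)
        apply Real.exp_le_exp.2
        rw [pow_zero, mul_one, sub_zero, hA₀]
        have h3 : 9 * μ ^ 2 * t ≤ 9 * μ ^ 2 * (T₀ + 1) :=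
          mul_le_mul_of_nonneg_left h2 (by positivity)
        have h4 : 0 ≤ 9 * μ ^ 2 * (T₀ + 1) := by positivity
        linarith
    | succ j ih =>
      obtain ⟨ihQ, ihP⟩ := ih
      set τ : ℝ := ((j + 1 : ℕ) : ℝ) * T₀ with hτ
      have hτ' : τ = j * T₀ + T₀ := by rw [hτ]; push_cast; ring
      have hj0 : 0 ≤ (j : ℝ) * T₀ := by positivity
      have hτ0 : 0 ≤ τ := by rw [hτ']; linarith
      obtain ⟨C, L, hsol⟩ := hc.sol hτ0 (T₀ + 1)
      have hA := (hw _ _ C L (hv.shift τ) hsol (mu (j + 1))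
        (hμμ₀.trans (hmu0 (j + 1)))).1
      simp only [add_zero] at hA
      have hpos : 0 < nm (c τ) := by
        have h1 := ihP τ hτ0 (by rw [hτ']; linarith)
        have h2 : 0 < Real.exp (-(A₀ * 5 ^ j)) * nm (c 0) ^ 2 := by positivity
        have h3 : 0 < nm (c τ) ^ 2 := lt_of_lt_of_le h2 h1
        have h4 := nm_nonneg (c τ)
        rcases h4.lt_or_eq with h5 | h5
        · exact h5
        · rw [← h5] at h3
          norm_num at h3
      have hcond : Real.exp (-(2 * mu (j + 1) ^ 2)) * nm (c τ) ^ 2 ≤ nm (c (τ + 1)) ^ 2 := by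
        have h1 := ihQ τ (τ + 1) (by rw [hτ']; linarith) (by linarith) (by rw [hτ']; linarith)
        refine le_trans ?_ h1
        apply mul_le_mul_of_nonneg_right _ (sq_nonneg _)
        apply Real.exp_le_exp.2
        rw [add_sub_cancel_left, mul_one, hmusq, hmusq, pow_succ (5 : ℝ) j]
        have h2 : μ₀ ^ 2 ≤ μ ^ 2 := pow_le_pow_left₀ (by linarith) hμμ₀ 2
        have h3 : (1 : ℝ) ≤ 5 ^ j := one_le_pow₀ (by norm_num)
        have h4 : μ ^ 2 ≤ μ ^ 2 * 5 ^ j := by nlinarith [sq_nonneg μ]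
        nlinarith
      have hA' := hA hpos hcond
      have hQ : ∀ s t : ℝ, τ + 1 ≤ s → s ≤ t → t ≤ τ + (T₀ + 1) →
          Real.exp (-(9 * mu (j + 1) ^ 2 * (t - s) + 6 * β)) * nm (c s) ^ 2 ≤ nm (c t) ^ 2 := by
        intro s t h1 h2 h3
        have h4 := hA' (s - τ) (t - τ) (by linarith) (by linarith) (by linarith)
        have e1 : τ + (s - τ) = s := by ring
        have e2 : τ + (t - τ) = t := by ring
        have e3 : t - τ - (s - τ) = t - s := by ring
        rw [e1, e2, e3] at h4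
        exact h4
      refine ⟨hQ, ?_⟩
      intro t ht1 ht2
      by_cases hle : t ≤ j * T₀ + (T₀ + 1)
      · refine le_trans ?_ (ihP t ht1 hle)
        apply mul_le_mul_of_nonneg_right _ (sq_nonneg _)
        apply Real.exp_le_exp.2
        apply neg_le_neg
        apply mul_le_mul_of_nonneg_left _ hA₀0
        exact pow_le_pow_right₀ (by norm_num) (Nat.le_succ j)
      · push Not at hle
        have h1 := hQ (τ + 1) t le_rfl (by rw [hτ']; linarith) ht2
        have h2 := ihP (τ + 1) (by linarith) (by rw [hτ']; linarith)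
        refine le_trans ?_ h1
        have h3 : Real.exp (-(A₀ * 5 ^ (j + 1))) ≤
            Real.exp (-(9 * mu (j + 1) ^ 2 * (t - (τ + 1)) + 6 * β)) *
              Real.exp (-(A₀ * 5 ^ j)) := by
          rw [← Real.exp_add]
          apply Real.exp_le_exp.2
          have h4 : t - (τ + 1) ≤ T₀ + 1 := by linarith
          have h5 : 9 * mu (j + 1) ^ 2 * (t - (τ + 1)) ≤ 9 * mu (j + 1) ^ 2 * (T₀ + 1) :=
            mul_le_mul_of_nonneg_left h4 (by positivity)
          have h6 : 9 * mu (j + 1) ^ 2 * (T₀ + 1) = 45 * (μ ^ 2 * (T₀ + 1)) * 5 ^ j := by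
            rw [hmusq, pow_succ]
            ring
          have h7 : (1 : ℝ) ≤ 5 ^ j := one_le_pow₀ (by norm_num)
          have h8 : 6 * β ≤ 6 * β * 5 ^ j := by nlinarith
          have h9 : A₀ * 5 ^ (j + 1) = 90 * (μ ^ 2 * (T₀ + 1)) * 5 ^ j + 30 * β * 5 ^ j := by
            rw [hA₀, pow_succ]
            ring
          have h10 : A₀ * 5 ^ j = 18 * (μ ^ 2 * (T₀ + 1)) * 5 ^ j + 6 * β * 5 ^ j := by
            rw [hA₀]
            ring
          have h11 : 0 ≤ (μ ^ 2 * (T₀ + 1)) * 5 ^ j := by positivity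
          have h12 : 0 ≤ β * 5 ^ j := by positivity
          rw [h9, h10]
          linarith
        calc Real.exp (-(A₀ * 5 ^ (j + 1))) * nm (c 0) ^ 2
            ≤ (Real.exp (-(9 * mu (j + 1) ^ 2 * (t - (τ + 1)) + 6 * β)) *
              Real.exp (-(A₀ * 5 ^ j))) * nm (c 0) ^ 2 :=
              mul_le_mul_of_nonneg_right h3 (sq_nonneg _)
          _ = Real.exp (-(9 * mu (j + 1) ^ 2 * (t - (τ + 1)) + 6 * β)) *
              (Real.exp (-(A₀ * 5 ^ j)) * nm (c 0) ^ 2) := by ring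
          _ ≤ _ := mul_le_mul_of_nonneg_left h2 (Real.exp_pos _).le
  refine ⟨A₀ / 2, by positivity, ?_⟩
  intro t ht
  set j : ℕ := ⌊t / T₀⌋₊ with hj
  have hT0 : 0 < T₀ := by linarith
  have hj1 : (j : ℝ) ≤ t / T₀ := Nat.floor_le (by positivity)
  have hj2 : t / T₀ < j + 1 := Nat.lt_floor_add_one _
  have ht2 : t ≤ j * T₀ + (T₀ + 1) := by
    rw [div_lt_iff₀ hT0] at hj2
    linarith
  have h1 := (key j).2 t ht ht2
  have h2 : (5 : ℝ) ^ j ≤ Real.exp (ε * t) := by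
    have e1 : (5 : ℝ) ^ j = Real.exp (Real.log 5 * j) := by
      rw [mul_comm, Real.exp_nat_mul, Real.exp_log (by norm_num)]
    rw [e1]
    apply Real.exp_le_exp.2
    have hl5 : 0 ≤ Real.log 5 := Real.log_nonneg (by norm_num)
    have h3 : Real.log 5 ≤ T₀ * ε := by rwa [div_le_iff₀ hε] at hT2
    have h4 : (j : ℝ) * T₀ ≤ t := by rwa [le_div_iff₀ hT0] at hj1
    calc Real.log 5 * j ≤ T₀ * ε * j := mul_le_mul_of_nonneg_right h3 (Nat.cast_nonneg j)
      _ = ε * (j * T₀) := by ring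
      _ ≤ ε * t := mul_le_mul_of_nonneg_left h4 hε.le
  have h3 : Real.exp (-(A₀ * Real.exp (ε * t))) * nm (c 0) ^ 2 ≤ nm (c t) ^ 2 := by
    refine le_trans ?_ h1
    apply mul_le_mul_of_nonneg_right _ (sq_nonneg _)
    apply Real.exp_le_exp.2
    apply neg_le_neg
    exact mul_le_mul_of_nonneg_left h2 hA₀0
  apply le_of_sq_le_sq _ (nm_nonneg _)
  rw [mul_pow, ← Real.exp_nat_mul]
  refine le_trans (le_of_eq ?_) h3
  congr 2
  push_cast
  ring

end Pool.Agent.DED
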