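import Mathlib

open scoped BigOperators ComplexConjugate

noncomputable section

namespace Pool.Agent.DED

/-- the frequency lattice -/
abbrev K := ℤ × ℤ

/-- square summability -/
def Sq (f : K → ℂ) : Prop := Summable (fun k => ‖f k‖ ^ 2)

/-- the `l^2` norm -/
def nm (f : K → ℂ) : ℝ := Real.sqrt (∑' k, ‖f k‖ ^ 2)

lemma Sq.mem {f : K → ℂ} (hf : Sq f) : Memℓp f 2 := by
  apply memℓp_gen
  have : (fun i => ‖f i‖ ^ (2 : ENNReal).toReal) = fun i => ‖f i‖ ^ 2 := by
    funext i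
    simp
  rw [this]
  exact hf

/-- the element of the Hilbert space given by a square summable function -/
def Sq.toLp {f : K → ℂ} (hf : Sq f) : lp (fun _ : K => ℂ) 2 := ⟨f, hf.mem⟩

lemma Sq.of_lp (f : lp (fun _ : K => ℂ) 2) : Sq (fun k => f k) := by
  have := (memℓp_gen_iff (p := 2) (by simp)).1 f.2
  simpa [Sq] using this

lemma Sq.norm_toLp {f : K → ℂ} (hf : Sq f) : ‖hf.toLp‖ = nm f := by
  rw [lp.norm_eq_tsum_rpow (by simp)]
  simp only [nm, Real.sqrt_eq_rpow]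
  simp [Sq.toLp]

lemma nm_nonneg (f : K → ℂ) : 0 ≤ nm f := Real.sqrt_nonneg _

lemma nm_sq (f : K → ℂ) : nm f ^ 2 = ∑' k, ‖f k‖ ^ 2 :=
  Real.sq_sqrt (tsum_nonneg fun k => by positivity)

lemma Sq.add {f g : K → ℂ} (hf : Sq f) (hg : Sq g) : Sq (fun k => f k + g k) :=
  Sq.of_lp (hf.toLp + hg.toLp)

lemma nm_add_le {f g : K → ℂ} (hf : Sq f) (hg : Sq g) :
    nm (fun k => f k + g k) ≤ nm f + nm g := by
  have h := norm_add_le hf.toLp hg.toLp
  rw [hf.norm_toLp, hg.norm_toLp] at h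
  rw [← (hf.add hg).norm_toLp]
  exact h

lemma Sq.of_le {f g : K → ℂ} (hg : Sq g) (h : ∀ k, ‖f k‖ ≤ ‖g k‖) : Sq f := by
  apply Summable.of_nonneg_of_le (fun k => by positivity) _ hg
  intro k
  exact pow_le_pow_left₀ (norm_nonneg _) (h k) 2

lemma nm_mono {f g : K → ℂ} (hg : Sq g) (h : ∀ k, ‖f k‖ ≤ ‖g k‖) : nm f ≤ nm g := by
  apply Real.sqrt_le_sqrt
  exact Summable.tsum_le_tsum (fun k => pow_le_pow_left₀ (norm_nonneg _) (h k) 2)
    (hg.of_le h) hg

lemma Sq.const_mul {f : K → ℂ} (hf : Sq f) (a : ℂ) : Sq (fun k => a * f k) := by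
  have : (fun k => ‖a * f k‖ ^ 2) = fun k => ‖a‖ ^ 2 * ‖f k‖ ^ 2 := by
    funext k
    rw [norm_mul, mul_pow]
  unfold Sq
  rw [this]
  exact hf.mul_left _

lemma nm_const_mul (f : K → ℂ) (a : ℂ) : nm (fun k => a * f k) = ‖a‖ * nm f := by
  unfold nm
  have : (fun k => ‖a * f k‖ ^ 2) = fun k => ‖a‖ ^ 2 * ‖f k‖ ^ 2 := by
    funext k
    rw [norm_mul, mul_pow]
  rw [this, tsum_mul_left, Real.sqrt_mul (by positivity), Real.sqrt_sq (norm_nonneg _)]

lemma Sq.neg {f : K → ℂ} (hf : Sq f) : Sq (fun k => - f k) := by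
  simpa using hf.const_mul (-1)

lemma nm_neg (f : K → ℂ) : nm (fun k => - f k) = nm f := by
  simp [nm]

lemma Sq.sub {f g : K → ℂ} (hf : Sq f) (hg : Sq g) : Sq (fun k => f k - g k) := by
  simpa [sub_eq_add_neg] using hf.add hg.neg

lemma nm_sub_le {f g : K → ℂ} (hf : Sq f) (hg : Sq g) :
    nm (fun k => f k - g k) ≤ nm f + nm g := by
  have := nm_add_le hf hg.neg
  rw [nm_neg] at this
  simpa [sub_eq_add_neg] using this

lemma nm_le_add_nm_sub {f g : K → ℂ} (hf : Sq f) (hg : Sq g) :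
    nm f ≤ nm (fun k => f k - g k) + nm g := by
  have := nm_add_le (hf.sub hg) hg
  simpa using this

lemma Sq.zero : Sq (fun _ => 0) := by
  simp [Sq, summable_zero]

lemma nm_zero : nm (fun _ => 0) = 0 := by
  simp [nm]

lemma Sq.sum {ι : Type*} (s : Finset ι) {f : ι → K → ℂ} (hf : ∀ i ∈ s, Sq (f i)) :
    Sq (fun k => ∑ i ∈ s, f i k) := by
  classical
  induction s using Finset.induction_on with
  | empty => simpa using Sq.zero
  | insert a s ha ih =>
    have h1 : Sq (f a) := hf a (Finset.mem_insert_self _ _)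
    have h2 := ih (fun i hi => hf i (Finset.mem_insert_of_mem hi))
    have := h1.add h2
    refine this.of_le (fun k => ?_)
    rw [Finset.sum_insert ha]

lemma nm_sum_le {ι : Type*} (s : Finset ι) {f : ι → K → ℂ} (hf : ∀ i ∈ s, Sq (f i)) :
    nm (fun k => ∑ i ∈ s, f i k) ≤ ∑ i ∈ s, nm (f i) := by
  classical
  induction s using Finset.induction_on with
  | empty => simp [nm_zero]
  | insert a s ha ih =>
    have h1 : Sq (f a) := hf a (Finset.mem_insert_self _ _)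
    have h2 := ih (fun i hi => hf i (Finset.mem_insert_of_mem hi))
    have h3 : Sq (fun k => ∑ i ∈ s, f i k) :=
      Sq.sum s (fun i hi => hf i (Finset.mem_insert_of_mem hi))
    have := nm_add_le h1 h3
    rw [Finset.sum_insert ha]
    have he : (fun k => ∑ i ∈ insert a s, f i k) = fun k => f a k + ∑ i ∈ s, f i k := by
      funext k
      rw [Finset.sum_insert ha]
    rw [he]
    linarith

lemma Sq.shift {f : K → ℂ} (hf : Sq f) (m : K) : Sq (fun k => f (k - m)) := by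
  have := (Equiv.subRight m).summable_iff.2 hf
  exact this

lemma nm_shift (f : K → ℂ) (m : K) : nm (fun k => f (k - m)) = nm f := by
  unfold nm
  congr 1
  exact (Equiv.subRight m).tsum_eq (fun k => ‖f k‖ ^ 2)

/-- multiplication by a bounded function -/
lemma Sq.mul_bdd {f : K → ℂ} (hf : Sq f) {a : K → ℂ} {C : ℝ} (ha : ∀ k, ‖a k‖ ≤ C) :
    Sq (fun k => a k * f k) := by
  have hC : 0 ≤ C := le_trans (norm_nonneg _) (ha 0)
  apply (hf.const_mul (C : ℂ)).of_le
  intro k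
  rw [norm_mul, norm_mul]
  gcongr
  rw [Complex.norm_real, Real.norm_eq_abs, abs_of_nonneg hC]
  exact ha k

lemma nm_mul_bdd {f : K → ℂ} (hf : Sq f) {a : K → ℂ} {C : ℝ} (ha : ∀ k, ‖a k‖ ≤ C) :
    nm (fun k => a k * f k) ≤ C * nm f := by
  have hC : 0 ≤ C := le_trans (norm_nonneg _) (ha 0)
  have h1 : nm (fun k => a k * f k) ≤ nm (fun k => (C : ℂ) * f k) := by
    apply nm_mono (hf.const_mul _)
    intro k
    rw [norm_mul, norm_mul]
    gcongr
    rw [Complex.norm_real, Real.norm_eq_abs, abs_of_nonneg hC]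
    exact ha k
  rw [nm_const_mul, Complex.norm_real, Real.norm_eq_abs, abs_of_nonneg hC] at h1
  exact h1

/-- a pointwise bound `‖f‖ ≤ ‖g‖ C` -/
lemma nm_le_mul {f g : K → ℂ} (hg : Sq g) {C : ℝ} (hC : 0 ≤ C)
    (h : ∀ k, ‖f k‖ ≤ C * ‖g k‖) : nm f ≤ C * nm g := by
  have h1 : nm f ≤ nm (fun k => (C : ℂ) * g k) := by
    apply nm_mono (hg.const_mul _)
    intro k
    rw [norm_mul, Complex.norm_real, Real.norm_eq_abs, abs_of_nonneg hC]
    exact h k
  rw [nm_const_mul, Complex.norm_real, Real.norm_eq_abs, abs_of_nonneg hC] at h1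
  exact h1

lemma Sq.of_le_mul {f g : K → ℂ} (hg : Sq g) {C : ℝ}
    (h : ∀ k, ‖f k‖ ≤ C * ‖g k‖) : Sq f := by
  apply (hg.const_mul ((|C| : ℝ) : ℂ)).of_le
  intro k
  rw [norm_mul, Complex.norm_real, Real.norm_eq_abs, abs_abs]
  refine (h k).trans ?_
  gcongr
  exact le_abs_self C

lemma summable_conj_mul {f g : K → ℂ} (hf : Sq f) (hg : Sq g) :
    Summable (fun k => conj (f k) * g k) := by
  have := lp.summable_inner (𝕜 := ℂ) hf.toLp hg.toLp
  refine this.congr (fun k => ?_)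
  simp [Sq.toLp, mul_comm]

lemma norm_tsum_conj_mul_le {f g : K → ℂ} (hf : Sq f) (hg : Sq g) :
    ‖∑' k, conj (f k) * g k‖ ≤ nm f * nm g := by
  have h := norm_inner_le_norm (𝕜 := ℂ) hf.toLp hg.toLp
  rw [hf.norm_toLp, hg.norm_toLp, lp.inner_eq_tsum] at h
  refine le_trans (le_of_eq ?_) h
  congr 1
  apply tsum_congr
  intro k
  simp [Sq.toLp, mul_comm]

lemma summable_mul_norm {f g : K → ℂ} (hf : Sq f) (hg : Sq g) :
    Summable (fun k => ‖f k‖ * ‖g k‖) := by
  have := (summable_conj_mul hf hg).norm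
  refine this.congr (fun k => ?_)
  simp

lemma tsum_mul_norm_le {f g : K → ℂ} (hf : Sq f) (hg : Sq g) :
    ∑' k, ‖f k‖ * ‖g k‖ ≤ nm f * nm g := by
  have hf' : Sq (fun k => ((‖f k‖ : ℝ) : ℂ)) := by
    have h : Summable (fun k => ‖f k‖ ^ 2) := hf
    unfold Sq
    simpa using h
  have hg' : Sq (fun k => ((‖g k‖ : ℝ) : ℂ)) := by
    have h : Summable (fun k => ‖g k‖ ^ 2) := hg
    unfold Sq
    simpa using h
  have h := norm_tsum_conj_mul_le hf' hg'
  have e1 : nm (fun k => ((‖f k‖ : ℝ) : ℂ)) = nm f := by simp [nm]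
  have e2 : nm (fun k => ((‖g k‖ : ℝ) : ℂ)) = nm g := by simp [nm]
  rw [e1, e2] at h
  refine le_trans (le_of_eq ?_) h
  have : (∑' k, conj (((‖f k‖ : ℝ) : ℂ)) * ((‖g k‖ : ℝ) : ℂ)) =
      ((∑' k, ‖f k‖ * ‖g k‖ : ℝ) : ℂ) := by
    rw [Complex.ofReal_tsum]
    apply tsum_congr
    intro k
    simp
  rw [this, Complex.norm_real, Real.norm_eq_abs, abs_of_nonneg]
  exact tsum_nonneg fun k => by positivity

end Pool.Agent.DED
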