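import Pool.Agent.DED.PDE

open scoped BigOperators ComplexConjugate Topology ContDiff
open MeasureTheory Set Filter

noncomputable section

namespace Pool.Agent.DED

lemma periodic2_zero : Periodic2 (fun _ : ℝ × ℝ => ((0 : ℝ), (0 : ℝ))) := fun _ => ⟨rfl, rfl⟩

/-- modification of a velocity field on a null set of times -/
lemma exists_vfield {u : ℝ → ℝ × ℝ → ℝ × ℝ}
    (hm : ∀ x, AEStronglyMeasurable (fun t => u t x) (volume.restrict (Ioi 0)))
    (hs : ∀ᵐ t : ℝ, 0 < t → ContDiff ℝ ∞ (u t) ∧ Periodic2 (u t))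
    (hb : ∀ n : ℕ, ∃ C : ℝ, ∀ᵐ t : ℝ, 0 < t → ∀ x, ‖iteratedFDeriv ℝ n (u t) x‖ ≤ C)
    (hd : ∀ᵐ t : ℝ, 0 < t → ∀ x, (D1 (u t) x).1 + (D2 (u t) x).2 = 0) :
    ∃ u' : ℝ → ℝ × ℝ → ℝ × ℝ, VField u' ∧ ∀ᵐ t : ℝ, 0 < t → u' t = u t := by
  choose C hC using hb
  set d : ℕ → ℝ × ℝ := TopologicalSpace.denseSeq (ℝ × ℝ) with hddef
  have hw : ∀ n, ∀ᵐ t : ℝ, 0 < t → u t (d n) = (hm (d n)).mk _ t := by
    intro n
    have := (hm (d n)).ae_eq_mk
    exact (ae_restrict_iff' measurableSet_Ioi).1 this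
  have hgood : ∀ᵐ t : ℝ, 0 < t → (ContDiff ℝ ∞ (u t) ∧ Periodic2 (u t)) ∧
      (∀ n x, ‖iteratedFDeriv ℝ n (u t) x‖ ≤ C n) ∧
      (∀ x, (D1 (u t) x).1 + (D2 (u t) x).2 = 0) ∧
      ∀ n, u t (d n) = (hm (d n)).mk _ t := by
    filter_upwards [hs, ae_all_iff.2 hC, hd, ae_all_iff.2 hw] with t h1 h2 h3 h4 hpos
    exact ⟨h1 hpos, fun n x => h2 n hpos x, h3 hpos, fun n => h4 n hpos⟩
  set P : ℝ → Prop := fun t => 0 < t → (ContDiff ℝ ∞ (u t) ∧ Periodic2 (u t)) ∧
      (∀ n x, ‖iteratedFDeriv ℝ n (u t) x‖ ≤ C n) ∧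
      (∀ x, (D1 (u t) x).1 + (D2 (u t) x).2 = 0) ∧
      ∀ n, u t (d n) = (hm (d n)).mk _ t with hP
  have hnull : volume {t | ¬ P t} = 0 := ae_iff.1 hgood
  set B : Set ℝ := toMeasurable volume {t | ¬ P t} with hB
  have hBm : MeasurableSet B := measurableSet_toMeasurable _ _
  have hBn : volume B = 0 := by rw [hB, measure_toMeasurable]; exact hnull
  set G : Set ℝ := Ioi 0 \ B with hG
  have hGm : MeasurableSet G := measurableSet_Ioi.diff hBm
  have hGP : ∀ t ∈ G, 0 < t ∧ P t := by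
    intro t ht
    refine ⟨ht.1, ?_⟩
    by_contra hc
    exact ht.2 (subset_toMeasurable _ _ hc)
  classical
  set u' : ℝ → ℝ × ℝ → ℝ × ℝ := fun t => if t ∈ G then u t else fun _ => (0, 0) with hu'
  have hcont : ∀ t, Continuous (u' t) := by
    intro t
    simp only [hu']
    split_ifs with h
    · obtain ⟨hpos, hp⟩ := hGP t h
      exact (hp hpos).1.1.continuous
    · exact continuous_const
  refine ⟨u', ⟨?_, ?_, ?_, ?_, ?_⟩, ?_⟩
  · intro t _
    simp only [hu']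
    split_ifs with h
    · obtain ⟨hpos, hp⟩ := hGP t h
      exact (hp hpos).1.1
    · exact contDiff_const
  · intro t _
    simp only [hu']
    split_ifs with h
    · obtain ⟨hpos, hp⟩ := hGP t h
      exact (hp hpos).1.2
    · exact periodic2_zero
  · intro n
    refine ⟨max (C n) 0, ?_⟩
    intro t _ x
    simp only [hu']
    split_ifs with h
    · obtain ⟨hpos, hp⟩ := hGP t h
      exact ((hp hpos).2.1 n x).trans (le_max_left _ _)
    · have : iteratedFDeriv ℝ n (fun _ : ℝ × ℝ => ((0 : ℝ), (0 : ℝ))) x = 0 := by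
        have := iteratedFDeriv_fun_zero (𝕜 := ℝ) (E := ℝ × ℝ) (F := ℝ × ℝ) (n := n)
        have h2 := congrFun this x
        exact h2
      rw [this, norm_zero]
      exact le_max_right _ _
  · have hdm : ∀ n, Measurable (fun t => u' t (d n)) := by
      intro n
      have h1 : (fun t => u' t (d n)) = G.indicator (fun t => (hm (d n)).mk _ t) := by
        funext t
        simp only [hu', Set.indicator]
        split_ifs with h
        · obtain ⟨hpos, hp⟩ := hGP t h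
          exact (hp hpos).2.2.2 n
        · rfl
      rw [h1]
      exact ((hm (d n)).stronglyMeasurable_mk.measurable).indicator hGm
    intro x
    have hx : x ∈ closure (range d) := TopologicalSpace.denseRange_denseSeq (ℝ × ℝ) x
    obtain ⟨y, hy, hlim⟩ := mem_closure_iff_seq_limit.1 hx
    choose φ hφ using hy
    apply measurable_of_tendsto_metrizable (f := fun k t => u' t (y k))
    · intro k
      rw [← hφ k]
      exact hdm (φ k)
    · rw [tendsto_pi_nhds]
      intro t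
      exact ((hcont t).tendsto x).comp hlim
  · intro t _ x
    simp only [hu']
    split_ifs with h
    · obtain ⟨hpos, hp⟩ := hGP t h
      exact (hp hpos).2.2.1 x
    · unfold D1 D2
      simp
  · have h1 : ∀ᵐ t : ℝ, t ∉ B := by
      rw [ae_iff]
      simpa using hBn
    filter_upwards [h1] with t ht hpos
    simp only [hu']
    rw [if_pos]
    exact ⟨hpos, ht⟩

/-- the main theorem for velocity fields with bounds for almost every time -/
theorem pde_main_ae {u : ℝ → ℝ × ℝ → ℝ × ℝ} {θ : ℝ → ℝ × ℝ → ℝ}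
    (hm : ∀ x, AEStronglyMeasurable (fun t => u t x) (volume.restrict (Ioi 0)))
    (hs : ∀ᵐ t : ℝ, 0 < t → ContDiff ℝ ∞ (u t) ∧ Periodic2 (u t))
    (hb : ∀ n : ℕ, ∃ C : ℝ, ∀ᵐ t : ℝ, 0 < t → ∀ x, ‖iteratedFDeriv ℝ n (u t) x‖ ≤ C)
    (hd : ∀ᵐ t : ℝ, 0 < t → ∀ x, (D1 (u t) x).1 + (D2 (u t) x).2 = 0)
    (h : WeakSol u θ) (h0 : ContDiff ℝ ∞ (θ 0))
    (h0p : Periodic2 (θ 0)) (hne : ∃ x, θ 0 x ≠ 0) {ε : ℝ} (hε : 0 < ε) :
    ∃ A : ℝ, 0 ≤ A ∧ ∀ t : ℝ, 0 ≤ t →
      Real.exp (-(A * Real.exp (ε * t))) * Real.sqrt (∫ x in cell, θ 0 x ^ 2) ≤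
        Real.sqrt (∫ x in cell, θ t x ^ 2) := by
  obtain ⟨u', hu', he⟩ := exists_vfield hm hs hb hd
  have h' : WeakSol u' θ := by
    refine ⟨h.memLp, h.bounded, h.meas, ?_⟩
    intro g hg hp t ht
    rw [h.eqn g hg hp t ht]
    congr 1
    apply intervalIntegral.integral_congr_ae
    filter_upwards [he] with s hs hmem
    rw [uIoc_of_le ht] at hmem
    rw [hs hmem.1]
  exact pde_main hu' h' h0 h0p hne hε

/-- the double exponential upper bound contradicts the lower bound -/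
lemma double_exp_absurd {Nt : ℝ → ℝ} (hN0 : 0 < Nt 0)
    (hlow : ∀ ε : ℝ, 0 < ε → ∃ A : ℝ, 0 ≤ A ∧ ∀ t : ℝ, 0 ≤ t →
      Real.exp (-(A * Real.exp (ε * t))) * Nt 0 ≤ Nt t)
    {C : ℝ} (hC : 0 < C)
    (hup : ∀ t : ℝ, 0 ≤ t → Nt t ≤ C * Real.exp (-(C⁻¹ * Real.exp (C⁻¹ * t))) * Nt 0) : False := by
  obtain ⟨A, hA, hl⟩ := hlow (C⁻¹ / 2) (by positivity)
  set c : ℝ := C⁻¹ with hc
  have hc0 : 0 < c := by positivity
  set y : ℝ := 1 + (A + |Real.log C|) / c with hy
  have hfr : 0 ≤ (A + |Real.log C|) / c := by positivity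
  have hy1 : 1 ≤ y := by linarith
  have hy0 : 0 < y := by linarith
  set t : ℝ := Real.log y / (c / 2) with ht
  have ht0 : 0 ≤ t := div_nonneg (Real.log_nonneg hy1) (by positivity)
  have e1 : c / 2 * t = Real.log y := by rw [ht]; field_simp
  have e2 : Real.exp (c / 2 * t) = y := by rw [e1, Real.exp_log hy0]
  have e3 : Real.exp (c * t) = y ^ 2 := by
    have : c * t = 2 * (c / 2 * t) := by ring
    rw [this, e1, two_mul, Real.exp_add, Real.exp_log hy0, sq]
  have h1 := hl t ht0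
  have h2 := hup t ht0
  rw [e2] at h1
  rw [e3] at h2
  have h3 := h1.trans h2
  have h4 : Real.exp (-(A * y)) ≤ C * Real.exp (-(c * y ^ 2)) := le_of_mul_le_mul_right h3 hN0
  have h5 : Real.exp (-(A * y)) ≤ Real.exp (Real.log C - c * y ^ 2) := by
    rw [sub_eq_add_neg, Real.exp_add, Real.exp_log hC]
    exact h4
  have h6 := Real.exp_le_exp.1 h5
  have h7 : Real.log C ≤ |Real.log C| := le_abs_self _
  have h8 : c * y = c + (A + |Real.log C|) := by rw [hy]; field_simp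
  have h9 : c * y ^ 2 = (c + (A + |Real.log C|)) * y := by rw [← h8]; ring
  have h10 : |Real.log C| ≤ |Real.log C| * y := by
    have := abs_nonneg (Real.log C)
    nlinarith
  have h11 : 0 < c * y := by positivity
  nlinarith

end Pool.Agent.DED
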