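import Pool.Agent.DED.Wt

open scoped BigOperators ComplexConjugate

noncomputable section

namespace Pool.Agent.DED

/-- finite band operator -/
def op (F : Finset K) (b : K → K → ℂ) (ψ : K → ℂ) : K → ℂ :=
  fun k => ∑ m ∈ F, b m (k - m) * ψ (k - m)

/-- the frequency gap -/
def om (m l : K) : ℝ := N (l + m) - N l

lemma om_sub (m k : K) : om m (k - m) = N k - N (k - m) := by
  simp [om]

lemma op_congr {F : Finset K} {b b' : K → K → ℂ} {ψ ψ' : K → ℂ}
    (h : ∀ m ∈ F, ∀ l, b m l * ψ l = b' m l * ψ' l) : op F b ψ = op F b' ψ' := by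
  funext k
  exact Finset.sum_congr rfl fun m hm => h m hm _

/-- general norm bound for band operators -/
lemma op_bound {F : Finset K} {b : K → K → ℂ} {ψ g : K → ℂ} {γ : K → ℝ} (hg : Sq g)
    (hγ : ∀ m ∈ F, 0 ≤ γ m) (h : ∀ m ∈ F, ∀ l, ‖b m l * ψ l‖ ≤ γ m * ‖g l‖) :
    Sq (op F b ψ) ∧ nm (op F b ψ) ≤ (∑ m ∈ F, γ m) * nm g := by
  have h1 : ∀ m ∈ F, Sq (fun l => b m l * ψ l) := fun m hm => hg.of_le_mul (h m hm)
  have h2 : ∀ m ∈ F, Sq (fun k => b m (k - m) * ψ (k - m)) := fun m hm => (h1 m hm).shift m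
  refine ⟨Sq.sum F h2, (nm_sum_le F h2).trans ?_⟩
  rw [Finset.sum_mul]
  apply Finset.sum_le_sum
  intro m hm
  have e : nm (fun k => b m (k - m) * ψ (k - m)) = nm (fun l => b m l * ψ l) :=
    nm_shift (fun l => b m l * ψ l) m
  rw [e]
  exact nm_le_mul hg (hγ m hm) (h m hm)

lemma op_bdd {F : Finset K} {b : K → K → ℂ} {ψ : K → ℂ} {β : K → ℝ} (hψ : Sq ψ)
    (h : ∀ m ∈ F, ∀ l, ‖b m l‖ ≤ β m) :
    Sq (op F b ψ) ∧ nm (op F b ψ) ≤ (∑ m ∈ F, β m) * nm ψ := by
  apply op_bound hψ (fun m hm => le_trans (norm_nonneg _) (h m hm 0))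
  intro m hm l
  rw [norm_mul]
  exact mul_le_mul_of_nonneg_right (h m hm l) (norm_nonneg _)

/-- commutator bound -/
lemma op_comm {F : Finset K} {b z : K → K → ℂ} {ψ : K → ℂ} {κ : K → K → ℝ} (hψ : Sq ψ)
    (h : ∀ m ∈ F, ∀ m' ∈ F, ∀ l, ‖b m (l + m') * z m' l - z m' (l + m) * b m l‖ ≤ κ m m') :
    Sq (fun k => op F b (op F z ψ) k - op F z (op F b ψ) k) ∧
    nm (fun k => op F b (op F z ψ) k - op F z (op F b ψ) k) ≤
      (∑ m ∈ F, ∑ m' ∈ F, κ m m') * nm ψ := by
  have e : (fun k => op F b (op F z ψ) k - op F z (op F b ψ) k) =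
      fun k => ∑ m ∈ F, ∑ m' ∈ F,
        (fun l => (b m (l + m') * z m' l - z m' (l + m) * b m l) * ψ l) (k - (m + m')) := by
    funext k
    have e1 : op F b (op F z ψ) k =
        ∑ m ∈ F, ∑ m' ∈ F, b m (k - m) * (z m' (k - m - m') * ψ (k - m - m')) := by
      unfold op
      apply Finset.sum_congr rfl
      intro m _
      rw [Finset.mul_sum]
    have e2 : op F z (op F b ψ) k =
        ∑ m ∈ F, ∑ m' ∈ F, z m' (k - m') * (b m (k - m' - m) * ψ (k - m' - m)) := by
      unfold op
      rw [Finset.sum_comm]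
      apply Finset.sum_congr rfl
      intro m _
      rw [Finset.mul_sum]
    rw [e1, e2, ← Finset.sum_sub_distrib]
    apply Finset.sum_congr rfl
    intro m _
    rw [← Finset.sum_sub_distrib]
    apply Finset.sum_congr rfl
    intro m' _
    have a1 : k - m - m' = k - (m + m') := by abel
    have a2 : k - m' - m = k - (m + m') := by abel
    have a3 : k - (m + m') + m' = k - m := by abel
    have a4 : k - (m + m') + m = k - m' := by abel
    simp only [a1, a2, a3, a4]
    ring
  rw [e]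
  have h1 : ∀ m ∈ F, ∀ m' ∈ F, Sq (fun l => (b m (l + m') * z m' l - z m' (l + m) * b m l) * ψ l) :=
    fun m hm m' hm' => hψ.mul_bdd (h m hm m' hm')
  have h2 : ∀ m ∈ F, Sq (fun k => ∑ m' ∈ F,
        (fun l => (b m (l + m') * z m' l - z m' (l + m) * b m l) * ψ l) (k - (m + m'))) := by
    intro m hm
    apply Sq.sum F
    intro m' hm'
    exact (h1 m hm m' hm').shift _
  refine ⟨Sq.sum F h2, (nm_sum_le F h2).trans ?_⟩
  rw [Finset.sum_mul]
  apply Finset.sum_le_sum
  intro m hm
  refine (nm_sum_le F (fun m' hm' => (h1 m hm m' hm').shift (m + m'))).trans ?_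
  rw [Finset.sum_mul]
  apply Finset.sum_le_sum
  intro m' hm'
  rw [nm_shift (fun l => (b m (l + m') * z m' l - z m' (l + m) * b m l) * ψ l) (m + m')]
  exact nm_mul_bdd hψ (h m hm m' hm')

/-- the algebraic identity behind one step of the normal form -/
lemma step_identity (F : Finset K) (b z a : K → K → ℂ) (ψ dψ e : K → ℂ) (ε : ℂ)
    (hd : ∀ k, dψ k = -(N k : ℂ) * ψ k + Complex.I * op F z ψ k + e k) (k : K) :
    dψ k - ε * (op F (fun m l => -(om m l : ℂ) * b m l + Complex.I * a m l) ψ k + op F b dψ k) =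
      -(N k : ℂ) * (ψ k - ε * op F b ψ k) +
      Complex.I * op F (fun m l => z m l - ε * a m l) (fun k => ψ k - ε * op F b ψ k) k +
      (e k - ε * op F b e k - ε * Complex.I * (op F b (op F z ψ) k - op F z (op F b ψ) k)
        - ε ^ 2 * Complex.I * op F a (op F b ψ) k) := by
  have e1 : op F b dψ k = - op F (fun m l => (N l : ℂ) * b m l) ψ k +
      Complex.I * op F b (op F z ψ) k + op F b e k := by
    unfold op
    rw [Finset.mul_sum, ← Finset.sum_neg_distrib, ← Finset.sum_add_distrib,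
      ← Finset.sum_add_distrib]
    apply Finset.sum_congr rfl
    intro m _
    rw [hd (k - m)]
    unfold op
    ring
  have e2 : op F (fun m l => -(om m l : ℂ) * b m l + Complex.I * a m l) ψ k =
      - (N k : ℂ) * op F b ψ k + op F (fun m l => (N l : ℂ) * b m l) ψ k +
      Complex.I * op F a ψ k := by
    unfold op
    rw [Finset.mul_sum, Finset.mul_sum, ← Finset.sum_add_distrib, ← Finset.sum_add_distrib]
    apply Finset.sum_congr rfl
    intro m _
    beta_reduce
    rw [om_sub]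
    push_cast
    ring
  have e3 : op F (fun m l => z m l - ε * a m l) (fun k => ψ k - ε * op F b ψ k) k =
      op F z ψ k - ε * op F z (op F b ψ) k - ε * op F a ψ k + ε ^ 2 * op F a (op F b ψ) k := by
    have : ∀ (x y : K → ℂ), op F (fun m l => z m l - ε * a m l) (fun k => x k - ε * y k) k =
      op F z x k - ε * op F z y k - ε * op F a x k + ε ^ 2 * op F a y k := by
      intro x y
      unfold op
      rw [Finset.mul_sum, Finset.mul_sum, Finset.mul_sum, ← Finset.sum_sub_distrib,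
        ← Finset.sum_sub_distrib, ← Finset.sum_add_distrib]
      apply Finset.sum_congr rfl
      intro m _
      ring
    exact this ψ (op F b ψ)
  rw [e1, e2, e3, hd k]
  ring

end Pool.Agent.DED
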