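import Pool.Agent.DED.Scal

open scoped BigOperators ComplexConjugate Topology ContDiff
open MeasureTheory Set Filter

noncomputable section

namespace Pool.Agent.DED

lemma D1_cmul {f : ℝ × ℝ → ℂ} (hf : ContDiff ℝ 1 f) (a : ℂ) (x : ℝ × ℝ) :
    D1 (fun x => a * f x) x = a * D1 f x := by
  have h1 := hasDerivAt_fst (contDiff_const.mul hf : ContDiff ℝ 1 (fun x => a * f x)) x.1 x.2
  have h2 := (hasDerivAt_fst hf x.1 x.2).const_mul a
  exact h1.unique h2

lemma D2_cmul {f : ℝ × ℝ → ℂ} (hf : ContDiff ℝ 1 f) (a : ℂ) (x : ℝ × ℝ) :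
    D2 (fun x => a * f x) x = a * D2 f x := by
  have h1 := hasDerivAt_snd (contDiff_const.mul hf : ContDiff ℝ 1 (fun x => a * f x)) x.1 x.2
  have h2 := (hasDerivAt_snd hf x.1 x.2).const_mul a
  exact h1.unique h2

lemma AC_ex (u : ℝ → ℝ × ℝ → ℝ × ℝ) (k : K) (s : ℝ) (x : ℝ × ℝ) :
    AC u (ex (-k)) s x = -(N k : ℂ) * ex (-k) x +
      Complex.I * ((k.1 : ℂ) * (ex (-k) x * comp P1 u s x) +
        (k.2 : ℂ) * (ex (-k) x * comp P2 u s x)) := by
  have e1 : D1 (ex (-k)) = fun x => Complex.I * ((-k).1 : ℂ) * ex (-k) x := by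
    funext x; exact D1_ex _ x
  have e2 : D2 (ex (-k)) = fun x => Complex.I * ((-k).2 : ℂ) * ex (-k) x := by
    funext x; exact D2_ex _ x
  unfold AC
  rw [e1, e2, D1_cmul (ex_contDiff _), D2_cmul (ex_contDiff _), D1_ex, D2_ex]
  unfold N
  push_cast [Prod.fst_neg, Prod.snd_neg]
  linear_combination ((k.1 : ℂ) ^ 2 + (k.2 : ℂ) ^ 2) * ex (-k) x * Complex.I_sq

section

variable {u : ℝ → ℝ × ℝ → ℝ × ℝ} {θ : ℝ → ℝ × ℝ → ℝ}

lemma memLp_int {f : ℝ × ℝ → ℂ} (hf : MemLp f 2 mu2) {g : ℝ × ℝ → ℂ} (hg : Continuous g) :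
    Integrable (fun x => g x * f x) mu2 :=
  (cont_memLp hg 2).integrable_mul hf

/-- the equation for the coefficients -/
lemma AC_rhs (hu : VField u) (h : WeakSol u θ) (k : K) {s : ℝ} (hs : 0 ≤ s) :
    ∫ x, AC u (ex (-k)) s x * (θ s x : ℂ) ∂mu2 = rhs (vv u) (cc θ) s k := by
  obtain ⟨_, _, hv⟩ := hu.tvel 0
  have hθ := memLp_mu2 (h.memLp s hs)
  have c1 := (comp_smooth hu P1 s).continuous
  have c2 := (comp_smooth hu P2 s).continuous
  have ce : Continuous (ex (-k)) := (ex_contDiff (-k) (n := 1)).continuous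
  have h1 := fc_mul c1 hθ k
  have h2 := fc_mul c2 hθ k
  have h3 := (h1.mul_left (k.1 : ℂ)).add (h2.mul_left (k.2 : ℂ))
  have h4 : cpl (vv u s) (cc θ s) k =
      (k.1 : ℂ) * fc (fun x => comp P1 u s x * (θ s x : ℂ)) k +
      (k.2 : ℂ) * fc (fun x => comp P2 u s x * (θ s x : ℂ)) k := by
    unfold cpl
    rw [← h3.tsum_eq]
    apply tsum_congr
    intro m
    rw [al_shift (hv.vel s)]
    unfold al vv cc
    ring
  have i0 : Integrable (fun x => ex (-k) x * (θ s x : ℂ)) mu2 := memLp_int hθ ce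
  have i1 : Integrable (fun x => ex (-k) x * (comp P1 u s x * (θ s x : ℂ))) mu2 := by
    have := memLp_int hθ (g := fun x => ex (-k) x * comp P1 u s x) (ce.mul c1)
    refine this.congr ?_
    filter_upwards with x
    ring
  have i2 : Integrable (fun x => ex (-k) x * (comp P2 u s x * (θ s x : ℂ))) mu2 := by
    have := memLp_int hθ (g := fun x => ex (-k) x * comp P2 u s x) (ce.mul c2)
    refine this.congr ?_
    filter_upwards with x
    ring
  have h5 : (fun x => AC u (ex (-k)) s x * (θ s x : ℂ)) = fun x =>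
      -(N k : ℂ) * (ex (-k) x * (θ s x : ℂ)) +
      Complex.I * ((k.1 : ℂ) * (ex (-k) x * (comp P1 u s x * (θ s x : ℂ))) +
        (k.2 : ℂ) * (ex (-k) x * (comp P2 u s x * (θ s x : ℂ)))) := by
    funext x
    rw [AC_ex]
    ring
  have j0 : Integrable (fun x => -(N k : ℂ) * (ex (-k) x * (θ s x : ℂ))) mu2 := i0.const_mul _
  have j1 : Integrable (fun x => (k.1 : ℂ) * (ex (-k) x * (comp P1 u s x * (θ s x : ℂ)))) mu2 :=
    i1.const_mul _
  have j2 : Integrable (fun x => (k.2 : ℂ) * (ex (-k) x * (comp P2 u s x * (θ s x : ℂ)))) mu2 :=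
    i2.const_mul _
  have j3 : Integrable (fun x => Complex.I *
      ((k.1 : ℂ) * (ex (-k) x * (comp P1 u s x * (θ s x : ℂ))) +
        (k.2 : ℂ) * (ex (-k) x * (comp P2 u s x * (θ s x : ℂ))))) mu2 :=
    (j1.add j2).const_mul _
  rw [h5, integral_add j0 j3, integral_const_mul, integral_const_mul, integral_add j1 j2,
    integral_const_mul, integral_const_mul]
  unfold rhs
  rw [h4]
  rfl

lemma WeakSol.wsol (hu : VField u) (h : WeakSol u θ) (h0 : ContDiff ℝ ∞ (θ 0))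
    (h0p : Periodic2 (θ 0)) : WSol (vv u) (cc θ) := by
  refine ⟨?_, ?_, ?_, ?_⟩
  · intro T
    obtain ⟨C, hC⟩ := h.bounded T
    refine ⟨Real.sqrt (kap * |C|), Real.sqrt_nonneg _, fun t ht k => ?_⟩
    obtain ⟨h1, h2⟩ := parseval_real (h.memLp t ht.1)
    refine (norm_le_nm h1 k).trans ?_
    apply Real.le_sqrt_of_sq_le
    rw [h2]
    exact mul_le_mul_of_nonneg_left ((hC t ht).trans (le_abs_self C)) kap_pos.le
  · intro n
    have hG : ContDiff ℝ ∞ (fun x => (θ 0 x : ℂ)) := Complex.ofRealCLM.contDiff.comp h0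
    have hp : Periodic2 (fun x => (θ 0 x : ℂ)) := by
      intro x
      beta_reduce
      rw [(h0p x).1, (h0p x).2]
      exact ⟨rfl, rfl⟩
    obtain ⟨C1, h1⟩ := cont_bdd hG.continuous
    obtain ⟨C2, h2⟩ := cont_bdd (hG.continuous_iteratedFDeriv (m := n) (by exact_mod_cast le_top))
    refine ⟨2 ^ n * (|C1| + |C2|), by positivity, fun k => ?_⟩
    apply fc_decay hG hp (by positivity)
    · intro x hx
      have := h1 x hx
      have := le_abs_self C1
      have := abs_nonneg C2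
      linarith
    · intro x hx
      have := h2 x hx
      have := le_abs_self C2
      have := abs_nonneg C1
      linarith
  · intro k t ht
    have h1 := (h.complex hu (ex_contDiff (-k)) (ex_periodic (-k)) ht).1
    apply h1.congr
    rw [uIoc_of_le ht]
    intro s hs
    exact AC_rhs hu h k hs.1.le
  · intro k t ht
    have h1 := (h.complex hu (ex_contDiff (-k)) (ex_periodic (-k)) ht).2
    have h2 : ∫ s in (0 : ℝ)..t, ∫ x, AC u (ex (-k)) s x * (θ s x : ℂ) ∂mu2 =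
        ∫ s in (0 : ℝ)..t, rhs (vv u) (cc θ) s k := by
      apply intervalIntegral.integral_congr
      intro s hs
      rw [uIcc_of_le ht] at hs
      exact AC_rhs hu h k hs.1
    rw [h2] at h1
    exact h1

lemma pos_of_ne {f : ℝ × ℝ → ℝ} (hf : Continuous f) (hp : Periodic2 f) (hne : ∃ x, f x ≠ 0) :
    0 < ∫ x in cell, f x ^ 2 := by
  have hnn : 0 ≤ ∫ x in cell, f x ^ 2 := integral_nonneg fun x => sq_nonneg _
  rcases hnn.lt_or_eq with h | h
  · exact h
  exfalso
  have hi : Integrable (fun x => f x ^ 2) (volume.restrict cell) := by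
    obtain ⟨C, hC⟩ := cont_bdd hf
    apply Integrable.of_bound (C := C ^ 2) (hf.pow 2).aestronglyMeasurable
    filter_upwards [ae_restrict_mem cell_meas] with x hx
    change ‖f x ^ 2‖ ≤ C ^ 2
    rw [norm_pow]
    exact pow_le_pow_left₀ (norm_nonneg _) (hC x hx) 2
  have h1 := (integral_eq_zero_iff_of_nonneg (fun x => sq_nonneg (f x)) hi).1 h.symm
  set O : Set (ℝ × ℝ) := Ioo 0 (2 * Real.pi) ×ˢ Ioo 0 (2 * Real.pi) with hO
  have hOo : IsOpen O := isOpen_Ioo.prod isOpen_Ioo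
  have hOc : O ⊆ cell := prod_mono Ioo_subset_Ioc_self Ioo_subset_Ioc_self
  have h2 : (fun x => f x ^ 2) =ᵐ[volume.restrict O] 0 :=
    ae_mono (Measure.restrict_mono hOc le_rfl) h1
  have h3 := Measure.eqOn_open_of_ae_eq h2 hOo (hf.pow 2).continuousOn continuousOn_const
  have h4 := h3.closure (hf.pow 2) continuous_const
  have hcl : closure O = Icc 0 (2 * Real.pi) ×ˢ Icc 0 (2 * Real.pi) := by
    rw [hO, closure_prod_eq, closure_Ioo Real.two_pi_pos.ne]
  rw [hcl] at h4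
  obtain ⟨x, hx⟩ := hne
  apply hx
  have p1 : Function.Periodic (fun s => f (s, x.2)) (2 * Real.pi) := fun s => (hp (s, x.2)).1
  obtain ⟨y1, hy1, e1⟩ := p1.exists_mem_Ico₀ Real.two_pi_pos x.1
  have p2 : Function.Periodic (fun s => f (y1, s)) (2 * Real.pi) := fun s => (hp (y1, s)).2
  obtain ⟨y2, hy2, e2⟩ := p2.exists_mem_Ico₀ Real.two_pi_pos x.2
  have e3 : f x = f (y1, y2) := by
    have : f x = f (x.1, x.2) := rfl
    rw [this]
    exact e1.trans e2
  rw [e3]
  have h5 := h4 (show (y1, y2) ∈ Icc 0 (2 * Real.pi) ×ˢ Icc 0 (2 * Real.pi) from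
    ⟨⟨hy1.1, hy1.2.le⟩, ⟨hy2.1, hy2.2.le⟩⟩)
  have h6 : f (y1, y2) ^ 2 = 0 := h5
  exact pow_eq_zero_iff (two_ne_zero) |>.1 h6

/-- the main theorem in physical space -/
theorem pde_main (hu : VField u) (h : WeakSol u θ) (h0 : ContDiff ℝ ∞ (θ 0))
    (h0p : Periodic2 (θ 0)) (hne : ∃ x, θ 0 x ≠ 0) {ε : ℝ} (hε : 0 < ε) :
    ∃ A : ℝ, 0 ≤ A ∧ ∀ t : ℝ, 0 ≤ t →
      Real.exp (-(A * Real.exp (ε * t))) * Real.sqrt (∫ x in cell, θ 0 x ^ 2) ≤
        Real.sqrt (∫ x in cell, θ t x ^ 2) := by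
  obtain ⟨C, hC, hv⟩ := hu.tvel 20
  have hw := h.wsol hu h0 h0p
  have hS : ∀ a ≤ 14, Summable (fun m => C / ws m ^ 20 * ws m ^ a) := by
    intro a ha
    have h1 : Summable (fun m : K => C * (1 / ws m ^ (20 - a))) :=
      (summable_ws (by omega)).mul_left C
    refine h1.congr ?_
    intro m
    have hm := ws_pos m
    have e : ws m ^ 20 = ws m ^ (20 - a) * ws m ^ a := by
      rw [← pow_add]
      congr 1
      omega
    rw [e]
    field_simp
  have hg := hw.gsol hv hS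
  have hpos : 0 < nm (cc θ 0) := by
    obtain ⟨h1, h2⟩ := parseval_real (h.memLp 0 le_rfl)
    have h3 := pos_of_ne h0.continuous h0p hne
    have h4 : 0 < nm (cc θ 0) ^ 2 := by
      have : nm (cc θ 0) ^ 2 = kap * ∫ x in cell, θ 0 x ^ 2 := h2
      rw [this]
      exact mul_pos kap_pos h3
    have h5 := nm_nonneg (cc θ 0)
    rcases h5.lt_or_eq with h6 | h6
    · exact h6
    · rw [← h6] at h4
      norm_num at h4
  have hU0 : ∀ m : K, 0 ≤ C / ws m ^ 20 := fun m => by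
    have := ws_pos m
    positivity
  have hU : Summable (fun m : K => C / ws m ^ 20) := by
    have := hS 0 (by norm_num)
    simpa using this
  have hU1 : Summable (fun m : K => eu m * (C / ws m ^ 20)) := by
    have h2 := hS 2 (by norm_num)
    apply Summable.of_nonneg_of_le (fun m => mul_nonneg (eu_nonneg m) (hU0 m)) (fun m => ?_) h2
    rw [mul_comm]
    apply mul_le_mul_of_nonneg_left _ (hU0 m)
    exact (eu_le_wt m).trans (wt_le_ws m)
  obtain ⟨A, hA, hb⟩ := seq_main hU0 hU hU1 hv hg hpos hε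
  refine ⟨A, hA, fun t ht => ?_⟩
  have key : ∀ t, 0 ≤ t → Real.sqrt (∫ x in cell, θ t x ^ 2) = Real.sqrt (1 / kap) * nm (cc θ t) := by
    intro t ht
    have h2 : nm (cc θ t) ^ 2 = kap * ∫ x in cell, θ t x ^ 2 := (parseval_real (h.memLp t ht)).2
    have hk := kap_pos
    have h3 : ∫ x in cell, θ t x ^ 2 = 1 / kap * nm (cc θ t) ^ 2 := by
      rw [h2]
      field_simp
    rw [h3, Real.sqrt_mul (by positivity), Real.sqrt_sq (nm_nonneg _)]
  rw [key 0 le_rfl, key t ht]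
  have h1 := mul_le_mul_of_nonneg_left (hb t ht) (Real.sqrt_nonneg (1 / kap))
  calc _ = Real.sqrt (1 / kap) * (Real.exp (-(A * Real.exp (ε * t))) * nm (cc θ 0)) := by ring
    _ ≤ _ := h1

end

end Pool.Agent.DED
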