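import Pool.Agent.DED.Tail

open scoped BigOperators ComplexConjugate
open MeasureTheory Set

noncomputable section

namespace Pool.Agent.DED

/-- uniform decay of order six -/
def Dec (I : Set ℝ) (c : ℝ → K → ℂ) (C : ℝ) : Prop :=
  ∀ t ∈ I, ∀ k, ‖c t k‖ ≤ C / wt k ^ 6

/-- uniform Lipschitz bound in time, with decay -/
def DLip (I : Set ℝ) (c : ℝ → K → ℂ) (L : ℝ) : Prop :=
  ∀ s ∈ I, ∀ t ∈ I, ∀ k, ‖c t k - c s k‖ ≤ L * |t - s| / wt k ^ 6

variable {I : Set ℝ} {c : ℝ → K → ℂ} {F : Finset K} {b : ℝ → K → K → ℂ} {ε : ℝ}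
  {βm Lm : K → ℝ}

lemma wt_ratio (k m : K) (x : ℝ) (hx : 0 ≤ x) : x / wt (k - m) ^ 6 ≤ wt m ^ 6 * x / wt k ^ 6 := by
  have h1 := wt_pos k
  have h2 := wt_pos m
  have h3 := wt_pos (k - m)
  rw [div_le_div_iff₀ (by positivity) (by positivity)]
  have h4 : wt k ^ 6 ≤ (wt (k - m) * wt m) ^ 6 := pow_le_pow_left₀ h1.le (wt_le_sub k m) 6
  rw [mul_pow] at h4
  nlinarith

lemma op_dec {C : ℝ} (hC : 0 ≤ C) (hc : Dec I c C)
    (hb : ∀ t ∈ I, ∀ m ∈ F, ∀ l, ‖b t m l‖ ≤ βm m) :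
    Dec I (fun t => op F (b t) (c t)) ((∑ m ∈ F, βm m * wt m ^ 6) * C) := by
  intro t ht k
  unfold op
  refine (norm_sum_le _ _).trans ?_
  rw [Finset.sum_mul, Finset.sum_div]
  apply Finset.sum_le_sum
  intro m hm
  have hβ : 0 ≤ βm m := le_trans (norm_nonneg _) (hb t ht m hm 0)
  rw [norm_mul]
  calc ‖b t m (k - m)‖ * ‖c t (k - m)‖ ≤ βm m * (C / wt (k - m) ^ 6) :=
        mul_le_mul (hb t ht m hm _) (hc t ht _) (norm_nonneg _) hβ
    _ ≤ βm m * (wt m ^ 6 * C / wt k ^ 6) :=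
        mul_le_mul_of_nonneg_left (wt_ratio k m C hC) hβ
    _ = _ := by ring

lemma op_dlip {C L : ℝ} (hC : 0 ≤ C) (hL : 0 ≤ L) (hc : Dec I c C) (hl : DLip I c L)
    (hb : ∀ t ∈ I, ∀ m ∈ F, ∀ l, ‖b t m l‖ ≤ βm m)
    (hbl : ∀ s ∈ I, ∀ t ∈ I, ∀ m ∈ F, ∀ l, ‖b t m l - b s m l‖ ≤ Lm m * |t - s|)
    (hLm : ∀ m, 0 ≤ Lm m) :
    DLip I (fun t => op F (b t) (c t))
      (∑ m ∈ F, (Lm m * C + βm m * L) * wt m ^ 6) := by
  intro s hs t ht k
  have e : op F (b t) (c t) k - op F (b s) (c s) k =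
      ∑ m ∈ F, ((b t m (k - m) - b s m (k - m)) * c t (k - m) +
        b s m (k - m) * (c t (k - m) - c s (k - m))) := by
    unfold op
    rw [← Finset.sum_sub_distrib]
    apply Finset.sum_congr rfl
    intro m _
    ring
  rw [e]
  refine (norm_sum_le _ _).trans ?_
  rw [Finset.sum_mul, Finset.sum_div]
  apply Finset.sum_le_sum
  intro m hm
  have hβ : 0 ≤ βm m := le_trans (norm_nonneg _) (hb t ht m hm 0)
  have hts : 0 ≤ |t - s| := abs_nonneg _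
  refine (norm_add_le _ _).trans ?_
  rw [norm_mul, norm_mul]
  have h1 : ‖b t m (k - m) - b s m (k - m)‖ * ‖c t (k - m)‖ ≤
      (Lm m * |t - s|) * (wt m ^ 6 * C / wt k ^ 6) := by
    apply mul_le_mul (hbl s hs t ht m hm _) _ (norm_nonneg _) (mul_nonneg (hLm m) hts)
    exact (hc t ht _).trans (wt_ratio k m C hC)
  have h2 : ‖b s m (k - m)‖ * ‖c t (k - m) - c s (k - m)‖ ≤
      βm m * (wt m ^ 6 * (L * |t - s|) / wt k ^ 6) := by
    apply mul_le_mul (hb s hs m hm _) _ (norm_nonneg _) hβ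
    exact (hl s hs t ht _).trans (wt_ratio k m _ (by positivity))
  calc _ ≤ _ := add_le_add h1 h2
    _ = _ := by ring

lemma psi_dec {C : ℝ} (hC : 0 ≤ C) (hc : Dec I c C)
    (hb : ∀ t ∈ I, ∀ m ∈ F, ∀ l, ‖b t m l‖ ≤ βm m) (hβ : ∀ m, 0 ≤ βm m) (j : ℕ) :
    ∃ C', 0 ≤ C' ∧ Dec I (fun t => psi F (b t) ε (c t) j) C' := by
  induction j with
  | zero => exact ⟨C, hC, hc⟩
  | succ j ih =>
    obtain ⟨C', hC', h⟩ := ih
    have h1 := op_dec hC' h hb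
    have hS : 0 ≤ ∑ m ∈ F, βm m * wt m ^ 6 :=
      Finset.sum_nonneg fun m _ => mul_nonneg (hβ m) (by have := wt_pos m; positivity)
    refine ⟨C' + |ε| * ((∑ m ∈ F, βm m * wt m ^ 6) * C'), by positivity, ?_⟩
    intro t ht k
    beta_reduce
    rw [psi_succ]
    refine (norm_sub_le _ _).trans ?_
    rw [norm_mul, Complex.norm_real, Real.norm_eq_abs, add_div, mul_div_assoc]
    apply add_le_add (h t ht k)
    exact mul_le_mul_of_nonneg_left (h1 t ht k) (abs_nonneg _)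

lemma psi_dlip {C L : ℝ} (hC : 0 ≤ C) (hL : 0 ≤ L) (hc : Dec I c C) (hl : DLip I c L)
    (hb : ∀ t ∈ I, ∀ m ∈ F, ∀ l, ‖b t m l‖ ≤ βm m) (hβ : ∀ m, 0 ≤ βm m)
    (hbl : ∀ s ∈ I, ∀ t ∈ I, ∀ m ∈ F, ∀ l, ‖b t m l - b s m l‖ ≤ Lm m * |t - s|)
    (hLm : ∀ m, 0 ≤ Lm m) (j : ℕ) :
    ∃ L', 0 ≤ L' ∧ DLip I (fun t => psi F (b t) ε (c t) j) L' := by
  induction j with
  | zero => exact ⟨L, hL, hl⟩
  | succ j ih =>
    obtain ⟨L', hL', h⟩ := ih
    obtain ⟨C', hC', h'⟩ := psi_dec (ε := ε) hC hc hb hβ j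
    have h1 := op_dlip hC' hL' h' h hb hbl hLm
    have hS : 0 ≤ ∑ m ∈ F, (Lm m * C' + βm m * L') * wt m ^ 6 :=
      Finset.sum_nonneg fun m _ => by
        have := hLm m
        have := hβ m
        have := wt_pos m
        positivity
    refine ⟨L' + |ε| * (∑ m ∈ F, (Lm m * C' + βm m * L') * wt m ^ 6), by positivity, ?_⟩
    intro s hs t ht k
    have e : psi F (b t) ε (c t) (j + 1) k - psi F (b s) ε (c s) (j + 1) k =
        (psi F (b t) ε (c t) j k - psi F (b s) ε (c s) j k) -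
        (ε : ℂ) * (op F (b t) (psi F (b t) ε (c t) j) k -
          op F (b s) (psi F (b s) ε (c s) j) k) := by
      rw [psi_succ, psi_succ]
      ring
    beta_reduce
    rw [e]
    refine (norm_sub_le _ _).trans ?_
    rw [norm_mul, Complex.norm_real, Real.norm_eq_abs, add_mul, add_div, mul_assoc |ε|,
      mul_div_assoc |ε|]
    apply add_le_add (h s hs t ht k)
    exact mul_le_mul_of_nonneg_left (h1 s hs t ht k) (abs_nonneg _)

/-- square summability from decay -/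
lemma Dec.sq {C : ℝ} (hc : Dec I c C) {t : ℝ} (ht : t ∈ I) : Sq (c t) :=
  Sq.of_decay (by norm_num) (hc t ht)

lemma decay_weight {f : K → ℂ} {C : ℝ} (hC : 0 ≤ C) (h : ∀ k, ‖f k‖ ≤ C / wt k ^ 6)
    {w : K → ℝ} {Cw : ℝ} (hCw : 0 ≤ Cw) (hw : ∀ k, |w k| ≤ Cw * wt k ^ 2) (k : K) :
    ‖((w k : ℝ) : ℂ) * f k‖ ≤ Cw * C / wt k ^ 4 := by
  have h1 := wt_pos k
  rw [norm_mul, Complex.norm_real, Real.norm_eq_abs]
  calc |w k| * ‖f k‖ ≤ (Cw * wt k ^ 2) * (C / wt k ^ 6) :=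
        mul_le_mul (hw k) (h k) (norm_nonneg _) (by positivity)
    _ = _ := by field_simp

lemma Dec.gr_sq {C : ℝ} (hC : 0 ≤ C) (hc : Dec I c C) {t : ℝ} (ht : t ∈ I) : Sq (gr (c t)) := by
  apply Sq.of_decay (p := 4) (C := 1 * C) (by norm_num)
  intro k
  apply decay_weight hC (hc t ht) zero_le_one
  intro k
  rw [abs_of_nonneg (eu_nonneg k), one_mul]
  refine (eu_le_wt k).trans ?_
  have := wt_ge_one k
  nlinarith

end Pool.Agent.DED
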