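import Pool.Agent.DED.Vel

open scoped BigOperators ComplexConjugate Topology ContDiff
open MeasureTheory Set Filter

noncomputable section

namespace Pool.Agent.DED

/-- the normalising constant -/
def kap : ℝ := 1 / (2 * Real.pi) ^ 2

lemma kap_pos : 0 < kap := by unfold kap; positivity

/-- weak solutions of the transport diffusion equation -/
structure WeakSol (u : ℝ → ℝ × ℝ → ℝ × ℝ) (θ : ℝ → ℝ × ℝ → ℝ) : Prop where
  memLp : ∀ t, 0 ≤ t → MemLp (θ t) 2 (volume.restrict cell)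
  bounded : ∀ T : ℝ, ∃ C, ∀ t ∈ Icc 0 T, ∫ x in cell, (θ t x) ^ 2 ≤ C
  meas : ∀ g : ℝ × ℝ → ℝ, ContDiff ℝ ∞ g → Periodic2 g →
    AEStronglyMeasurable (fun t => ∫ x in cell, θ t x * g x) (volume.restrict (Ioi 0))
  eqn : ∀ g : ℝ × ℝ → ℝ, ContDiff ℝ ∞ g → Periodic2 g → ∀ t, 0 ≤ t →
    ∫ x in cell, θ t x * g x = (∫ x in cell, θ 0 x * g x) +
      ∫ s in (0 : ℝ)..t, ∫ x in cell, θ s x *
        (D1 (D1 g) x + D2 (D2 g) x - ((u s x).1 * D1 g x + (u s x).2 * D2 g x))

lemma int_mu2 (f : ℝ × ℝ → ℂ) : ∫ x, f x ∂mu2 = ((kap : ℝ) : ℂ) * ∫ x in cell, f x := by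
  rw [mu2_eq, integral_smul_measure, ENNReal.toReal_ofReal (by positivity)]
  rfl

lemma int_mu2_real (f : ℝ × ℝ → ℝ) : ∫ x, f x ∂mu2 = kap * ∫ x in cell, f x := by
  rw [mu2_eq, integral_smul_measure, ENNReal.toReal_ofReal (by positivity)]
  rfl

lemma cell_meas : MeasurableSet cell := measurableSet_Ioc.prod measurableSet_Ioc

instance : IsFiniteMeasure (volume.restrict cell) := by
  constructor
  rw [Measure.restrict_apply_univ]
  apply lt_of_le_of_lt (measure_mono cell_subset)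
  exact (isCompact_Icc.prod isCompact_Icc).measure_lt_top

lemma cell_int {θ g : ℝ × ℝ → ℝ} (hθ : MemLp θ 2 (volume.restrict cell)) (hg : Continuous g) :
    Integrable (fun x => θ x * g x) (volume.restrict cell) := by
  obtain ⟨C, hC⟩ := cont_bdd hg
  have h1 : MemLp g 2 (volume.restrict cell) := by
    apply MemLp.of_bound hg.aestronglyMeasurable C
    filter_upwards [ae_restrict_mem cell_meas] with x hx
    exact hC x hx
  exact hθ.integrable_mul h1

lemma memLp_mu2 {θ : ℝ × ℝ → ℝ} (hθ : MemLp θ 2 (volume.restrict cell)) :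
    MemLp (fun x => (θ x : ℂ)) 2 mu2 := by
  rw [mu2_eq]
  exact (hθ.ofReal (K := ℂ)).smul_measure ENNReal.ofReal_ne_top

lemma int_test {θ : ℝ × ℝ → ℝ} (hθ : MemLp θ 2 (volume.restrict cell)) {G : ℝ × ℝ → ℂ}
    (hG : Continuous G) :
    ∫ x, G x * (θ x : ℂ) ∂mu2 = ((kap : ℝ) : ℂ) *
      (((∫ x in cell, θ x * (G x).re : ℝ) : ℂ) +
        Complex.I * ((∫ x in cell, θ x * (G x).im : ℝ) : ℂ)) := by
  rw [int_mu2]
  congr 1
  have h1 : Integrable (fun x => ((θ x * (G x).re : ℝ) : ℂ)) (volume.restrict cell) :=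
    (cell_int hθ (Complex.continuous_re.comp hG)).ofReal
  have h2 : Integrable (fun x => ((θ x * (G x).im : ℝ) : ℂ)) (volume.restrict cell) :=
    (cell_int hθ (Complex.continuous_im.comp hG)).ofReal
  have h3 : ∀ x, G x * (θ x : ℂ) = ((θ x * (G x).re : ℝ) : ℂ) +
      Complex.I * ((θ x * (G x).im : ℝ) : ℂ) := by
    intro x
    conv_lhs => rw [← Complex.re_add_im (G x)]
    push_cast
    ring
  simp only [h3]
  rw [integral_add h1 (h2.const_mul _), integral_const_mul, integral_complex_ofReal,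
    integral_complex_ofReal]

/-- Parseval for a real square integrable function -/
lemma parseval_real {θ : ℝ × ℝ → ℝ} (hθ : MemLp θ 2 (volume.restrict cell)) :
    Sq (fc (fun x => (θ x : ℂ))) ∧
    nm (fc (fun x => (θ x : ℂ))) ^ 2 = kap * ∫ x in cell, θ x ^ 2 := by
  have h := Complex.hasSum_re (parseval (memLp_mu2 hθ) (memLp_mu2 hθ))
  have e1 : ∀ z : ℂ, (conj z * z).re = ‖z‖ ^ 2 := by
    intro z
    rw [← Complex.normSq_eq_conj_mul_self, Complex.ofReal_re, Complex.normSq_eq_norm_sq]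
  have e2 : (∫ x, conj ((θ x : ℂ)) * (θ x : ℂ) ∂mu2) = ((kap * ∫ x in cell, θ x ^ 2 : ℝ) : ℂ) := by
    rw [int_mu2]
    push_cast
    congr 1
    rw [← integral_complex_ofReal]
    apply integral_congr_ae
    filter_upwards with x
    rw [Complex.conj_ofReal]
    push_cast
    ring
  rw [e2, Complex.ofReal_re] at h
  simp only [e1] at h
  refine ⟨h.summable, ?_⟩
  rw [nm_sq, h.tsum_eq]

lemma pair_bound {θ : ℝ × ℝ → ℝ} (hθ : MemLp θ 2 (volume.restrict cell)) {B : ℝ × ℝ → ℂ} {C : ℝ}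
    (hC : 0 ≤ C) (hB : ∀ x ∈ cell, ‖B x‖ ≤ C) :
    ‖∫ x, B x * (θ x : ℂ) ∂mu2‖ ≤ C * (1 + kap * ∫ x in cell, θ x ^ 2) := by
  have hsq : Integrable (fun x => θ x ^ 2) (volume.restrict cell) := hθ.integrable_sq
  have hsq' : Integrable (fun x => θ x ^ 2) mu2 := by
    rw [mu2_eq]
    exact hsq.smul_measure ENNReal.ofReal_ne_top
  have h1 : Integrable (fun x => C * (1 + θ x ^ 2)) mu2 :=
    ((integrable_const 1).add hsq').const_mul C
  have h2 : ‖∫ x, B x * (θ x : ℂ) ∂mu2‖ ≤ ∫ x, C * (1 + θ x ^ 2) ∂mu2 := by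
    apply norm_integral_le_of_norm_le h1
    filter_upwards [mu2_ae] with x hx
    rw [norm_mul, Complex.norm_real, Real.norm_eq_abs]
    apply mul_le_mul (hB x hx) _ (abs_nonneg _) hC
    have := sq_nonneg (|θ x| - 1)
    have e := sq_abs (θ x)
    nlinarith
  refine h2.trans (le_of_eq ?_)
  rw [integral_const_mul, integral_add (integrable_const 1) hsq',
    int_mu2_real (fun x => θ x ^ 2)]
  simp

/-- Fourier coefficients of the scalar -/
def cc (θ : ℝ → ℝ × ℝ → ℝ) (t : ℝ) (k : K) : ℂ := fc (fun x => (θ t x : ℂ)) k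

lemma D1_re {G : ℝ × ℝ → ℂ} (hG : ContDiff ℝ ∞ G) : D1 (fun x => (G x).re) = fun x => (D1 G x).re := by
  funext x
  have h1 : DifferentiableAt ℝ G x := hG.differentiable (by simp) x
  have h2 : fderiv ℝ (fun x => (G x).re) x = Complex.reCLM.comp (fderiv ℝ G x) :=
    (Complex.reCLM.hasFDerivAt.comp x h1.hasFDerivAt).fderiv
  unfold D1
  rw [h2]
  rfl

lemma D1_im {G : ℝ × ℝ → ℂ} (hG : ContDiff ℝ ∞ G) : D1 (fun x => (G x).im) = fun x => (D1 G x).im := by
  funext x
  have h1 : DifferentiableAt ℝ G x := hG.differentiable (by simp) x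
  have h2 : fderiv ℝ (fun x => (G x).im) x = Complex.imCLM.comp (fderiv ℝ G x) :=
    (Complex.imCLM.hasFDerivAt.comp x h1.hasFDerivAt).fderiv
  unfold D1
  rw [h2]
  rfl

lemma D2_re {G : ℝ × ℝ → ℂ} (hG : ContDiff ℝ ∞ G) : D2 (fun x => (G x).re) = fun x => (D2 G x).re := by
  funext x
  have h1 : DifferentiableAt ℝ G x := hG.differentiable (by simp) x
  have h2 : fderiv ℝ (fun x => (G x).re) x = Complex.reCLM.comp (fderiv ℝ G x) :=
    (Complex.reCLM.hasFDerivAt.comp x h1.hasFDerivAt).fderiv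
  unfold D2
  rw [h2]
  rfl

lemma D2_im {G : ℝ × ℝ → ℂ} (hG : ContDiff ℝ ∞ G) : D2 (fun x => (G x).im) = fun x => (D2 G x).im := by
  funext x
  have h1 : DifferentiableAt ℝ G x := hG.differentiable (by simp) x
  have h2 : fderiv ℝ (fun x => (G x).im) x = Complex.imCLM.comp (fderiv ℝ G x) :=
    (Complex.imCLM.hasFDerivAt.comp x h1.hasFDerivAt).fderiv
  unfold D2
  rw [h2]
  rfl

/-- the adjoint operator applied to a complex test function -/
def AC (u : ℝ → ℝ × ℝ → ℝ × ℝ) (G : ℝ × ℝ → ℂ) (s : ℝ) (x : ℝ × ℝ) : ℂ :=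
  D1 (D1 G) x + D2 (D2 G) x - (comp P1 u s x * D1 G x + comp P2 u s x * D2 G x)

section

variable {u : ℝ → ℝ × ℝ → ℝ × ℝ} {θ : ℝ → ℝ × ℝ → ℝ}

lemma AC_cont (hu : VField u) {G : ℝ × ℝ → ℂ} (hG : ContDiff ℝ ∞ G) (s : ℝ) :
    Continuous (AC u G s) := by
  have h1 := (D1_smooth hG).continuous
  have h2 := (D2_smooth hG).continuous
  have h3 := (D1_smooth (D1_smooth hG)).continuous
  have h4 := (D2_smooth (D2_smooth hG)).continuous
  have h5 := (comp_smooth hu P1 s).continuous
  have h6 := (comp_smooth hu P2 s).continuous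
  unfold AC
  fun_prop

lemma AC_meas (hu : VField u) {G : ℝ × ℝ → ℂ} (hG : ContDiff ℝ ∞ G) :
    Measurable (Function.uncurry (AC u G)) := by
  have h1 := (D1_smooth hG).continuous.measurable
  have h2 := (D2_smooth hG).continuous.measurable
  have h3 := (D1_smooth (D1_smooth hG)).continuous.measurable
  have h4 := (D2_smooth (D2_smooth hG)).continuous.measurable
  have h5 := comp_meas hu P1
  have h6 := comp_meas hu P2
  exact ((h3.comp measurable_snd).add (h4.comp measurable_snd)).sub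
    ((h5.mul (h1.comp measurable_snd)).add (h6.mul (h2.comp measurable_snd)))

lemma AC_bound (hu : VField u) {G : ℝ × ℝ → ℂ} (hG : ContDiff ℝ ∞ G) :
    ∃ C, 0 ≤ C ∧ ∀ s, ∀ x ∈ cell, ‖AC u G s x‖ ≤ C := by
  obtain ⟨Cu, hCu, hu0⟩ := comp_bound hu 0
  obtain ⟨C1, h1⟩ := cont_bdd (D1_smooth hG).continuous
  obtain ⟨C2, h2⟩ := cont_bdd (D2_smooth hG).continuous
  obtain ⟨C3, h3⟩ := cont_bdd (D1_smooth (D1_smooth hG)).continuous
  obtain ⟨C4, h4⟩ := cont_bdd (D2_smooth (D2_smooth hG)).continuous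
  refine ⟨|C3| + |C4| + (Cu * |C1| + Cu * |C2|), by positivity, ?_⟩
  intro s x hx
  unfold AC
  refine (norm_sub_le _ _).trans ?_
  apply add_le_add
  · refine (norm_add_le _ _).trans ?_
    exact add_le_add ((h3 x hx).trans (le_abs_self _)) ((h4 x hx).trans (le_abs_self _))
  · refine (norm_add_le _ _).trans ?_
    rw [norm_mul, norm_mul]
    have a1 := hu0 P1 P1_norm s x
    have a2 := hu0 P2 P2_norm s x
    rw [norm_iteratedFDeriv_zero] at a1 a2
    exact add_le_add
      (mul_le_mul a1 ((h1 x hx).trans (le_abs_self _)) (norm_nonneg _) hCu)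
      (mul_le_mul a2 ((h2 x hx).trans (le_abs_self _)) (norm_nonneg _) hCu)

lemma re_smooth {G : ℝ × ℝ → ℂ} (hG : ContDiff ℝ ∞ G) : ContDiff ℝ ∞ (fun x => (G x).re) :=
  Complex.reCLM.contDiff.comp hG

lemma im_smooth {G : ℝ × ℝ → ℂ} (hG : ContDiff ℝ ∞ G) : ContDiff ℝ ∞ (fun x => (G x).im) :=
  Complex.imCLM.contDiff.comp hG

lemma re_periodic {G : ℝ × ℝ → ℂ} (hG : Periodic2 G) : Periodic2 (fun x => (G x).re) := by
  intro x
  beta_reduce
  rw [(hG x).1, (hG x).2]
  exact ⟨rfl, rfl⟩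

lemma im_periodic {G : ℝ × ℝ → ℂ} (hG : Periodic2 G) : Periodic2 (fun x => (G x).im) := by
  intro x
  beta_reduce
  rw [(hG x).1, (hG x).2]
  exact ⟨rfl, rfl⟩

lemma AC_re {G : ℝ × ℝ → ℂ} (hG : ContDiff ℝ ∞ G) {s : ℝ} (hs : 0 ≤ s) (x : ℝ × ℝ) :
    (AC u G s x).re = D1 (D1 (fun x => (G x).re)) x + D2 (D2 (fun x => (G x).re)) x -
      ((u s x).1 * D1 (fun x => (G x).re) x + (u s x).2 * D2 (fun x => (G x).re) x) := by
  rw [D1_re hG, D2_re hG, D1_re (D1_smooth hG), D2_re (D2_smooth hG)]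
  unfold AC comp
  rw [max_eq_left hs, P1_apply, P2_apply]
  simp only [Complex.sub_re, Complex.add_re, Complex.re_ofReal_mul]

lemma AC_im {G : ℝ × ℝ → ℂ} (hG : ContDiff ℝ ∞ G) {s : ℝ} (hs : 0 ≤ s) (x : ℝ × ℝ) :
    (AC u G s x).im = D1 (D1 (fun x => (G x).im)) x + D2 (D2 (fun x => (G x).im)) x -
      ((u s x).1 * D1 (fun x => (G x).im) x + (u s x).2 * D2 (fun x => (G x).im) x) := by
  rw [D1_im hG, D2_im hG, D1_im (D1_smooth hG), D2_im (D2_smooth hG)]
  unfold AC comp
  rw [max_eq_left hs, P1_apply, P2_apply]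
  simp only [Complex.sub_im, Complex.add_im, Complex.im_ofReal_mul]

/-- weak measurability of the coefficients -/
lemma WeakSol.cc_meas (h : WeakSol u θ) (k : K) :
    AEStronglyMeasurable (fun s => cc θ s k) (volume.restrict (Ioi 0)) := by
  have hG : ContDiff ℝ ∞ (ex (-k)) := ex_contDiff (-k)
  have hp := ex_periodic (-k)
  have h1 := h.meas _ (re_smooth hG) (re_periodic hp)
  have h2 := h.meas _ (im_smooth hG) (im_periodic hp)
  have h3 : AEStronglyMeasurable (fun s => ((kap : ℝ) : ℂ) *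
      (((∫ x in cell, θ s x * (ex (-k) x).re : ℝ) : ℂ) +
        Complex.I * ((∫ x in cell, θ s x * (ex (-k) x).im : ℝ) : ℂ))) (volume.restrict (Ioi 0)) := by
    apply AEStronglyMeasurable.const_mul
    apply AEStronglyMeasurable.add
    · exact Complex.continuous_ofReal.comp_aestronglyMeasurable h1
    · apply AEStronglyMeasurable.const_mul
      exact Complex.continuous_ofReal.comp_aestronglyMeasurable h2
  apply h3.congr
  filter_upwards [ae_restrict_mem measurableSet_Ioi] with s hs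
  rw [← int_test (h.memLp s (le_of_lt hs)) hG.continuous]
  rfl

lemma WeakSol.pair_meas (h : WeakSol u θ) {B : ℝ → ℝ × ℝ → ℂ}
    (hB : Measurable (Function.uncurry B)) (hc : ∀ s, Continuous (B s)) :
    AEStronglyMeasurable (fun s => ∫ x, B s x * (θ s x : ℂ) ∂mu2) (volume.restrict (Ioi 0)) := by
  have hBc : Measurable (Function.uncurry (fun s x => conj (B s x))) :=
    Complex.continuous_conj.measurable.comp hB
  apply aestronglyMeasurable_of_tendsto_ae atTop
    (f := fun (S : Finset K) s => ∑ k ∈ S, conj (fc (fun x => conj (B s x)) k) * cc θ s k)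
  · intro S
    apply Finset.aestronglyMeasurable_fun_sum
    intro k _
    apply AEStronglyMeasurable.mul _ (h.cc_meas k)
    exact (Complex.continuous_conj.measurable.comp (fc_meas hBc k)).aestronglyMeasurable
  · filter_upwards [ae_restrict_mem measurableSet_Ioi] with s hs
    have h1 : MemLp (fun x => conj (B s x)) 2 mu2 := by
      apply cont_memLp
      exact Complex.continuous_conj.comp (hc s)
    have h2 := parseval h1 (memLp_mu2 (h.memLp s (le_of_lt hs)))
    simp only [Complex.conj_conj] at h2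
    exact h2

/-- the complex form of the weak equation -/
lemma WeakSol.complex (hu : VField u) (h : WeakSol u θ) {G : ℝ × ℝ → ℂ} (hG : ContDiff ℝ ∞ G)
    (hp : Periodic2 G) {t : ℝ} (ht : 0 ≤ t) :
    IntervalIntegrable (fun s => ∫ x, AC u G s x * (θ s x : ℂ) ∂mu2) volume 0 t ∧
    ∫ x, G x * (θ t x : ℂ) ∂mu2 = (∫ x, G x * (θ 0 x : ℂ) ∂mu2) +
      ∫ s in (0 : ℝ)..t, ∫ x, AC u G s x * (θ s x : ℂ) ∂mu2 := by
  set Z : ℝ → ℂ := fun s => ∫ x, AC u G s x * (θ s x : ℂ) ∂mu2 with hZ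
  obtain ⟨C, hC, hCb⟩ := AC_bound hu hG
  obtain ⟨D, hD⟩ := h.bounded t
  have hint : IntervalIntegrable Z volume 0 t := by
    rw [intervalIntegrable_iff, uIoc_of_le ht]
    apply Integrable.of_bound (C := C * (1 + kap * D))
    · exact (h.pair_meas (AC_meas hu hG) (AC_cont hu hG)).mono_measure
        (Measure.restrict_mono Ioc_subset_Ioi_self le_rfl)
    · filter_upwards [ae_restrict_mem measurableSet_Ioc] with s hs
      refine (pair_bound (h.memLp s hs.1.le) hC (hCb s)).trans ?_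
      apply mul_le_mul_of_nonneg_left _ hC
      have := mul_le_mul_of_nonneg_left (hD s ⟨hs.1.le, hs.2⟩) kap_pos.le
      linarith
  refine ⟨hint, ?_⟩
  have hk : (kap : ℝ) ≠ 0 := kap_pos.ne'
  -- real and imaginary parts of the integrand
  have hZs : ∀ s ∈ Icc 0 t, Z s = ((kap : ℝ) : ℂ) *
      (((∫ x in cell, θ s x * (AC u G s x).re : ℝ) : ℂ) +
        Complex.I * ((∫ x in cell, θ s x * (AC u G s x).im : ℝ) : ℂ)) := fun s hs =>
    int_test (h.memLp s hs.1) (AC_cont hu hG s)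
  have hre : ∀ s ∈ Icc 0 t, (Z s).re = kap * ∫ x in cell, θ s x *
      (D1 (D1 (fun x => (G x).re)) x + D2 (D2 (fun x => (G x).re)) x -
      ((u s x).1 * D1 (fun x => (G x).re) x + (u s x).2 * D2 (fun x => (G x).re) x)) := by
    intro s hs
    rw [hZs s hs, Complex.re_ofReal_mul]
    congr 1
    simp only [Complex.add_re, Complex.ofReal_re, Complex.mul_re, Complex.I_re, Complex.I_im,
      Complex.ofReal_im, zero_mul, mul_zero, sub_zero, add_zero]
    apply integral_congr_ae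
    filter_upwards with x
    rw [AC_re hG hs.1]
  have him : ∀ s ∈ Icc 0 t, (Z s).im = kap * ∫ x in cell, θ s x *
      (D1 (D1 (fun x => (G x).im)) x + D2 (D2 (fun x => (G x).im)) x -
      ((u s x).1 * D1 (fun x => (G x).im) x + (u s x).2 * D2 (fun x => (G x).im) x)) := by
    intro s hs
    rw [hZs s hs, Complex.im_ofReal_mul]
    congr 1
    simp only [Complex.add_im, Complex.ofReal_re, Complex.mul_im, Complex.I_re, Complex.I_im,
      Complex.ofReal_im, zero_mul, one_mul, zero_add]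
    apply integral_congr_ae
    filter_upwards with x
    rw [AC_im hG hs.1]
  have e1 := h.eqn _ (re_smooth hG) (re_periodic hp) t ht
  have e2 := h.eqn _ (im_smooth hG) (im_periodic hp) t ht
  have i1 : (∫ s in (0 : ℝ)..t, Z s).re = kap * ∫ s in (0 : ℝ)..t, ∫ x in cell, θ s x *
      (D1 (D1 (fun x => (G x).re)) x + D2 (D2 (fun x => (G x).re)) x -
      ((u s x).1 * D1 (fun x => (G x).re) x + (u s x).2 * D2 (fun x => (G x).re) x)) := by
    rw [← intervalIntegral.integral_const_mul]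
    have := Complex.reCLM.intervalIntegral_comp_comm hint
    simp only [Complex.reCLM_apply] at this
    rw [← this]
    apply intervalIntegral.integral_congr
    intro s hs
    rw [uIcc_of_le ht] at hs
    exact hre s hs
  have i2 : (∫ s in (0 : ℝ)..t, Z s).im = kap * ∫ s in (0 : ℝ)..t, ∫ x in cell, θ s x *
      (D1 (D1 (fun x => (G x).im)) x + D2 (D2 (fun x => (G x).im)) x -
      ((u s x).1 * D1 (fun x => (G x).im) x + (u s x).2 * D2 (fun x => (G x).im) x)) := by
    rw [← intervalIntegral.integral_const_mul]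
    have := Complex.imCLM.intervalIntegral_comp_comm hint
    simp only [Complex.imCLM_apply] at this
    rw [← this]
    apply intervalIntegral.integral_congr
    intro s hs
    rw [uIcc_of_le ht] at hs
    exact him s hs
  rw [int_test (h.memLp t ht) hG.continuous, int_test (h.memLp 0 le_rfl) hG.continuous, e1, e2]
  conv_rhs => rw [← Complex.re_add_im (∫ s in (0 : ℝ)..t, Z s), i1, i2]
  push_cast
  ring

end

end Pool.Agent.DED
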