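import Pool.Agent.DED.Iter

open scoped BigOperators ComplexConjugate Topology
open MeasureTheory Set Filter

noncomputable section

namespace Pool.Agent.DED

/-- isotropic weight -/
def ws (k : K) : ℝ := 1 + si k

lemma ws_ge_one (k : K) : 1 ≤ ws k := by
  have := si_nonneg k
  unfold ws
  linarith

lemma ws_pos (k : K) : 0 < ws k := lt_of_lt_of_le one_pos (ws_ge_one k)

lemma ws_le (k m : K) : ws k ≤ ws (k - m) * ws m := by
  have h1 := si_nonneg (k - m)
  have h2 := si_nonneg m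
  have h3 := si_add (k - m) m
  rw [sub_add_cancel] at h3
  unfold ws
  nlinarith

lemma wt_le_ws (k : K) : wt k ≤ ws k ^ 2 := by
  have h1 : |(k.1 : ℝ)| ≤ si k := le_max_left _ _
  have h2 : |(k.2 : ℝ)| ≤ si k := le_max_right _ _
  have h3 := abs_nonneg (k.1 : ℝ)
  have h4 := abs_nonneg (k.2 : ℝ)
  unfold wt ws
  rw [sq]
  apply mul_le_mul (by linarith) (by linarith) (by positivity) (by have := si_nonneg k; positivity)

lemma ws_ratio (k m : K) (a : ℕ) : 1 / ws (k - m) ^ a ≤ ws m ^ a / ws k ^ a := by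
  have h1 := ws_pos k
  have h2 := ws_pos m
  have h3 := ws_pos (k - m)
  rw [div_le_div_iff₀ (by positivity) (by positivity), one_mul]
  have h4 : ws k ^ a ≤ (ws (k - m) * ws m) ^ a := pow_le_pow_left₀ h1.le (ws_le k m) a
  rw [mul_pow] at h4
  linarith

/-- the right hand side of the equation for the coefficients -/
def rhs (v : ℝ → K → ℂ × ℂ) (c : ℝ → K → ℂ) (s : ℝ) (k : K) : ℂ :=
  -(N k : ℂ) * c s k + Complex.I * cpl (v s) (c s) k

/-- weak solutions at the level of Fourier coefficients -/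
structure WSol (v : ℝ → K → ℂ × ℂ) (c : ℝ → K → ℂ) : Prop where
  bdd : ∀ T : ℝ, ∃ C : ℝ, 0 ≤ C ∧ ∀ t ∈ Icc 0 T, ∀ k, ‖c t k‖ ≤ C
  init : ∀ n : ℕ, ∃ C : ℝ, 0 ≤ C ∧ ∀ k, ‖c 0 k‖ ≤ C / ws k ^ n
  int : ∀ k, ∀ t : ℝ, 0 ≤ t → IntervalIntegrable (fun s => rhs v c s k) volume 0 t
  eqn : ∀ k, ∀ t : ℝ, 0 ≤ t → c t k = c 0 k + ∫ s in (0 : ℝ)..t, rhs v c s k

section

variable {v : ℝ → K → ℂ × ℂ} {c : ℝ → K → ℂ} {U : K → ℝ}

lemma al_shift {v : K → ℂ × ℂ} (hv : Vel v U) (m k : K) : al v m (k - m) = al v m k := by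
  have h0 : al v m m = 0 := hv.dv m
  have h1 := al_add v m (k - m) m
  rw [sub_add_cancel, h0, add_zero] at h1
  exact h1.symm

lemma cpl_bound {v : K → ℂ × ℂ} (hv : Vel v U) {a : ℕ} (hS : Summable (fun m => U m * ws m ^ a))
    {c : K → ℂ} {C : ℝ} (hC : 0 ≤ C) (hc : ∀ k, ‖c k‖ ≤ C / ws k ^ a) (k : K) :
    ‖cpl v c k‖ ≤ si k * C * (∑' m, U m * ws m ^ a) / ws k ^ a := by
  unfold cpl
  have hk := ws_pos k
  have hb : ∀ m, ‖al v m (k - m) * c (k - m)‖ ≤ (si k * C / ws k ^ a) * (U m * ws m ^ a) := by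
    intro m
    have hm := ws_pos m
    have hkm := ws_pos (k - m)
    have hU := hv.U_nonneg m
    rw [al_shift hv, norm_mul]
    calc ‖al v m k‖ * ‖c (k - m)‖ ≤ (si k * U m) * (C / ws (k - m) ^ a) :=
          mul_le_mul (al_bound hv.bd m k) (hc _) (norm_nonneg _) (mul_nonneg (si_nonneg k) hU)
      _ = (si k * U m * C) * (1 / ws (k - m) ^ a) := by ring
      _ ≤ (si k * U m * C) * (ws m ^ a / ws k ^ a) := by
          apply mul_le_mul_of_nonneg_left (ws_ratio k m a)
          have := si_nonneg k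
          positivity
      _ = _ := by ring
  refine (tsum_of_norm_bounded (hS.mul_left _).hasSum hb).trans (le_of_eq ?_)
  rw [tsum_mul_left]
  ring

lemma rhs_bound (hv : TVel v U) {a : ℕ} (hS : Summable (fun m => U m * ws m ^ a))
    {C : ℝ} (hC : 0 ≤ C) {t : ℝ} (hc : ∀ k, ‖c t k‖ ≤ C / ws k ^ a) (k : K) :
    ‖rhs v c t k‖ ≤ (N k * C + si k * C * (∑' m, U m * ws m ^ a)) / ws k ^ a := by
  unfold rhs
  refine (norm_add_le _ _).trans ?_
  rw [norm_mul, norm_neg, norm_real_nonneg (N_nonneg k), norm_mul, Complex.norm_I, one_mul, add_div,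
    mul_div_assoc]
  exact add_le_add (mul_le_mul_of_nonneg_left (hc k) (N_nonneg k))
    (cpl_bound (hv.vel t) hS hC hc k)

/-- Lipschitz continuity in time of the coefficients -/
lemma WSol.lip (h : WSol v c) (k : K) {B T : ℝ} (hB : ∀ t ∈ Icc 0 T, ‖rhs v c t k‖ ≤ B)
    {s t : ℝ} (hs : s ∈ Icc 0 T) (ht : t ∈ Icc 0 T) : ‖c t k - c s k‖ ≤ B * |t - s| := by
  have e : c t k - c s k = ∫ τ in s..t, rhs v c τ k := by
    rw [h.eqn k t ht.1, h.eqn k s hs.1, add_sub_add_left_eq_sub,
      intervalIntegral.integral_interval_sub_left (h.int k t ht.1) (h.int k s hs.1)]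
  rw [e]
  apply intervalIntegral.norm_integral_le_of_norm_le_const
  intro τ hτ
  apply hB
  rcases le_total s t with hst | hst
  · rw [uIoc_of_le hst] at hτ
    exact ⟨hs.1.trans hτ.1.le, hτ.2.trans ht.2⟩
  · rw [uIoc_of_ge hst] at hτ
    exact ⟨ht.1.trans hτ.1.le, hτ.2.trans hs.2⟩

lemma WSol.deriv (h : WSol v c) (k : K) (T : ℝ) :
    ∀ᵐ t : ℝ, t ∈ Ioo 0 T → HasDerivAt (fun s => c s k) (rhs v c t k) t := by
  rcases le_or_gt T 0 with hT | hT
  · filter_upwards with t ht
    exact absurd (ht.1.trans ht.2) (not_lt.2 hT)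
  · filter_upwards [(h.int k T hT.le).ae_hasDerivAt_integral] with t ht hmem
    have h1 := ht (by rw [uIcc_of_le hT.le]; exact ⟨hmem.1.le, hmem.2.le⟩) 0 left_mem_uIcc
    have h2 := h1.const_add (c 0 k)
    apply h2.congr_of_eventuallyEq
    filter_upwards [Ioi_mem_nhds hmem.1] with s hs
    exact h.eqn k s (le_of_lt hs)

/-- one step of the regularity bootstrap -/
lemma WSol.boot (h : WSol v c) (hv : TVel v U) {a : ℕ} (hS : Summable (fun m => U m * ws m ^ a))
    {T C : ℝ} (hC : 0 ≤ C) (hc : ∀ t ∈ Icc 0 T, ∀ k, ‖c t k‖ ≤ C / ws k ^ a) :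
    ∃ C' : ℝ, 0 ≤ C' ∧ ∀ t ∈ Icc 0 T, ∀ k, ‖c t k‖ ≤ C' / ws k ^ (a + 1) := by
  obtain ⟨C0, hC0, h0⟩ := h.init (a + 1)
  set S : ℝ := ∑' m, U m * ws m ^ a with hSdef
  have hS0 : 0 ≤ S := tsum_nonneg fun m => mul_nonneg ((hv.vel 0).U_nonneg m)
    (by have := ws_pos m; positivity)
  refine ⟨C + C0 + 2 * C * S, by positivity, ?_⟩
  intro t ht k
  have hk := ws_pos k
  by_cases hk0 : si k < 1
  · have hk1 : si k = 0 := by
      have h1 : |(k.1 : ℝ)| ≤ si k := le_max_left _ _
      have h2 : |(k.2 : ℝ)| ≤ si k := le_max_right _ _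
      have e1 : k.1 = 0 := by
        have : |(k.1 : ℝ)| < 1 := lt_of_le_of_lt h1 hk0
        have h3 : |k.1| < 1 := by exact_mod_cast this
        exact Int.abs_lt_one_iff.1 h3
      have e2 : k.2 = 0 := by
        have : |(k.2 : ℝ)| < 1 := lt_of_le_of_lt h2 hk0
        have h3 : |k.2| < 1 := by exact_mod_cast this
        exact Int.abs_lt_one_iff.1 h3
      unfold si
      rw [e1, e2]
      simp
    have hw : ws k = 1 := by unfold ws; rw [hk1, add_zero]
    have := hc t ht k
    rw [hw, one_pow, div_one] at this ⊢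
    have : 0 ≤ 2 * C * S := by positivity
    linarith
  · push Not at hk0
    have hN : si k ^ 2 ≤ N k := si_sq_le k
    have hNpos : 0 < N k := lt_of_lt_of_le (by nlinarith) hN
    set G : ℝ := si k * C * S / ws k ^ a with hG
    have hG0 : 0 ≤ G := by
      have := si_nonneg k
      positivity
    set Mk : ℝ := ‖c 0 k‖ + G / N k with hMk
    have hMk0 : 0 ≤ Mk := by positivity
    have hT : 0 ≤ T := ht.1.trans ht.2
    -- a crude bound for the right hand side
    set B : ℝ := (N k * C + si k * C * S) / ws k ^ a with hB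
    have hBb : ∀ τ ∈ Icc 0 T, ‖rhs v c τ k‖ ≤ B := fun τ hτ => rhs_bound hv hS hC (hc τ hτ) k
    have hB0 : 0 ≤ B := le_trans (norm_nonneg _) (hBb t ht)
    have hlip : ∀ s ∈ Icc 0 T, ∀ τ ∈ Icc 0 T, ‖c τ k - c s k‖ ≤ B * |τ - s| :=
      fun s hs τ hτ => h.lip k hBb hs hτ
    have hCb : ∀ τ ∈ Icc 0 T, ‖c τ k‖ ≤ C := fun τ hτ => by
      refine (hc τ hτ k).trans ?_
      apply div_le_self hC
      exact one_le_pow₀ (ws_ge_one k)
    have hac : AbsolutelyContinuousOnInterval (fun τ => ‖c τ k‖ ^ 2 - Mk ^ 2) 0 T := by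
      apply lip_ac (L := 2 * C * B) hT
      intro s hs τ hτ
      have e : ‖c τ k‖ ^ 2 - Mk ^ 2 - (‖c s k‖ ^ 2 - Mk ^ 2) =
          (‖c τ k‖ + ‖c s k‖) * (‖c τ k‖ - ‖c s k‖) := by ring
      rw [e, abs_mul, abs_of_nonneg (add_nonneg (norm_nonneg _) (norm_nonneg _))]
      have h1 := hCb τ hτ
      have h2 := hCb s hs
      have h3 : |‖c τ k‖ - ‖c s k‖| ≤ B * |τ - s| :=
        (abs_norm_sub_norm_le _ _).trans (hlip s hs τ hτ)
      calc (‖c τ k‖ + ‖c s k‖) * |‖c τ k‖ - ‖c s k‖| ≤ (2 * C) * (B * |τ - s|) :=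
            mul_le_mul (by linarith) h3 (abs_nonneg _) (by positivity)
        _ = _ := by ring
    have hbar := barrier hac (by
      have h1 : ‖c 0 k‖ ≤ Mk := by
        have : 0 ≤ G / N k := by positivity
        linarith
      have := pow_le_pow_left₀ (norm_nonneg _) h1 2
      linarith) (by
      filter_upwards [ae_Ioo (h.deriv k T) le_rfl le_rfl] with τ hτ hmem hz
      obtain ⟨hτ0, hd⟩ := hτ hmem
      have hd2 := hd.norm_sq.sub_const (Mk ^ 2)
      refine ⟨_, hd2, ?_⟩
      have hM : Mk ≤ ‖c τ k‖ := by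
        apply le_of_sq_le_sq _ (norm_nonneg _)
        linarith
      have hcp := cpl_bound (hv.vel τ) hS hC (hc τ hmem) k
      rw [← hSdef, ← hG] at hcp
      have h1 : inner ℝ (c τ k) (rhs v c τ k) ≤ -(N k) * ‖c τ k‖ ^ 2 + ‖c τ k‖ * G := by
        rw [Complex.inner]
        unfold rhs
        have e1 : (-(N k : ℂ) * c τ k + Complex.I * cpl (v τ) (c τ) k) * conj (c τ k) =
            ((-(N k) * ‖c τ k‖ ^ 2 : ℝ) : ℂ) +
              Complex.I * cpl (v τ) (c τ) k * conj (c τ k) := by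
          have e2 : c τ k * conj (c τ k) = ((‖c τ k‖ ^ 2 : ℝ) : ℂ) := by
            rw [Complex.mul_conj, Complex.normSq_eq_norm_sq]
          push_cast at e2 ⊢
          linear_combination (-(N k : ℂ)) * e2
        rw [e1, Complex.add_re, Complex.ofReal_re]
        have e3 : (Complex.I * cpl (v τ) (c τ) k * conj (c τ k)).re ≤ ‖c τ k‖ * G := by
          refine (Complex.re_le_norm _).trans ?_
          rw [norm_mul, norm_mul, Complex.norm_I, one_mul, RCLike.norm_conj, mul_comm]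
          exact mul_le_mul_of_nonneg_left hcp (norm_nonneg _)
        linarith
      have h2 : G ≤ N k * ‖c τ k‖ := by
        have h3 : G / N k ≤ ‖c τ k‖ := by
          have := norm_nonneg (c 0 k)
          linarith
        rw [div_le_iff₀ hNpos] at h3
        linarith
      have h4 := mul_le_mul_of_nonneg_left h2 (norm_nonneg (c τ k))
      nlinarith) t ht
    have hle : ‖c t k‖ ≤ Mk := by
      apply le_of_sq_le_sq _ hMk0
      linarith
    refine hle.trans ?_
    have hG2 : G / N k ≤ 2 * C * S / ws k ^ (a + 1) := by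
      have h1 : G / N k ≤ G / si k ^ 2 :=
        div_le_div_of_nonneg_left hG0 (by positivity) hN
      refine h1.trans ?_
      rw [hG, div_div, div_le_div_iff₀ (by positivity) (by positivity), pow_succ]
      have h2 : ws k ≤ 2 * si k := by unfold ws; linarith
      have h3 : 0 ≤ si k * C * S * ws k ^ a := by positivity
      calc si k * C * S * (ws k ^ a * ws k) = (si k * C * S * ws k ^ a) * ws k := by ring
        _ ≤ (si k * C * S * ws k ^ a) * (2 * si k) := mul_le_mul_of_nonneg_left h2 h3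
        _ = _ := by ring
    have h3 : 0 ≤ C / ws k ^ (a + 1) := by positivity
    calc Mk ≤ C0 / ws k ^ (a + 1) + 2 * C * S / ws k ^ (a + 1) := add_le_add (h0 k) hG2
      _ ≤ C / ws k ^ (a + 1) + (C0 / ws k ^ (a + 1) + 2 * C * S / ws k ^ (a + 1)) := by linarith
      _ = _ := by ring

lemma summable_ws {p : ℕ} (hp : 4 ≤ p) : Summable (fun k : K => 1 / ws k ^ p) := by
  apply Summable.of_nonneg_of_le (fun k => ?_) (fun k => ?_) summable_wt
  · have := ws_pos k
    positivity
  · have h1 := ws_pos k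
    have h2 := wt_pos k
    apply one_div_le_one_div_of_le (by positivity)
    calc wt k ^ 2 ≤ (ws k ^ 2) ^ 2 := pow_le_pow_left₀ h2.le (wt_le_ws k) 2
      _ = ws k ^ 4 := by ring
      _ ≤ ws k ^ p := pow_le_pow_right₀ (ws_ge_one k) hp

lemma WSol.gsol (h : WSol v c) (hv : TVel v U)
    (hS : ∀ a ≤ 14, Summable (fun m => U m * ws m ^ a)) : GSol v c := by
  have key : ∀ a ≤ 14, ∀ T : ℝ, ∃ C : ℝ, 0 ≤ C ∧ ∀ t ∈ Icc 0 T, ∀ k, ‖c t k‖ ≤ C / ws k ^ a := by
    intro a
    induction a with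
    | zero =>
      intro _ T
      obtain ⟨C, hC, hb⟩ := h.bdd T
      exact ⟨C, hC, fun t ht k => by rw [pow_zero, div_one]; exact hb t ht k⟩
    | succ a ih =>
      intro ha T
      obtain ⟨C, hC, hb⟩ := ih (by omega) T
      exact h.boot hv (hS a (by omega)) hC hb
  refine ⟨?_, ?_⟩
  · intro T
    obtain ⟨C, hC, hb⟩ := key 14 le_rfl T
    set S : ℝ := ∑' m, U m * ws m ^ 14 with hSdef
    have hS0 : 0 ≤ S := tsum_nonneg fun m => mul_nonneg ((hv.vel 0).U_nonneg m)
      (by have := ws_pos m; positivity)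
    refine ⟨C, 2 * C + C * S, hC, by positivity, ?_, ?_⟩
    · intro t ht k
      refine (hb t ht k).trans ?_
      have h1 := wt_pos k
      have h2 := ws_pos k
      apply div_le_div_of_nonneg_left hC (by positivity)
      calc wt k ^ 6 ≤ (ws k ^ 2) ^ 6 := pow_le_pow_left₀ h1.le (wt_le_ws k) 6
        _ = ws k ^ 12 := by ring
        _ ≤ ws k ^ 14 := pow_le_pow_right₀ (ws_ge_one k) (by norm_num)
    · intro s hs t ht k
      have h1 := wt_pos k
      have h2 := ws_pos k
      have h3 : ∀ τ ∈ Icc 0 T, ‖rhs v c τ k‖ ≤ (2 * C + C * S) / wt k ^ 6 := by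
        intro τ hτ
        refine (rhs_bound hv (hS 14 le_rfl) hC (hb τ hτ) k).trans ?_
        have h4 : N k ≤ 2 * ws k ^ 2 := by
          refine (N_le_si k).trans ?_
          have : si k ≤ ws k := by unfold ws; linarith
          have := pow_le_pow_left₀ (si_nonneg k) this 2
          linarith
        have h5 : si k ≤ ws k ^ 2 := by
          have : si k ≤ ws k := by unfold ws; linarith
          have h6 := ws_ge_one k
          nlinarith
        calc (N k * C + si k * C * S) / ws k ^ 14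
            ≤ (2 * ws k ^ 2 * C + ws k ^ 2 * C * S) / ws k ^ 14 := by
              apply div_le_div_of_nonneg_right _ (by positivity)
              have := mul_le_mul_of_nonneg_right h4 hC
              have := mul_le_mul_of_nonneg_right h5 (mul_nonneg hC hS0)
              linarith
          _ = (2 * C + C * S) / ws k ^ 12 := by field_simp
          _ ≤ _ := by
              apply div_le_div_of_nonneg_left (by positivity) (by positivity)
              calc wt k ^ 6 ≤ (ws k ^ 2) ^ 6 := pow_le_pow_left₀ h1.le (wt_le_ws k) 6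
                _ = ws k ^ 12 := by ring
      refine (h.lip k h3 hs ht).trans (le_of_eq ?_)
      ring
  · have h1 : ∀ᵐ t : ℝ, ∀ n : ℕ, ∀ k : K, t ∈ Ioo 0 (n : ℝ) →
        HasDerivAt (fun s => c s k) (rhs v c t k) t := by
      rw [ae_all_iff]
      intro n
      rw [ae_all_iff]
      intro k
      exact h.deriv k n
    filter_upwards [h1] with t ht hpos k
    obtain ⟨n, hn⟩ := exists_nat_gt t
    exact ht n k ⟨hpos, hn⟩

end

end Pool.Agent.DED
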