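import Pool.Agent.DED.Symb

open scoped BigOperators ComplexConjugate

noncomputable section

namespace Pool.Agent.DED

/-- non resonance cutoff -/
def eta (μ δ : ℝ) (m l : K) : ℝ := ze μ m l * hh (δ * μ) (om m l)

/-- non resonant part of the coupling -/
def anr (v : K → ℂ × ℂ) (μ δ : ℝ) (m l : K) : ℂ := al v m l * ((eta μ δ m l : ℝ) : ℂ)

/-- interpolated coupling -/
def zz (v : K → ℂ × ℂ) (μ δ s : ℝ) (m l : K) : ℂ := al v m l * ((1 - s * eta μ δ m l : ℝ) : ℂ)

/-- resonant low frequency part -/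
def res (v : K → ℂ × ℂ) (μ δ : ℝ) (m l : K) : ℂ :=
  al v m l * ((ze μ m l * (1 - hh (δ * μ) (om m l)) : ℝ) : ℂ)

/-- high frequency part -/
def hig (v : K → ℂ × ℂ) (μ : ℝ) (m l : K) : ℂ := al v m l * ((1 - ze μ m l : ℝ) : ℂ)

/-- standing assumptions on the velocity coefficients -/
structure Vel (v : K → ℂ × ℂ) (U : K → ℝ) : Prop where
  bd : ∀ m, ‖(v m).1‖ + ‖(v m).2‖ ≤ U m
  sy : ∀ m, (v (-m)).1 = conj (v m).1 ∧ (v (-m)).2 = conj (v m).2
  dv : ∀ m : K, (m.1 : ℂ) * (v m).1 + (m.2 : ℂ) * (v m).2 = 0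

lemma Vel.U_nonneg {v : K → ℂ × ℂ} {U : K → ℝ} (h : Vel v U) (m : K) : 0 ≤ U m :=
  le_trans (add_nonneg (norm_nonneg _) (norm_nonneg _)) (h.bd m)

lemma zz_one (v : K → ℂ × ℂ) (μ δ : ℝ) (m l : K) :
    zz v μ δ 1 m l = res v μ δ m l + hig v μ m l := by
  unfold zz res hig eta
  rw [← mul_add, ← Complex.ofReal_add]
  congr 2
  ring

lemma zz_zero (v : K → ℂ × ℂ) (μ δ : ℝ) (m l : K) : zz v μ δ 0 m l = al v m l := by
  simp [zz]

lemma zz_step (v : K → ℂ × ℂ) (μ δ s ε : ℝ) (m l : K) :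
    zz v μ δ s m l - (ε : ℂ) * anr v μ δ m l = zz v μ δ (s + ε) m l := by
  unfold zz anr
  push_cast
  ring

variable {v : K → ℂ × ℂ} {U : K → ℝ} {μ δ : ℝ}

lemma eta_nonneg (m l : K) : 0 ≤ eta μ δ m l := mul_nonneg (ze_nonneg _ _ _) (hh_nonneg _ _)

lemma eta_le_one (hD : 0 < δ * μ) (m l : K) : eta μ δ m l ≤ 1 := by
  unfold eta
  have := ze_le_one μ m l
  have := ze_nonneg μ m l
  have := hh_le_one hD (om m l)
  have := hh_nonneg (δ * μ) (om m l)
  nlinarith

lemma eta_symm (m l : K) : eta μ δ (-m) (l + m) = eta μ δ m l := by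
  unfold eta
  rw [ze_symm, om_neg, hh_neg]

lemma eta_support (hμ : 0 < μ) {m l : K} (hm : si m ≤ μ) (h : eta μ δ m l ≠ 0) :
    si l ≤ 17 * μ := by
  apply ze_support hμ hm
  intro h0
  apply h
  unfold eta
  rw [h0, zero_mul]

lemma eta_lip (hμ : 0 < μ) (hδ : 0 < δ) (m l p : K) :
    |eta μ δ m (l + p) - eta μ δ m l| ≤ si p / (8 * μ) + 8 * si m * si p / (δ * μ) := by
  have hD : 0 < δ * μ := by positivity
  unfold eta
  have e : ze μ m (l + p) * hh (δ * μ) (om m (l + p)) - ze μ m l * hh (δ * μ) (om m l) =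
    (ze μ m (l + p) - ze μ m l) * hh (δ * μ) (om m (l + p)) +
    ze μ m l * (hh (δ * μ) (om m (l + p)) - hh (δ * μ) (om m l)) := by ring
  rw [e]
  refine (abs_add_le _ _).trans ?_
  rw [abs_mul, abs_mul, abs_of_nonneg (hh_nonneg _ _), abs_of_nonneg (ze_nonneg _ _ _)]
  have h1 := ze_lip hμ m l p
  have h2 := hh_lip hD (om m (l + p)) (om m l)
  have h3 := om_lip m l p
  have h4 := hh_le_one hD (om m (l + p))
  have h5 := hh_nonneg (δ * μ) (om m (l + p))
  have h6 := ze_le_one μ m l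
  have h7 := ze_nonneg μ m l
  apply add_le_add
  · calc |ze μ m (l + p) - ze μ m l| * hh (δ * μ) (om m (l + p))
        ≤ |ze μ m (l + p) - ze μ m l| * 1 := by gcongr
      _ ≤ _ := by rw [mul_one]; exact h1
  · have h8 : |hh (δ * μ) (om m (l + p)) - hh (δ * μ) (om m l)| ≤
        8 * si m * si p / (δ * μ) := by
      refine h2.trans ?_
      rw [div_le_div_iff_of_pos_right hD]
      nlinarith
    calc ze μ m l * |hh (δ * μ) (om m (l + p)) - hh (δ * μ) (om m l)|
        ≤ 1 * |hh (δ * μ) (om m (l + p)) - hh (δ * μ) (om m l)| := by gcongr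
      _ ≤ _ := by rw [one_mul]; exact h8

lemma symm_real (hv : Vel v U) {r : K → K → ℝ} (hr : ∀ m l, r (-m) (l + m) = r m l) (m l : K) :
    al v (-m) (l + m) * ((r (-m) (l + m) : ℝ) : ℂ) = conj (al v m l * ((r m l : ℝ) : ℂ)) := by
  rw [al_symm hv.sy hv.dv, hr, map_mul, Complex.conj_ofReal]

lemma anr_symm (hv : Vel v U) (m l : K) : anr v μ δ (-m) (l + m) = conj (anr v μ δ m l) :=
  symm_real hv (fun m l => eta_symm m l) m l

lemma zz_symm (hv : Vel v U) (s : ℝ) (m l : K) :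
    zz v μ δ s (-m) (l + m) = conj (zz v μ δ s m l) :=
  symm_real hv (r := fun m l => 1 - s * eta μ δ m l) (fun m l => by simp only [eta_symm]) m l

lemma res_symm (hv : Vel v U) (m l : K) : res v μ δ (-m) (l + m) = conj (res v μ δ m l) :=
  symm_real hv (r := fun m l => ze μ m l * (1 - hh (δ * μ) (om m l)))
    (fun m l => by simp only [ze_symm, om_neg, hh_neg]) m l

lemma anr_bound (hv : Vel v U) (hμ : 0 < μ) (hδ : 0 < δ) {m : K} (hm : si m ≤ μ) (l : K) :
    ‖anr v μ δ m l‖ ≤ 17 * μ * U m := by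
  unfold anr
  have hU := hv.U_nonneg m
  by_cases h : eta μ δ m l = 0
  · rw [h]
    simp only [Complex.ofReal_zero, mul_zero, norm_zero]
    positivity
  · have h1 := eta_support hμ hm h
    rw [norm_mul, Complex.norm_real, Real.norm_eq_abs, abs_of_nonneg (eta_nonneg _ _)]
    have h2 := al_bound hv.bd m l
    have h3 := eta_le_one (show 0 < δ * μ by positivity) m l
    calc ‖al v m l‖ * eta μ δ m l ≤ ‖al v m l‖ * 1 := by gcongr
      _ ≤ si l * U m := by rw [mul_one]; exact h2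
      _ ≤ _ := by gcongr

lemma zz_bound (hv : Vel v U) (hμ : 0 < μ) (hδ : 0 < δ) {s : ℝ} (hs0 : 0 ≤ s) (hs1 : s ≤ 1)
    (m l : K) : ‖zz v μ δ s m l‖ ≤ si l * U m := by
  unfold zz
  have h1 := al_bound hv.bd m l
  have h2 := eta_nonneg (μ := μ) (δ := δ) m l
  have h3 := eta_le_one (show 0 < δ * μ by positivity) m l
  rw [norm_mul, Complex.norm_real, Real.norm_eq_abs]
  have h4 : |1 - s * eta μ δ m l| ≤ 1 := by
    rw [abs_le]
    constructor <;> nlinarith
  calc ‖al v m l‖ * |1 - s * eta μ δ m l| ≤ ‖al v m l‖ * 1 := by gcongr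
    _ ≤ _ := by rw [mul_one]; exact h1

lemma zz_lip (hv : Vel v U) (hμ : 0 < μ) (hδ : 0 < δ) {s : ℝ} (hs0 : 0 ≤ s) (hs1 : s ≤ 1)
    (m l p : K) : ‖zz v μ δ s m (l + p) - zz v μ δ s m l‖ ≤
      (si p + si l * (si p / (8 * μ) + 8 * si m * si p / (δ * μ))) * U m := by
  have hU := hv.U_nonneg m
  have e : zz v μ δ s m (l + p) - zz v μ δ s m l =
      al v m p * ((1 - s * eta μ δ m (l + p) : ℝ) : ℂ) -
      al v m l * ((s * (eta μ δ m (l + p) - eta μ δ m l) : ℝ) : ℂ) := by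
    unfold zz
    rw [al_add]
    push_cast
    ring
  rw [e]
  refine (norm_sub_le _ _).trans ?_
  have h2 := eta_nonneg (μ := μ) (δ := δ) m (l + p)
  have h3 := eta_le_one (show 0 < δ * μ by positivity) m (l + p)
  have h4 : |1 - s * eta μ δ m (l + p)| ≤ 1 := by
    rw [abs_le]
    constructor <;> nlinarith
  have h5 := eta_lip hμ hδ m l p
  rw [norm_mul, norm_mul, Complex.norm_real, Complex.norm_real, Real.norm_eq_abs,
    Real.norm_eq_abs, abs_mul, abs_of_nonneg hs0, add_mul]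
  apply add_le_add
  · calc ‖al v m p‖ * |1 - s * eta μ δ m (l + p)| ≤ ‖al v m p‖ * 1 := by gcongr
      _ ≤ _ := by rw [mul_one]; exact al_bound hv.bd m p
  · calc ‖al v m l‖ * (s * |eta μ δ m (l + p) - eta μ δ m l|)
        ≤ (si l * U m) * (1 * (si p / (8 * μ) + 8 * si m * si p / (δ * μ))) := by
          apply mul_le_mul (al_bound hv.bd m l) _ (by positivity)
            (mul_nonneg (si_nonneg _) hU)
          exact mul_le_mul hs1 h5 (abs_nonneg _) zero_le_one
      _ = _ := by ring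

/-- hypotheses on the generator `b` at a fixed time -/
structure Gen (F : Finset K) (b : K → K → ℂ) (U : K → ℝ) (M μ B0 B1 : ℝ) : Prop where
  sup : ∀ m ∈ F, ∀ l, b m l ≠ 0 → si l ≤ 17 * μ
  bd : ∀ m ∈ F, ∀ l, ‖b m l‖ ≤ B0 * U m
  lip : ∀ m ∈ F, ∀ p, si p ≤ M → ∀ l, ‖b m (l + p) - b m l‖ ≤ B1 * U m / μ

/-- the commutator constant -/
def Kc (M δ B0 B1 : ℝ) : ℝ := 18 * B1 + B0 * (M + 17 * (M / 8 + 8 * M ^ 2 / δ))

lemma comm_bound (hv : Vel v U) {F : Finset K} {b : K → K → ℂ} {M B0 B1 : ℝ}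
    (hμ : 0 < μ) (hδ : 0 < δ) (hM0 : 0 ≤ M) (hM : M ≤ μ) (hF : ∀ m ∈ F, si m ≤ M)
    (hB0 : 0 ≤ B0) (hB1 : 0 ≤ B1)
    (hb : Gen F b U M μ B0 B1) {s : ℝ} (hs0 : 0 ≤ s) (hs1 : s ≤ 1)
    (m : K) (hm : m ∈ F) (m' : K) (hm' : m' ∈ F) (l : K) :
    ‖b m (l + m') * zz v μ δ s m' l - zz v μ δ s m' (l + m) * b m l‖ ≤
      Kc M δ B0 B1 * (U m * U m') := by
  have hU := hv.U_nonneg m
  have hU' := hv.U_nonneg m'
  have e : b m (l + m') * zz v μ δ s m' l - zz v μ δ s m' (l + m) * b m l =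
      (b m (l + m') - b m l) * zz v μ δ s m' l -
      b m l * (zz v μ δ s m' (l + m) - zz v μ δ s m' l) := by ring
  rw [e]
  refine (norm_sub_le _ _).trans ?_
  rw [norm_mul, norm_mul]
  have hF1 := hF m hm
  have hF2 := hF m' hm'
  have h1 : ‖b m (l + m') - b m l‖ * ‖zz v μ δ s m' l‖ ≤ 18 * B1 * (U m * U m') := by
    by_cases hz : b m (l + m') = 0 ∧ b m l = 0
    · rw [hz.1, hz.2, sub_zero, norm_zero, zero_mul]
      positivity
    · have hl : si l ≤ 18 * μ := by
        by_cases h0 : b m l = 0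
        · have h1 : b m (l + m') ≠ 0 := fun h => hz ⟨h, h0⟩
          have h2 := hb.sup m hm _ h1
          have h3 := si_add (l + m') (-m')
          rw [si_neg, add_neg_cancel_right] at h3
          linarith
        · have := hb.sup m hm _ h0
          linarith
      calc ‖b m (l + m') - b m l‖ * ‖zz v μ δ s m' l‖
          ≤ (B1 * U m / μ) * (18 * μ * U m') := by
            apply mul_le_mul (hb.lip m hm m' hF2 l) _ (norm_nonneg _) (by positivity)
            refine (zz_bound hv hμ hδ hs0 hs1 m' l).trans ?_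
            gcongr
        _ = _ := by field_simp
  have h2 : ‖b m l‖ * ‖zz v μ δ s m' (l + m) - zz v μ δ s m' l‖ ≤
      B0 * (M + 17 * (M / 8 + 8 * M ^ 2 / δ)) * (U m * U m') := by
    by_cases h0 : b m l = 0
    · rw [h0, norm_zero, zero_mul]
      positivity
    · have hl := hb.sup m hm _ h0
      have h3 := zz_lip hv hμ hδ hs0 hs1 m' l m
      have h4 : si m + si l * (si m / (8 * μ) + 8 * si m' * si m / (δ * μ)) ≤
          M + 17 * (M / 8 + 8 * M ^ 2 / δ) := by
        have h5 : si l * (si m / (8 * μ) + 8 * si m' * si m / (δ * μ)) ≤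
            17 * μ * (M / (8 * μ) + 8 * M * M / (δ * μ)) := by
          have := si_nonneg m
          have := si_nonneg m'
          have := si_nonneg l
          gcongr
        have h6 : 17 * μ * (M / (8 * μ) + 8 * M * M / (δ * μ)) =
            17 * (M / 8 + 8 * M ^ 2 / δ) := by
          field_simp
        linarith
      calc ‖b m l‖ * ‖zz v μ δ s m' (l + m) - zz v μ δ s m' l‖
          ≤ (B0 * U m) * ((M + 17 * (M / 8 + 8 * M ^ 2 / δ)) * U m') := by
            apply mul_le_mul (hb.bd m hm l) _ (norm_nonneg _) (by positivity)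
            refine h3.trans ?_
            gcongr
        _ = _ := by ring
  unfold Kc
  calc _ ≤ 18 * B1 * (U m * U m') + B0 * (M + 17 * (M / 8 + 8 * M ^ 2 / δ)) * (U m * U m') :=
        add_le_add h1 h2
    _ = _ := by ring

lemma res_gap (hv : Vel v U) (hμ : 0 < μ) (hδ : 0 < δ) {m : K} (hm : si m ≤ μ) (l : K) :
    |om m l| * ‖res v μ δ m l‖ ≤ 34 * δ * μ ^ 2 * U m := by
  have hU := hv.U_nonneg m
  have hD : 0 < δ * μ := by positivity
  unfold res
  rw [norm_mul, Complex.norm_real, Real.norm_eq_abs]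
  have h1 := ze_nonneg μ m l
  have h2 := ze_le_one μ m l
  have h3 := hh_nonneg (δ * μ) (om m l)
  have h4 := hh_le_one hD (om m l)
  by_cases h0 : ze μ m l = 0
  · rw [h0, zero_mul, abs_zero, mul_zero, mul_zero]
    positivity
  by_cases h5 : 2 * (δ * μ) ≤ |om m l|
  · rw [hh_one hD h5, sub_self, mul_zero, abs_zero, mul_zero, mul_zero]
    positivity
  · push Not at h5
    have hl := ze_support hμ hm h0
    have h6 : |ze μ m l * (1 - hh (δ * μ) (om m l))| ≤ 1 := by
      rw [abs_of_nonneg (mul_nonneg h1 (by linarith))]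
      nlinarith
    have h7 := al_bound hv.bd m l
    have h8 : ‖al v m l‖ * |ze μ m l * (1 - hh (δ * μ) (om m l))| ≤ 17 * μ * U m := by
      calc ‖al v m l‖ * |ze μ m l * (1 - hh (δ * μ) (om m l))| ≤ ‖al v m l‖ * 1 := by gcongr
        _ ≤ si l * U m := by rw [mul_one]; exact h7
        _ ≤ _ := by gcongr
    calc |om m l| * (‖al v m l‖ * |ze μ m l * (1 - hh (δ * μ) (om m l))|)
        ≤ (2 * (δ * μ)) * (17 * μ * U m) := by
          apply mul_le_mul h5.le h8 (by positivity) (by positivity)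
      _ = _ := by ring

lemma hig_bound (hv : Vel v U) (hμ : 0 < μ) {m : K} (hm : si m ≤ μ) {L : ℝ}
    (hL : L ≤ 4 * μ ^ 2) (φ : K → ℂ) (l : K) :
    ‖hig v μ m l * φ l‖ ≤ U m / (6 * μ) * ‖((N l - L : ℝ) : ℂ) * φ l‖ := by
  have hU := hv.U_nonneg m
  unfold hig
  by_cases h0 : ze μ m l = 1
  · rw [h0, sub_self]
    simp only [Complex.ofReal_zero, mul_zero, zero_mul, norm_zero]
    positivity
  · have hl := ze_one hμ hm h0
    have h1 : 6 * μ * si l ≤ N l - L := by
      have := si_sq_le l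
      nlinarith
    have h2 : 0 ≤ N l - L := le_trans (by have := si_nonneg l; positivity) h1
    rw [norm_mul, norm_mul, norm_mul, Complex.norm_real, Complex.norm_real, Real.norm_eq_abs,
      Real.norm_eq_abs, abs_of_nonneg h2, ← mul_assoc]
    apply mul_le_mul_of_nonneg_right _ (norm_nonneg _)
    have h3 := ze_nonneg μ m l
    have h4 := ze_le_one μ m l
    have h5 : |1 - ze μ m l| ≤ 1 := by rw [abs_of_nonneg] <;> linarith
    calc ‖al v m l‖ * |1 - ze μ m l| ≤ ‖al v m l‖ * 1 := by gcongr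
      _ ≤ si l * U m := by rw [mul_one]; exact al_bound hv.bd m l
      _ ≤ ((N l - L) / (6 * μ)) * U m := by
        gcongr
        rw [le_div_iff₀ (by positivity)]
        linarith
      _ = _ := by ring

end Pool.Agent.DED
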