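import Pool.Agent.DED.Gen

open scoped BigOperators ComplexConjugate
open MeasureTheory Set

noncomputable section

namespace Pool.Agent.DED

/-- iterates of the normal form -/
def psi (F : Finset K) (b : K → K → ℂ) (ε : ℝ) (c : K → ℂ) : ℕ → K → ℂ
  | 0 => c
  | j + 1 => fun k => psi F b ε c j k - (ε : ℂ) * op F b (psi F b ε c j) k

/-- the errors produced by the iterates -/
def er (F : Finset K) (b : K → K → ℂ) (v : K → ℂ × ℂ) (μ δ ε : ℝ) (c e : K → ℂ) : ℕ → K → ℂ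
  | 0 => e
  | j + 1 => fun k => er F b v μ δ ε c e j k - (ε : ℂ) * op F b (er F b v μ δ ε c e j) k -
      (ε : ℂ) * Complex.I * (op F b (op F (zz v μ δ (j * ε)) (psi F b ε c j)) k -
        op F (zz v μ δ (j * ε)) (op F b (psi F b ε c j)) k) -
      (ε : ℂ) ^ 2 * Complex.I * op F (anr v μ δ) (op F b (psi F b ε c j)) k

lemma psi_hasDerivAt {F : Finset K} {b : ℝ → K → K → ℂ} {c : ℝ → K → ℂ} {v : K → ℂ × ℂ}
    {μ δ ε t : ℝ} {e : K → ℂ}
    (hb : ∀ m ∈ F, ∀ l, HasDerivAt (fun s => b s m l)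
      (-(om m l : ℂ) * b t m l + Complex.I * anr v μ δ m l) t)
    (hc : ∀ k, HasDerivAt (fun s => c s k)
      (-(N k : ℂ) * c t k + Complex.I * op F (al v) (c t) k + e k) t) (j : ℕ) :
    ∀ k, HasDerivAt (fun s => psi F (b s) ε (c s) j k)
      (-(N k : ℂ) * psi F (b t) ε (c t) j k +
        Complex.I * op F (zz v μ δ (j * ε)) (psi F (b t) ε (c t) j) k +
        er F (b t) v μ δ ε (c t) e j k) t := by
  induction j with
  | zero =>
    intro k
    have h0 : zz v μ δ ((0 : ℕ) * ε) = al v := by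
      funext m l
      rw [Nat.cast_zero, zero_mul, zz_zero]
    rw [h0]
    exact hc k
  | succ j ih =>
    intro k
    set ψ := psi F (b t) ε (c t) j with hψ
    set z := zz v μ δ (j * ε) with hz
    set ej := er F (b t) v μ δ ε (c t) e j with hej
    set dψ : K → ℂ := fun k => -(N k : ℂ) * ψ k + Complex.I * op F z ψ k + ej k with hdψ
    have h1 : HasDerivAt (fun s => op F (b s) (psi F (b s) ε (c s) j) k)
        (op F (fun m l => -(om m l : ℂ) * b t m l + Complex.I * anr v μ δ m l) ψ k +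
          op F (b t) dψ k) t := by
      unfold op
      rw [← Finset.sum_add_distrib]
      apply HasDerivAt.fun_sum
      intro m hm
      exact (hb m hm (k - m)).mul (ih (k - m))
    have h2 : HasDerivAt (fun s => psi F (b s) ε (c s) (j + 1) k)
        (dψ k - (ε : ℂ) * (op F (fun m l => -(om m l : ℂ) * b t m l +
          Complex.I * anr v μ δ m l) ψ k + op F (b t) dψ k)) t :=
      (ih k).sub (h1.const_mul _)
    have h3 := step_identity F (b t) z (anr v μ δ) ψ dψ ej (ε : ℂ) (fun k => rfl) k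
    rw [h3] at h2
    have h4 : (fun m l => z m l - (ε : ℂ) * anr v μ δ m l) = zz v μ δ (((j + 1 : ℕ) : ℝ) * ε) := by
      funext m l
      rw [hz, zz_step]
      congr 1
      push_cast
      ring
    rw [h4] at h2
    exact h2

section fixedtime

variable {F : Finset K} {b : K → K → ℂ} {ε : ℝ} {c ψ : K → ℂ} {βm : K → ℝ}

lemma exp_neg_le {x : ℝ} (h0 : 0 ≤ x) (h1 : x ≤ 1 / 2) : Real.exp (-(2 * x)) ≤ 1 - x := by
  rw [Real.exp_neg]
  have h2 : 1 + 2 * x ≤ Real.exp (2 * x) := by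
    have := Real.add_one_le_exp (2 * x)
    linarith
  have h3 : (Real.exp (2 * x))⁻¹ ≤ (1 + 2 * x)⁻¹ := by
    apply inv_anti₀ (by linarith) h2
  refine h3.trans ?_
  rw [inv_le_iff_one_le_mul₀ (by linarith)]
  nlinarith

lemma rec_up {a : ℕ → ℝ} {x y : ℝ} {J : ℕ} (hx : 0 ≤ x) (hy : 0 ≤ y) (h0 : 0 ≤ a 0)
    (h : ∀ j < J, a (j + 1) ≤ (1 + x) * a j + y) :
    ∀ j ≤ J, a j ≤ Real.exp (j * x) * (a 0 + j * y) := by
  intro j
  induction j with
  | zero => intro _; simp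
  | succ j ih =>
    intro hj
    have h1 := ih (by omega)
    have h2 := h j (by omega)
    have h3 : 1 + x ≤ Real.exp x := by
      have := Real.add_one_le_exp x
      linarith
    have h4 : (1 : ℝ) ≤ Real.exp (((j + 1 : ℕ) : ℝ) * x) := Real.one_le_exp (by positivity)
    have h5 : Real.exp (((j + 1 : ℕ) : ℝ) * x) = Real.exp x * Real.exp (j * x) := by
      rw [← Real.exp_add]
      congr 1
      push_cast
      ring
    calc a (j + 1) ≤ (1 + x) * a j + y := h2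
      _ ≤ (1 + x) * (Real.exp (j * x) * (a 0 + j * y)) + y := by gcongr
      _ ≤ Real.exp x * (Real.exp (j * x) * (a 0 + j * y)) + y := by gcongr
      _ = Real.exp (((j + 1 : ℕ) : ℝ) * x) * (a 0 + j * y) + y := by rw [h5]; ring
      _ ≤ Real.exp (((j + 1 : ℕ) : ℝ) * x) * (a 0 + j * y) +
          Real.exp (((j + 1 : ℕ) : ℝ) * x) * y := by nlinarith
      _ = _ := by push_cast; ring

lemma rec_down {a : ℕ → ℝ} {x y : ℝ} {J : ℕ} (hx : 0 ≤ x) (hx1 : x ≤ 1 / 2) (hy : 0 ≤ y)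
    (h0 : ∀ j, 0 ≤ a j)
    (h : ∀ j < J, (1 - x) * a j ≤ a (j + 1) + y) :
    ∀ j ≤ J, a 0 ≤ Real.exp (2 * (j * x)) * (a j + j * y) := by
  intro j
  induction j with
  | zero => intro _; simp
  | succ j ih =>
    intro hj
    have h1 := ih (by omega)
    have h2 := h j (by omega)
    have h3 := exp_neg_le hx hx1
    have h5 : Real.exp (2 * (((j + 1 : ℕ) : ℝ) * x)) = Real.exp (2 * (j * x)) * Real.exp (2 * x) := by
      rw [← Real.exp_add]
      congr 1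
      push_cast
      ring
    have h6 : a j ≤ Real.exp (2 * x) * (a (j + 1) + y) := by
      have e : a j = Real.exp (2 * x) * (Real.exp (-(2 * x)) * a j) := by
        rw [← mul_assoc, ← Real.exp_add, add_neg_cancel, Real.exp_zero, one_mul]
      rw [e]
      apply mul_le_mul_of_nonneg_left _ (Real.exp_pos _).le
      refine le_trans ?_ h2
      exact mul_le_mul_of_nonneg_right h3 (h0 j)
    have h7 : (1 : ℝ) ≤ Real.exp (2 * x) := Real.one_le_exp (by positivity)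
    calc a 0 ≤ Real.exp (2 * (j * x)) * (a j + j * y) := h1
      _ ≤ Real.exp (2 * (j * x)) * (Real.exp (2 * x) * (a (j + 1) + y) +
          Real.exp (2 * x) * (j * y)) := by
          apply mul_le_mul_of_nonneg_left _ (Real.exp_pos _).le
          apply add_le_add h6
          have : 0 ≤ (j : ℝ) * y := by positivity
          nlinarith
      _ = _ := by rw [h5]; push_cast; ring

/-- the Euclidean gradient -/
def gr (ψ : K → ℂ) : K → ℂ := fun k => ((eu k : ℝ) : ℂ) * ψ k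

lemma eu_neg (k : K) : eu (-k) = eu k := by
  have h : eu (-k) ^ 2 = eu k ^ 2 := by rw [eu_sq, eu_sq, N_neg]
  exact (sq_eq_sq₀ (eu_nonneg _) (eu_nonneg _)).1 h

lemma eu_sub_abs (l m : K) : |eu (l + m) - eu l| ≤ eu m := by
  rw [abs_le]
  constructor
  · have := eu_add (l + m) (-m)
    rw [add_neg_cancel_right, eu_neg] at this
    linarith
  · have := eu_add l m
    linarith

lemma gr_op (F : Finset K) (b : K → K → ℂ) (ψ : K → ℂ) :
    gr (op F b ψ) = fun k => op F b (gr ψ) k +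
      op F (fun m l => ((eu (l + m) - eu l : ℝ) : ℂ) * b m l) ψ k := by
  funext k
  unfold gr op
  rw [Finset.mul_sum, ← Finset.sum_add_distrib]
  apply Finset.sum_congr rfl
  intro m _
  beta_reduce
  rw [sub_add_cancel]
  push_cast
  ring

lemma gr_op_bound (hψ : Sq ψ) (hg : Sq (gr ψ)) (hb : ∀ m ∈ F, ∀ l, ‖b m l‖ ≤ βm m) :
    Sq (gr (op F b ψ)) ∧ nm (gr (op F b ψ)) ≤ (∑ m ∈ F, βm m) * nm (gr ψ) +
      (∑ m ∈ F, eu m * βm m) * nm ψ := by
  have h1 := op_bdd hg hb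
  have h2 : Sq (op F (fun m l => ((eu (l + m) - eu l : ℝ) : ℂ) * b m l) ψ) ∧
      nm (op F (fun m l => ((eu (l + m) - eu l : ℝ) : ℂ) * b m l) ψ) ≤
      (∑ m ∈ F, eu m * βm m) * nm ψ := by
    apply op_bdd hψ
    intro m hm l
    rw [norm_mul, Complex.norm_real, Real.norm_eq_abs]
    exact mul_le_mul (eu_sub_abs l m) (hb m hm l) (norm_nonneg _) (eu_nonneg m)
  rw [gr_op]
  exact ⟨h1.1.add h2.1, (nm_add_le h1.1 h2.1).trans (add_le_add h1.2 h2.2)⟩

lemma gr_sub_mul (ψ χ : K → ℂ) (a : ℂ) :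
    gr (fun k => ψ k - a * χ k) = fun k => gr ψ k - a * gr χ k := by
  funext k
  unfold gr
  ring

lemma psi_succ (F : Finset K) (b : K → K → ℂ) (ε : ℝ) (c : K → ℂ) (j : ℕ) :
    psi F b ε c (j + 1) = fun k => psi F b ε c j k - (ε : ℂ) * op F b (psi F b ε c j) k := rfl

lemma norm_real_nonneg {x : ℝ} (h : 0 ≤ x) : ‖(x : ℂ)‖ = x := by
  rw [Complex.norm_real, Real.norm_eq_abs, abs_of_nonneg h]

lemma psi_sq (hc : Sq c) (hb : ∀ m ∈ F, ∀ l, ‖b m l‖ ≤ βm m) (j : ℕ) :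
    Sq (psi F b ε c j) := by
  induction j with
  | zero => exact hc
  | succ j ih => exact ih.sub ((op_bdd ih hb).1.const_mul _)

lemma nm_step_le {β : ℝ} (hε : 0 ≤ ε) (hψ : Sq ψ) (hb : ∀ m ∈ F, ∀ l, ‖b m l‖ ≤ βm m)
    (hβ : ∑ m ∈ F, βm m ≤ β) :
    nm (fun k => (ε : ℂ) * op F b ψ k) ≤ ε * β * nm ψ := by
  rw [nm_const_mul, norm_real_nonneg hε, mul_assoc]
  apply mul_le_mul_of_nonneg_left _ hε
  refine (op_bdd hψ hb).2.trans ?_
  exact mul_le_mul_of_nonneg_right hβ (nm_nonneg _)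

lemma psi_nm_succ_le {β : ℝ} (hε : 0 ≤ ε) (hc : Sq c) (hb : ∀ m ∈ F, ∀ l, ‖b m l‖ ≤ βm m)
    (hβ : ∑ m ∈ F, βm m ≤ β) (j : ℕ) :
    nm (psi F b ε c (j + 1)) ≤ (1 + ε * β) * nm (psi F b ε c j) + 0 := by
  have h := psi_sq (ε := ε) hc hb j
  rw [psi_succ]
  have h1 := nm_sub_le h ((op_bdd h hb).1.const_mul (ε : ℂ))
  have h2 := nm_step_le hε h hb hβ
  linarith

lemma psi_nm_le_succ {β : ℝ} (hε : 0 ≤ ε) (hc : Sq c) (hb : ∀ m ∈ F, ∀ l, ‖b m l‖ ≤ βm m)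
    (hβ : ∑ m ∈ F, βm m ≤ β) (j : ℕ) :
    (1 - ε * β) * nm (psi F b ε c j) ≤ nm (psi F b ε c (j + 1)) + 0 := by
  have h := psi_sq (ε := ε) hc hb j
  have h3 := (op_bdd h hb).1.const_mul (ε : ℂ)
  rw [psi_succ]
  have h1 := nm_add_le (h.sub h3) h3
  have h2 := nm_step_le hε h hb hβ
  simp only [sub_add_cancel] at h1
  have e : (fun k => psi F b ε c j k) = psi F b ε c j := rfl
  rw [e] at h1
  linarith

lemma psi_gr_sq (hc : Sq c) (hg : Sq (gr c)) (hb : ∀ m ∈ F, ∀ l, ‖b m l‖ ≤ βm m) (j : ℕ) :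
    Sq (gr (psi F b ε c j)) := by
  induction j with
  | zero => exact hg
  | succ j ih =>
    rw [psi_succ, gr_sub_mul]
    exact ih.sub ((gr_op_bound (psi_sq hc hb j) ih hb).1.const_mul _)

lemma nm_gr_step_le {β β1 : ℝ} (hε : 0 ≤ ε) (hψ : Sq ψ) (hg : Sq (gr ψ))
    (hb : ∀ m ∈ F, ∀ l, ‖b m l‖ ≤ βm m)
    (hβ : ∑ m ∈ F, βm m ≤ β) (hβ1 : ∑ m ∈ F, eu m * βm m ≤ β1) :
    nm (fun k => (ε : ℂ) * gr (op F b ψ) k) ≤ ε * β * nm (gr ψ) + ε * β1 * nm ψ := by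
  rw [nm_const_mul, norm_real_nonneg hε, mul_assoc, mul_assoc, ← mul_add]
  apply mul_le_mul_of_nonneg_left _ hε
  refine (gr_op_bound hψ hg hb).2.trans ?_
  apply add_le_add
  · exact mul_le_mul_of_nonneg_right hβ (nm_nonneg _)
  · exact mul_le_mul_of_nonneg_right hβ1 (nm_nonneg _)

lemma psi_gr_succ_le {β β1 : ℝ} (hε : 0 ≤ ε) (hc : Sq c) (hg : Sq (gr c))
    (hb : ∀ m ∈ F, ∀ l, ‖b m l‖ ≤ βm m)
    (hβ : ∑ m ∈ F, βm m ≤ β) (hβ1 : ∑ m ∈ F, eu m * βm m ≤ β1) (j : ℕ) :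
    nm (gr (psi F b ε c (j + 1))) ≤ (1 + ε * β) * nm (gr (psi F b ε c j)) +
      ε * β1 * nm (psi F b ε c j) := by
  have h := psi_sq (ε := ε) hc hb j
  have h' := psi_gr_sq (ε := ε) hc hg hb j
  have h3 := (gr_op_bound h h' hb).1.const_mul (ε : ℂ)
  rw [psi_succ, gr_sub_mul]
  have h1 := nm_sub_le h' h3
  have h2 := nm_gr_step_le hε h h' hb hβ hβ1
  linarith

lemma psi_gr_le_succ {β β1 : ℝ} (hε : 0 ≤ ε) (hc : Sq c) (hg : Sq (gr c))
    (hb : ∀ m ∈ F, ∀ l, ‖b m l‖ ≤ βm m)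
    (hβ : ∑ m ∈ F, βm m ≤ β) (hβ1 : ∑ m ∈ F, eu m * βm m ≤ β1) (j : ℕ) :
    (1 - ε * β) * nm (gr (psi F b ε c j)) ≤ nm (gr (psi F b ε c (j + 1))) +
      ε * β1 * nm (psi F b ε c j) := by
  have h := psi_sq (ε := ε) hc hb j
  have h' := psi_gr_sq (ε := ε) hc hg hb j
  have h3 := (gr_op_bound h h' hb).1.const_mul (ε : ℂ)
  rw [psi_succ, gr_sub_mul]
  have h1 := nm_add_le (h'.sub h3) h3
  have h2 := nm_gr_step_le hε h h' hb hβ hβ1
  simp only [sub_add_cancel] at h1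
  have e : (fun k => gr (psi F b ε c j) k) = gr (psi F b ε c j) := rfl
  rw [e] at h1
  linarith

lemma er_succ_le {v : K → ℂ × ℂ} {μ δ β κ A : ℝ} {e : K → ℂ} {j : ℕ} {κm : K → K → ℝ}
    {Am : K → ℝ} (hε : 0 ≤ ε)
    (hc : Sq c) (he : Sq (er F b v μ δ ε c e j)) (hb : ∀ m ∈ F, ∀ l, ‖b m l‖ ≤ βm m)
    (hβ : ∑ m ∈ F, βm m ≤ β)
    (hcm : ∀ m ∈ F, ∀ m' ∈ F, ∀ l, ‖b m (l + m') * zz v μ δ (j * ε) m' l -
      zz v μ δ (j * ε) m' (l + m) * b m l‖ ≤ κm m m')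
    (hκ : ∑ m ∈ F, ∑ m' ∈ F, κm m m' ≤ κ)
    (ha : ∀ m ∈ F, ∀ l, ‖anr v μ δ m l‖ ≤ Am m) (hA : ∑ m ∈ F, Am m ≤ A) (hA0 : 0 ≤ A) :
    Sq (er F b v μ δ ε c e (j + 1)) ∧
    nm (er F b v μ δ ε c e (j + 1)) ≤ (1 + ε * β) * nm (er F b v μ δ ε c e j) +
      ε * (κ + ε * A * β) * nm (psi F b ε c j) := by
  have h := psi_sq (ε := ε) hc hb j
  have h1 := op_bdd he hb
  have h2 := op_comm h hcm
  have h3 := op_bdd h hb
  have h4 := op_bdd h3.1 ha
  have s1 := he.sub (h1.1.const_mul (ε : ℂ))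
  have s2 := h2.1.const_mul ((ε : ℂ) * Complex.I)
  have s3 := h4.1.const_mul ((ε : ℂ) ^ 2 * Complex.I)
  have hβ0 : 0 ≤ nm (psi F b ε c j) := nm_nonneg _
  refine ⟨(s1.sub s2).sub s3, ?_⟩
  have t1 := nm_sub_le (s1.sub s2) s3
  have t2 := nm_sub_le s1 s2
  have t3 := nm_sub_le he (h1.1.const_mul (ε : ℂ))
  have t4 := nm_step_le hε he hb hβ
  have t5 : nm (fun k => (ε : ℂ) * Complex.I * (op F b (op F (zz v μ δ (j * ε))
      (psi F b ε c j)) k - op F (zz v μ δ (j * ε)) (op F b (psi F b ε c j)) k)) ≤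
      ε * (κ * nm (psi F b ε c j)) := by
    rw [nm_const_mul, norm_mul, Complex.norm_I, mul_one, norm_real_nonneg hε]
    apply mul_le_mul_of_nonneg_left _ hε
    exact h2.2.trans (mul_le_mul_of_nonneg_right hκ hβ0)
  have t6 : nm (fun k => (ε : ℂ) ^ 2 * Complex.I * op F (anr v μ δ)
      (op F b (psi F b ε c j)) k) ≤ ε ^ 2 * (A * (β * nm (psi F b ε c j))) := by
    rw [nm_const_mul, norm_mul, Complex.norm_I, mul_one, norm_pow, norm_real_nonneg hε]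
    apply mul_le_mul_of_nonneg_left _ (by positivity)
    refine h4.2.trans ?_
    apply mul_le_mul hA _ (nm_nonneg _) hA0
    exact h3.2.trans (mul_le_mul_of_nonneg_right hβ hβ0)
  have e : er F b v μ δ ε c e (j + 1) = fun k => er F b v μ δ ε c e j k -
      (ε : ℂ) * op F b (er F b v μ δ ε c e j) k -
      (ε : ℂ) * Complex.I * (op F b (op F (zz v μ δ (j * ε)) (psi F b ε c j)) k -
        op F (zz v μ δ (j * ε)) (op F b (psi F b ε c j)) k) -
      (ε : ℂ) ^ 2 * Complex.I * op F (anr v μ δ) (op F b (psi F b ε c j)) k := rfl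
  rw [e]
  nlinarith

end fixedtime

end Pool.Agent.DED
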