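import Pool.Agent.DED.Step

open scoped BigOperators ComplexConjugate
open MeasureTheory Set

noncomputable section

namespace Pool.Agent.DED

/-- the parameters of the normal form -/
structure Par (F : Finset K) (U : K → ℝ) (M μ δ ε : ℝ) (J : ℕ) (Ut U1 : ℝ) : Prop where
  hδ : 0 < δ
  hM0 : 0 ≤ M
  hμ1 : 1 ≤ μ
  hM : M ≤ μ
  hF : ∀ m ∈ F, si m ≤ M
  hsym : ∀ m ∈ F, -m ∈ F
  hU : ∀ m, 0 ≤ U m
  hε : 0 < ε
  hJ : (J : ℝ) * ε = 1
  hεμ : ε * μ ≤ 1
  hβ : ε * (34 / δ * Ut) ≤ 1 / 2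
  hUt : ∑ m ∈ F, U m ≤ Ut
  hU1 : ∑ m ∈ F, eu m * U m ≤ U1

/-- the second error constant -/
def K2 (M δ Ut : ℝ) : ℝ :=
  Kc M δ (34 / δ) (2 * L2c M δ) * Ut ^ 2 + 17 * Ut * (34 / δ * Ut)

section

variable {F : Finset K} {U : K → ℝ} {M μ δ ε : ℝ} {J : ℕ} {Ut U1 : ℝ}
  {v : K → ℂ × ℂ} {b : K → K → ℂ} {c e : K → ℂ}

lemma Par.hμ (h : Par F U M μ δ ε J Ut U1) : 0 < μ := lt_of_lt_of_le one_pos h.hμ1

lemma Par.hUt0 (h : Par F U M μ δ ε J Ut U1) : 0 ≤ Ut :=
  le_trans (Finset.sum_nonneg fun m _ => h.hU m) h.hUt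

lemma Par.hU10 (h : Par F U M μ δ ε J Ut U1) : 0 ≤ U1 :=
  le_trans (Finset.sum_nonneg fun m _ => mul_nonneg (eu_nonneg m) (h.hU m)) h.hU1

lemma Kc_nonneg {M δ B0 B1 : ℝ} (hM : 0 ≤ M) (hδ : 0 < δ) (h0 : 0 ≤ B0) (h1 : 0 ≤ B1) :
    0 ≤ Kc M δ B0 B1 := by
  unfold Kc
  positivity

lemma Par.K2_nonneg (h : Par F U M μ δ ε J Ut U1) : 0 ≤ K2 M δ Ut := by
  have h1 := h.hδ
  have h2 := h.hUt0
  have h3 := L2c_nonneg h.hM0 h.hδ
  have h4 := Kc_nonneg (B0 := 34 / δ) (B1 := 2 * L2c M δ) h.hM0 h.hδ (by positivity) (by positivity)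
  unfold K2
  positivity

lemma Par.js (h : Par F U M μ δ ε J Ut U1) {j : ℕ} (hj : j ≤ J) :
    0 ≤ (j : ℝ) * ε ∧ (j : ℝ) * ε ≤ 1 := by
  have hε := h.hε
  refine ⟨by positivity, ?_⟩
  rw [← h.hJ]
  gcongr

lemma Par.betam (h : Par F U M μ δ ε J Ut U1) : ∑ m ∈ F, 34 / δ * U m ≤ 34 / δ * Ut := by
  rw [← Finset.mul_sum]
  have := h.hδ
  exact mul_le_mul_of_nonneg_left h.hUt (by positivity)

lemma Par.beta1m (h : Par F U M μ δ ε J Ut U1) :
    ∑ m ∈ F, eu m * (34 / δ * U m) ≤ 34 / δ * U1 := by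
  have e : ∑ m ∈ F, eu m * (34 / δ * U m) = 34 / δ * ∑ m ∈ F, eu m * U m := by
    rw [Finset.mul_sum]
    apply Finset.sum_congr rfl
    intro m _
    ring
  rw [e]
  have := h.hδ
  exact mul_le_mul_of_nonneg_left h.hU1 (by positivity)

/-- comparison of the iterates with the last one -/
lemma psi_le_last (h : Par F U M μ δ ε J Ut U1) (hb : ∀ m ∈ F, ∀ l, ‖b m l‖ ≤ 34 / δ * U m)
    (hc : Sq c) {j : ℕ} (hj : j ≤ J) :
    nm (psi F b ε c j) ≤ Real.exp (2 * (34 / δ * Ut)) * nm (psi F b ε c J) := by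
  have hε := h.hε
  have hδ := h.hδ
  have hUt := h.hUt0
  have hβ0 : 0 ≤ 34 / δ * Ut := by positivity
  have h1 := rec_down (a := fun i => nm (psi F b ε c (j + i))) (x := ε * (34 / δ * Ut)) (y := 0)
    (J := J - j) (by positivity) h.hβ le_rfl (fun i => nm_nonneg _)
    (fun i _ => psi_nm_le_succ hε.le hc hb h.betam (j + i)) (J - j) le_rfl
  simp only [add_zero, mul_zero] at h1
  rw [show j + (J - j) = J by omega] at h1
  refine h1.trans ?_
  apply mul_le_mul_of_nonneg_right _ (nm_nonneg _)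
  apply Real.exp_le_exp.2
  have h2 : ((J - j : ℕ) : ℝ) * ε ≤ 1 := (h.js (Nat.sub_le J j)).2
  have h3 : ((J - j : ℕ) : ℝ) * (ε * (34 / δ * Ut)) ≤ 1 * (34 / δ * Ut) := by
    rw [← mul_assoc]
    exact mul_le_mul_of_nonneg_right h2 hβ0
  linarith

lemma psi_le_first (h : Par F U M μ δ ε J Ut U1) (hb : ∀ m ∈ F, ∀ l, ‖b m l‖ ≤ 34 / δ * U m)
    (hc : Sq c) {j : ℕ} (hj : j ≤ J) :
    nm (psi F b ε c j) ≤ Real.exp (34 / δ * Ut) * nm c := by
  have hε := h.hε
  have hδ := h.hδ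
  have hUt := h.hUt0
  have hβ0 : 0 ≤ 34 / δ * Ut := by positivity
  have h1 := rec_up (a := fun i => nm (psi F b ε c i)) (x := ε * (34 / δ * Ut)) (y := 0)
    (J := J) (by positivity) le_rfl (nm_nonneg _)
    (fun i _ => psi_nm_succ_le hε.le hc hb h.betam i) j hj
  simp only [add_zero, mul_zero] at h1
  refine h1.trans ?_
  apply mul_le_mul_of_nonneg_right _ (nm_nonneg _)
  apply Real.exp_le_exp.2
  have h2 : (j : ℝ) * ε ≤ 1 := (h.js hj).2
  rw [← mul_assoc]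
  have := mul_le_mul_of_nonneg_right h2 hβ0
  linarith

lemma gr_first_le (h : Par F U M μ δ ε J Ut U1) (hb : ∀ m ∈ F, ∀ l, ‖b m l‖ ≤ 34 / δ * U m)
    (hc : Sq c) (hg : Sq (gr c)) :
    nm (gr c) ≤ Real.exp (2 * (34 / δ * Ut)) * (nm (gr (psi F b ε c J)) +
      34 / δ * U1 * (Real.exp (2 * (34 / δ * Ut)) * nm (psi F b ε c J))) := by
  have hε := h.hε
  have hδ := h.hδ
  have hUt := h.hUt0
  have hU1 := h.hU10
  have hβ0 : 0 ≤ 34 / δ * Ut := by positivity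
  have hβ1 : 0 ≤ 34 / δ * U1 := by positivity
  have hn : 0 ≤ nm (psi F b ε c J) := nm_nonneg _
  have h1 := rec_down (a := fun i => nm (gr (psi F b ε c i))) (x := ε * (34 / δ * Ut))
    (y := ε * (34 / δ * U1) * (Real.exp (2 * (34 / δ * Ut)) * nm (psi F b ε c J)))
    (J := J) (by positivity) h.hβ (by positivity) (fun i => nm_nonneg _)
    (fun i hi => by
      refine (psi_gr_le_succ hε.le hc hg hb h.betam h.beta1m i).trans ?_
      have := psi_le_last h hb hc hi.le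
      have h2 : 0 ≤ ε * (34 / δ * U1) := by positivity
      have := mul_le_mul_of_nonneg_left this h2
      linarith) J le_rfl
  have e1 : (J : ℝ) * (ε * (34 / δ * Ut)) = 34 / δ * Ut := by
    rw [← mul_assoc, h.hJ, one_mul]
  have e2 : (J : ℝ) * (ε * (34 / δ * U1) * (Real.exp (2 * (34 / δ * Ut)) * nm (psi F b ε c J))) =
      34 / δ * U1 * (Real.exp (2 * (34 / δ * Ut)) * nm (psi F b ε c J)) := by
    linear_combination
      (34 / δ * U1 * (Real.exp (2 * (34 / δ * Ut)) * nm (psi F b ε c J))) * h.hJ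
  rw [e1, e2] at h1
  exact h1

lemma gr_last_le (h : Par F U M μ δ ε J Ut U1) (hb : ∀ m ∈ F, ∀ l, ‖b m l‖ ≤ 34 / δ * U m)
    (hc : Sq c) (hg : Sq (gr c)) :
    nm (gr (psi F b ε c J)) ≤ Real.exp (34 / δ * Ut) * (nm (gr c) +
      34 / δ * U1 * (Real.exp (34 / δ * Ut) * nm c)) := by
  have hε := h.hε
  have hδ := h.hδ
  have hUt := h.hUt0
  have hU1 := h.hU10
  have hβ0 : 0 ≤ 34 / δ * Ut := by positivity
  have hβ1 : 0 ≤ 34 / δ * U1 := by positivity
  have hn : 0 ≤ nm c := nm_nonneg _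
  have h1 := rec_up (a := fun i => nm (gr (psi F b ε c i))) (x := ε * (34 / δ * Ut))
    (y := ε * (34 / δ * U1) * (Real.exp (34 / δ * Ut) * nm c))
    (J := J) (by positivity) (by positivity) (nm_nonneg _)
    (fun i hi => by
      refine (psi_gr_succ_le hε.le hc hg hb h.betam h.beta1m i).trans ?_
      have := psi_le_first h hb hc hi.le
      have h2 : 0 ≤ ε * (34 / δ * U1) := by positivity
      have := mul_le_mul_of_nonneg_left this h2
      linarith) J le_rfl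
  have e1 : (J : ℝ) * (ε * (34 / δ * Ut)) = 34 / δ * Ut := by
    rw [← mul_assoc, h.hJ, one_mul]
  have e2 : (J : ℝ) * (ε * (34 / δ * U1) * (Real.exp (34 / δ * Ut) * nm c)) =
      34 / δ * U1 * (Real.exp (34 / δ * Ut) * nm c) := by
    linear_combination (34 / δ * U1 * (Real.exp (34 / δ * Ut) * nm c)) * h.hJ
  rw [e1, e2] at h1
  exact h1

lemma er_bound (h : Par F U M μ δ ε J Ut U1) (hv : Vel v U)
    (hb : Gen F b U M μ (34 / δ) (2 * L2c M δ)) (hc : Sq c) (he : Sq e) :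
    Sq (er F b v μ δ ε c e J) ∧ nm (er F b v μ δ ε c e J) ≤
      Real.exp (34 / δ * Ut) * (nm e +
        K2 M δ Ut * (Real.exp (2 * (34 / δ * Ut)) * nm (psi F b ε c J))) := by
  have hε := h.hε
  have hδ := h.hδ
  have hμ := h.hμ
  have hUt := h.hUt0
  have hU1 := h.hU10
  have hβ0 : 0 ≤ 34 / δ * Ut := by positivity
  have hL2 := L2c_nonneg h.hM0 h.hδ
  have hKc := Kc_nonneg (B0 := 34 / δ) (B1 := 2 * L2c M δ) h.hM0 h.hδ (by positivity) (by positivity)
  have hn : 0 ≤ nm (psi F b ε c J) := nm_nonneg _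
  have hK2 := h.K2_nonneg
  have key : ∀ j < J, Sq (er F b v μ δ ε c e j) → Sq (er F b v μ δ ε c e (j + 1)) ∧
      nm (er F b v μ δ ε c e (j + 1)) ≤ (1 + ε * (34 / δ * Ut)) * nm (er F b v μ δ ε c e j) +
      ε * K2 M δ Ut * (Real.exp (2 * (34 / δ * Ut)) * nm (psi F b ε c J)) := by
    intro j hj hej
    have hjs := h.js hj.le
    have h1 := er_succ_le (v := v) (μ := μ) (δ := δ) (e := e) (j := j)
      (κm := fun m m' => Kc M δ (34 / δ) (2 * L2c M δ) * (U m * U m'))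
      (κ := Kc M δ (34 / δ) (2 * L2c M δ) * Ut ^ 2)
      (Am := fun m => 17 * μ * U m) (A := 17 * μ * Ut) (β := 34 / δ * Ut)
      hε.le hc hej hb.bd h.betam
      (fun m hm m' hm' l => comm_bound hv hμ hδ h.hM0 h.hM h.hF (by positivity) (by positivity)
        hb hjs.1 hjs.2 m hm m' hm' l)
      (by
        have e1 : ∑ m ∈ F, ∑ m' ∈ F, Kc M δ (34 / δ) (2 * L2c M δ) * (U m * U m') =
            Kc M δ (34 / δ) (2 * L2c M δ) * ((∑ m ∈ F, U m) * (∑ m ∈ F, U m)) := by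
          rw [Finset.sum_mul_sum, Finset.mul_sum]
          apply Finset.sum_congr rfl
          intro m _
          rw [Finset.mul_sum]
        rw [e1, sq]
        apply mul_le_mul_of_nonneg_left _ hKc
        exact mul_le_mul h.hUt h.hUt (Finset.sum_nonneg fun m _ => h.hU m) hUt)
      (fun m hm l => anr_bound hv hμ hδ ((h.hF m hm).trans h.hM) l)
      (by
        rw [← Finset.mul_sum]
        exact mul_le_mul_of_nonneg_left h.hUt (by positivity))
      (by positivity)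
    refine ⟨h1.1, h1.2.trans ?_⟩
    apply add_le_add le_rfl
    have h2 := psi_le_last h hb.bd hc hj.le
    rw [mul_assoc ε (Kc M δ (34 / δ) (2 * L2c M δ) * Ut ^ 2 + ε * (17 * μ * Ut) * (34 / δ * Ut)),
      mul_assoc ε (K2 M δ Ut)]
    apply mul_le_mul_of_nonneg_left _ hε.le
    have h3 : Kc M δ (34 / δ) (2 * L2c M δ) * Ut ^ 2 + ε * (17 * μ * Ut) * (34 / δ * Ut) ≤
        K2 M δ Ut := by
      unfold K2
      have : ε * (17 * μ * Ut) * (34 / δ * Ut) = (ε * μ) * (17 * Ut * (34 / δ * Ut)) := by ring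
      rw [this]
      have h4 : 0 ≤ 17 * Ut * (34 / δ * Ut) := by positivity
      have := mul_le_mul_of_nonneg_right h.hεμ h4
      linarith
    exact mul_le_mul h3 h2 (nm_nonneg _) hK2
  have hsq : ∀ j ≤ J, Sq (er F b v μ δ ε c e j) := by
    intro j
    induction j with
    | zero => intro _; exact he
    | succ j ih => intro hj; exact (key j (by omega) (ih (by omega))).1
  refine ⟨hsq J le_rfl, ?_⟩
  have h1 := rec_up (a := fun i => nm (er F b v μ δ ε c e i)) (x := ε * (34 / δ * Ut))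
    (y := ε * K2 M δ Ut * (Real.exp (2 * (34 / δ * Ut)) * nm (psi F b ε c J)))
    (J := J) (by positivity) (by positivity) (nm_nonneg _)
    (fun i hi => (key i hi (hsq i hi.le)).2) J le_rfl
  have e1 : (J : ℝ) * (ε * (34 / δ * Ut)) = 34 / δ * Ut := by
    rw [← mul_assoc, h.hJ, one_mul]
  have e2 : (J : ℝ) * (ε * K2 M δ Ut * (Real.exp (2 * (34 / δ * Ut)) * nm (psi F b ε c J))) =
      K2 M δ Ut * (Real.exp (2 * (34 / δ * Ut)) * nm (psi F b ε c J)) := by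
    linear_combination
      (K2 M δ Ut * (Real.exp (2 * (34 / δ * Ut)) * nm (psi F b ε c J))) * h.hJ
  rw [e1, e2] at h1
  exact h1

end

end Pool.Agent.DED
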