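import Pool.Agent.DED.Op

open scoped BigOperators ComplexConjugate

noncomputable section

namespace Pool.Agent.DED

lemma decay_prod_summable {C Cw Ca : ℝ} (hC : 0 ≤ C) (hCw : 0 ≤ Cw) (hCa : 0 ≤ Ca)
    {f : K → ℂ} (m m' : K)
    (h : ∀ l, ‖f l‖ ≤ (Cw * wt (l + m') ^ 2) * (C / wt (l + m) ^ 4) * (Ca * wt l * (C / wt l ^ 4)))
    (hm : ∀ l, wt (l + m') ^ 2 ≤ wt (l + m) ^ 4 ∨ wt (l + m') ^ 2 ≤ wt l ^ 2) :
    Summable f := by
  apply Summable.of_norm_bounded
    (g := fun l => (Cw * C * Ca * C) * (1 / wt l ^ 3) + (Cw * C * Ca * C) * (1 / wt (l + m) ^ 4))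
  · apply Summable.add
    · exact (summable_wt_pow (by norm_num)).mul_left _
    · apply Summable.mul_left
      exact (Equiv.addRight m).summable_iff.2 (summable_wt_pow (p := 4) (by norm_num))
  · intro l
    refine (h l).trans ?_
    have p1 := wt_pos l
    have p2 := wt_pos (l + m)
    have p3 := wt_pos (l + m')
    have q1 := wt_ge_one l
    have q2 := wt_ge_one (l + m)
    have hD : 0 ≤ Cw * C * Ca * C := by positivity
    have e : (Cw * wt (l + m') ^ 2) * (C / wt (l + m) ^ 4) * (Ca * wt l * (C / wt l ^ 4)) =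
        (Cw * C * Ca * C) * (wt (l + m') ^ 2 * (1 / wt (l + m) ^ 4) * (1 / wt l ^ 3)) := by
      field_simp
    rw [e, ← mul_add]
    apply mul_le_mul_of_nonneg_left _ hD
    rcases hm l with h1 | h1
    · have : wt (l + m') ^ 2 * (1 / wt (l + m) ^ 4) ≤ 1 := by
        rw [mul_one_div, div_le_one (by positivity)]
        exact h1
      have h3 : 0 ≤ 1 / wt (l + m) ^ 4 := by positivity
      have h4 : 0 ≤ 1 / wt l ^ 3 := by positivity
      nlinarith
    · have : wt (l + m') ^ 2 * (1 / wt l ^ 3) ≤ 1 := by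
        rw [mul_one_div, div_le_one (by positivity)]
        refine h1.trans ?_
        exact pow_le_pow_right₀ q1 (by norm_num)
      have h3 : 0 ≤ 1 / wt (l + m) ^ 4 := by positivity
      have h4 : 0 ≤ 1 / wt l ^ 3 := by positivity
      calc wt (l + m') ^ 2 * (1 / wt (l + m) ^ 4) * (1 / wt l ^ 3)
          = (wt (l + m') ^ 2 * (1 / wt l ^ 3)) * (1 / wt (l + m) ^ 4) := by ring
        _ ≤ 1 * (1 / wt (l + m) ^ 4) := mul_le_mul_of_nonneg_right this h3
        _ ≤ _ := by linarith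

variable {F : Finset K} {a : K → K → ℂ} {w : K → ℝ} {φ : K → ℂ} {C Cw Ca : ℝ}

lemma sym_S_summable (hC : 0 ≤ C) (hCw : 0 ≤ Cw) (hCa : 0 ≤ Ca)
    (hφ : ∀ k, ‖φ k‖ ≤ C / wt k ^ 4) (hw : ∀ k, |w k| ≤ Cw * wt k ^ 2) (m : K)
    (hA : ∀ l, ‖a m l‖ ≤ Ca * wt l) :
    Summable (fun l => (w (l + m) : ℂ) * conj (φ (l + m)) * (Complex.I * (a m l * φ l))) := by
  apply decay_prod_summable hC hCw hCa m m
  · intro l
    rw [norm_mul, norm_mul, norm_mul, norm_mul, Complex.norm_I, one_mul, Complex.norm_real,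
      RCLike.norm_conj, Real.norm_eq_abs]
    have p1 := wt_pos l
    have p2 := wt_pos (l + m)
    apply mul_le_mul
    · exact mul_le_mul (hw _) (hφ _) (norm_nonneg _) (by positivity)
    · exact mul_le_mul (hA _) (hφ _) (norm_nonneg _) (by positivity)
    · positivity
    · positivity
  · intro l
    left
    exact pow_le_pow_right₀ (wt_ge_one _) (by norm_num)

lemma sym_T_summable (hC : 0 ≤ C) (hCw : 0 ≤ Cw) (hCa : 0 ≤ Ca)
    (hφ : ∀ k, ‖φ k‖ ≤ C / wt k ^ 4) (hw : ∀ k, |w k| ≤ Cw * wt k ^ 2) (m : K)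
    (hA : ∀ l, ‖a m l‖ ≤ Ca * wt l) :
    Summable (fun l => (w l : ℂ) * conj (φ (l + m)) * (Complex.I * (a m l * φ l))) := by
  apply decay_prod_summable hC hCw hCa m 0
  · intro l
    rw [norm_mul, norm_mul, norm_mul, norm_mul, Complex.norm_I, one_mul, Complex.norm_real,
      RCLike.norm_conj, Real.norm_eq_abs, add_zero]
    have p1 := wt_pos l
    have p2 := wt_pos (l + m)
    apply mul_le_mul
    · exact mul_le_mul (hw _) (hφ _) (norm_nonneg _) (by positivity)
    · exact mul_le_mul (hA _) (hφ _) (norm_nonneg _) (by positivity)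
    · positivity
    · positivity
  · intro l
    right
    rw [add_zero]

lemma sym_summable (hC : 0 ≤ C) (hCw : 0 ≤ Cw) (hCa : 0 ≤ Ca)
    (hφ : ∀ k, ‖φ k‖ ≤ C / wt k ^ 4) (hw : ∀ k, |w k| ≤ Cw * wt k ^ 2)
    (hA : ∀ m ∈ F, ∀ l, ‖a m l‖ ≤ Ca * wt l) :
    Summable (fun k => (w k : ℂ) * conj (φ k) * (Complex.I * op F a φ k)) := by
  have h1 : ∀ m ∈ F, Summable (fun k => (w k : ℂ) * conj (φ k) *
      (Complex.I * (a m (k - m) * φ (k - m)))) := by
    intro m hm
    have := sym_S_summable hC hCw hCa hφ hw m (hA m hm)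
    have := (Equiv.subRight m).summable_iff.2 this
    refine this.congr (fun k => ?_)
    simp
  have := summable_sum h1
  refine this.congr (fun k => ?_)
  unfold op
  simp only [Finset.mul_sum]

lemma sym_bound (hC : 0 ≤ C) (hCw : 0 ≤ Cw) (hCa : 0 ≤ Ca) (hF : ∀ m ∈ F, -m ∈ F)
    (ha : ∀ m ∈ F, ∀ l, a (-m) (l + m) = conj (a m l))
    (hφ : ∀ k, ‖φ k‖ ≤ C / wt k ^ 4) (hw : ∀ k, |w k| ≤ Cw * wt k ^ 2)
    (hA : ∀ m ∈ F, ∀ l, ‖a m l‖ ≤ Ca * wt l) {γ : K → ℝ}
    (hγ : ∀ m ∈ F, ∀ l, |w (l + m) - w l| * ‖a m l‖ ≤ γ m) :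
    |2 * (∑' k, (w k : ℂ) * conj (φ k) * (Complex.I * op F a φ k)).re| ≤
      (∑ m ∈ F, γ m) * nm φ ^ 2 := by
  have hsq : Sq φ := Sq.of_decay (by norm_num) hφ
  set S : K → ℂ := fun m => ∑' l, (w (l + m) : ℂ) * conj (φ (l + m)) *
    (Complex.I * (a m l * φ l)) with hS
  set T : K → ℂ := fun m => ∑' l, (w l : ℂ) * conj (φ (l + m)) *
    (Complex.I * (a m l * φ l)) with hT
  have hSs : ∀ m ∈ F, Summable (fun l => (w (l + m) : ℂ) * conj (φ (l + m)) *
    (Complex.I * (a m l * φ l))) := fun m hm => sym_S_summable hC hCw hCa hφ hw m (hA m hm)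
  have hTs : ∀ m ∈ F, Summable (fun l => (w l : ℂ) * conj (φ (l + m)) *
    (Complex.I * (a m l * φ l))) := fun m hm => sym_T_summable hC hCw hCa hφ hw m (hA m hm)
  have h1 : (∑' k, (w k : ℂ) * conj (φ k) * (Complex.I * op F a φ k)) = ∑ m ∈ F, S m := by
    have e1 : (fun k => (w k : ℂ) * conj (φ k) * (Complex.I * op F a φ k)) =
        fun k => ∑ m ∈ F, (w k : ℂ) * conj (φ k) * (Complex.I * (a m (k - m) * φ (k - m))) := by
      funext k
      unfold op
      simp only [Finset.mul_sum]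
    rw [e1, Summable.tsum_finsetSum]
    · apply Finset.sum_congr rfl
      intro m _
      have e2 : S m = ∑' k, (fun l => (w (l + m) : ℂ) * conj (φ (l + m)) *
          (Complex.I * (a m l * φ l))) (k - m) :=
        ((Equiv.subRight m).tsum_eq (fun l => (w (l + m) : ℂ) * conj (φ (l + m)) *
          (Complex.I * (a m l * φ l)))).symm
      rw [e2]
      apply tsum_congr
      intro k
      simp
    · intro m hm
      have := (Equiv.subRight m).summable_iff.2 (hSs m hm)
      refine this.congr (fun k => ?_)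
      simp
  have h2 : ∀ m ∈ F, (S (-m)).re = -(T m).re := by
    intro m hm
    have e1 : S (-m) = ∑' l, (w l : ℂ) * conj (φ l) * (Complex.I * (conj (a m l) * φ (l + m))) := by
      rw [hS]
      beta_reduce
      rw [← (Equiv.addRight m).tsum_eq]
      apply tsum_congr
      intro l
      simp only [Equiv.coe_addRight]
      rw [show l + m + -m = l by abel, ha m hm l]
    have e2 : conj (S (-m)) = - T m := by
      rw [e1, hT, Complex.conj_tsum, ← tsum_neg]
      apply tsum_congr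
      intro l
      simp only [map_mul, Complex.conj_conj, Complex.conj_I, Complex.conj_ofReal]
      ring
    have e3 : (conj (S (-m))).re = (- T m).re := by rw [e2]
    simpa using e3
  have h3 : ∑ m ∈ F, (S m).re = ∑ m ∈ F, (S (-m)).re := by
    apply Finset.sum_nbij' (fun m => -m) (fun m => -m)
    · intro m hm; exact hF m hm
    · intro m hm; exact hF m hm
    · intro m _; simp
    · intro m _; simp
    · intro m _; simp
  have h4 : 2 * (∑' k, (w k : ℂ) * conj (φ k) * (Complex.I * op F a φ k)).re =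
      ∑ m ∈ F, (S m - T m).re := by
    rw [h1, Complex.re_sum, two_mul]
    conv_lhs => rw [h3]
    conv_lhs =>
      congr
      · rw [← h3]
    rw [← Finset.sum_add_distrib]
    apply Finset.sum_congr rfl
    intro m hm
    rw [h2 m hm, Complex.sub_re]
    ring
  rw [h4, Finset.sum_mul]
  refine (Finset.abs_sum_le_sum_abs _ _).trans ?_
  apply Finset.sum_le_sum
  intro m hm
  refine (Complex.abs_re_le_norm _).trans ?_
  have e : S m - T m = ∑' l, ((w (l + m) - w l : ℝ) : ℂ) * conj (φ (l + m)) *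
      (Complex.I * (a m l * φ l)) := by
    rw [hS, hT]
    beta_reduce
    rw [← (hSs m hm).tsum_sub (hTs m hm)]
    apply tsum_congr
    intro l
    push_cast
    ring
  rw [e]
  have hsq' : Sq (fun l => φ (l + m)) := by
    have := hsq.shift (-m)
    simpa using this
  have hnm' : nm (fun l => φ (l + m)) = nm φ := by
    have := nm_shift φ (-m)
    simpa using this
  have hγ0 : 0 ≤ γ m := le_trans (by positivity) (hγ m hm 0)
  have hb : ∀ l, ‖((w (l + m) - w l : ℝ) : ℂ) * conj (φ (l + m)) *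
      (Complex.I * (a m l * φ l))‖ ≤ γ m * (‖φ (l + m)‖ * ‖φ l‖) := by
    intro l
    rw [norm_mul, norm_mul, norm_mul, norm_mul, Complex.norm_I, one_mul, Complex.norm_real,
      RCLike.norm_conj, Real.norm_eq_abs]
    have := mul_le_mul_of_nonneg_right (hγ m hm l)
      (mul_nonneg (norm_nonneg (φ (l + m))) (norm_nonneg (φ l)))
    calc |w (l + m) - w l| * ‖φ (l + m)‖ * (‖a m l‖ * ‖φ l‖)
        = |w (l + m) - w l| * ‖a m l‖ * (‖φ (l + m)‖ * ‖φ l‖) := by ring
      _ ≤ _ := this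
  have hs := (summable_mul_norm hsq' hsq).mul_left (γ m)
  refine (tsum_of_norm_bounded hs.hasSum hb).trans ?_
  rw [tsum_mul_left]
  apply mul_le_mul_of_nonneg_left _ hγ0
  refine (tsum_mul_norm_le hsq' hsq).trans ?_
  rw [hnm', sq]

end Pool.Agent.DED
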