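import Pool.Agent.DED.Sym

open scoped BigOperators ComplexConjugate

noncomputable section

namespace Pool.Agent.DED

/-- cutoff: 1 on `x ≤ 1`, 0 on `x ≥ 2` -/
def chi (x : ℝ) : ℝ := max 0 (min 1 (2 - x))

lemma chi_nonneg (x : ℝ) : 0 ≤ chi x := le_max_left _ _
lemma chi_le_one (x : ℝ) : chi x ≤ 1 := max_le zero_le_one (min_le_left _ _)
lemma chi_zero {x : ℝ} (h : 2 ≤ x) : chi x = 0 := by
  unfold chi
  apply max_eq_left
  exact (min_le_right _ _).trans (by linarith)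
lemma chi_one {x : ℝ} (h : x ≤ 1) : chi x = 1 := by
  unfold chi
  rw [min_eq_left (by linarith)]
  exact max_eq_right zero_le_one
lemma chi_lip (x y : ℝ) : |chi x - chi y| ≤ |x - y| := by
  unfold chi
  have h1 : |max 0 (min 1 (2 - x)) - max 0 (min 1 (2 - y))| ≤
      |min 1 (2 - x) - min 1 (2 - y)| := by
    refine (abs_max_sub_max_le_max _ _ _ _).trans ?_
    rw [sub_self, abs_zero, max_eq_right (abs_nonneg _)]
  refine h1.trans ?_
  refine (abs_min_sub_min_le_max _ _ _ _).trans ?_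
  rw [sub_self, abs_zero, max_eq_right (abs_nonneg _)]
  rw [show (2 - x) - (2 - y) = -(x - y) by ring, abs_neg]

/-- one sided cutoff: 0 for `w ≤ D`, 1 for `w ≥ 2 D` -/
def hp (D w : ℝ) : ℝ := max 0 (min 1 (w / D - 1))

lemma hp_nonneg (D w : ℝ) : 0 ≤ hp D w := le_max_left _ _
lemma hp_le_one (D w : ℝ) : hp D w ≤ 1 := max_le zero_le_one (min_le_left _ _)
lemma hp_zero {D w : ℝ} (hD : 0 < D) (h : w ≤ D) : hp D w = 0 := by
  unfold hp
  apply max_eq_left
  refine (min_le_right _ _).trans ?_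
  rw [sub_nonpos, div_le_one hD]
  exact h
lemma hp_one {D w : ℝ} (hD : 0 < D) (h : 2 * D ≤ w) : hp D w = 1 := by
  unfold hp
  have : 1 ≤ w / D - 1 := by
    rw [le_sub_iff_add_le, le_div_iff₀ hD]
    linarith
  rw [min_eq_left this]
  exact max_eq_right zero_le_one
lemma hp_lip {D : ℝ} (hD : 0 < D) (x y : ℝ) : |hp D x - hp D y| ≤ |x - y| / D := by
  unfold hp
  have h1 : |max 0 (min 1 (x / D - 1)) - max 0 (min 1 (y / D - 1))| ≤
      |min 1 (x / D - 1) - min 1 (y / D - 1)| := by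
    refine (abs_max_sub_max_le_max _ _ _ _).trans ?_
    rw [sub_self, abs_zero, max_eq_right (abs_nonneg _)]
  refine h1.trans ?_
  refine (abs_min_sub_min_le_max _ _ _ _).trans ?_
  rw [sub_self, abs_zero, max_eq_right (abs_nonneg _)]
  rw [show x / D - 1 - (y / D - 1) = (x - y) / D by ring, abs_div, abs_of_pos hD]

/-- the two sided non-resonance function -/
def hh (D w : ℝ) : ℝ := hp D w + hp D (-w)

lemma hh_nonneg (D w : ℝ) : 0 ≤ hh D w := add_nonneg (hp_nonneg _ _) (hp_nonneg _ _)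
lemma hh_le_one {D : ℝ} (hD : 0 < D) (w : ℝ) : hh D w ≤ 1 := by
  unfold hh
  rcases le_total w 0 with h | h
  · rw [hp_zero hD (h.trans hD.le), zero_add]
    exact hp_le_one _ _
  · rw [hp_zero (w := -w) hD (by linarith), add_zero]
    exact hp_le_one _ _
lemma hh_neg (D w : ℝ) : hh D (-w) = hh D w := by
  unfold hh
  rw [neg_neg, add_comm]
lemma hh_one {D w : ℝ} (hD : 0 < D) (h : 2 * D ≤ |w|) : hh D w = 1 := by
  apply le_antisymm (hh_le_one hD w)
  unfold hh
  rcases le_total w 0 with h' | h'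
  · rw [abs_of_nonpos h'] at h
    rw [hp_one (w := -w) hD h]
    linarith [hp_nonneg D w]
  · rw [abs_of_nonneg h'] at h
    rw [hp_one hD h]
    linarith [hp_nonneg D (-w)]
lemma hh_lip {D : ℝ} (hD : 0 < D) (x y : ℝ) : |hh D x - hh D y| ≤ 2 * |x - y| / D := by
  unfold hh
  have h1 := hp_lip hD x y
  have h2 := hp_lip hD (-x) (-y)
  rw [show -x - -y = -(x - y) by ring, abs_neg] at h2
  have h3 : hp D x + hp D (-x) - (hp D y + hp D (-y)) =
    (hp D x - hp D y) + (hp D (-x) - hp D (-y)) := by ring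
  rw [h3]
  refine (abs_add_le _ _).trans ?_
  have : 2 * |x - y| / D = |x - y| / D + |x - y| / D := by ring
  linarith

/-- frequency cutoff, symmetric under `l ↦ l + m`, `m ↦ -m` -/
def ze (μ : ℝ) (m l : K) : ℝ := chi (si (l + (l + m)) / (16 * μ))

lemma ze_nonneg (μ : ℝ) (m l : K) : 0 ≤ ze μ m l := chi_nonneg _
lemma ze_le_one (μ : ℝ) (m l : K) : ze μ m l ≤ 1 := chi_le_one _

lemma ze_symm (μ : ℝ) (m l : K) : ze μ (-m) (l + m) = ze μ m l := by
  unfold ze
  congr 3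
  abel

lemma si_two (l : K) : si (l + l) = 2 * si l := by
  unfold si
  push_cast [Prod.fst_add, Prod.snd_add]
  rw [← two_mul, ← two_mul, abs_mul, abs_mul, abs_two, mul_max_of_nonneg _ _ (by norm_num)]

lemma two_si_le (m l : K) : 2 * si l ≤ si (l + (l + m)) + si m := by
  rw [← si_two]
  have := si_add (l + (l + m)) (-m)
  rw [si_neg] at this
  refine le_trans (le_of_eq ?_) this
  congr 1
  abel

lemma si_two_le (m l : K) : si (l + (l + m)) ≤ 2 * si l + si m := by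
  rw [← si_two, ← add_assoc]
  exact si_add _ _

lemma ze_support {μ : ℝ} (hμ : 0 < μ) {m l : K} (hm : si m ≤ μ) (h : ze μ m l ≠ 0) :
    si l ≤ 17 * μ := by
  by_contra hc
  push Not at hc
  apply h
  unfold ze
  apply chi_zero
  rw [le_div_iff₀ (by positivity)]
  have := two_si_le m l
  linarith

lemma ze_one {μ : ℝ} (hμ : 0 < μ) {m l : K} (hm : si m ≤ μ) (h : ze μ m l ≠ 1) :
    7 * μ ≤ si l := by
  by_contra hc
  push Not at hc
  apply h
  unfold ze
  apply chi_one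
  rw [div_le_one (by positivity)]
  have := si_two_le m l
  linarith

lemma si_sub_abs (a b : K) : |si a - si b| ≤ si (a - b) := by
  rw [abs_le]
  constructor
  · have := si_add (b - a) a
    rw [sub_add_cancel] at this
    have h2 := si_neg (b - a)
    rw [neg_sub] at h2
    linarith
  · have := si_add (a - b) b
    rw [sub_add_cancel] at this
    linarith

lemma ze_lip {μ : ℝ} (hμ : 0 < μ) (m l p : K) : |ze μ m (l + p) - ze μ m l| ≤ si p / (8 * μ) := by
  unfold ze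
  refine (chi_lip _ _).trans ?_
  rw [← sub_div, abs_div, abs_of_pos (show 0 < 16 * μ by positivity)]
  have h1 := si_sub_abs (l + p + (l + p + m)) (l + (l + m))
  have h2 : l + p + (l + p + m) - (l + (l + m)) = p + p := by abel
  rw [h2, si_two] at h1
  rw [div_le_div_iff₀ (by positivity) (by positivity)]
  nlinarith

lemma om_neg (m l : K) : om (-m) (l + m) = - om m l := by
  unfold om
  rw [add_neg_cancel_right]
  ring

lemma om_add (m l p : K) : om m (l + p) - om m l =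
    2 * ((m.1 : ℝ) * p.1 + (m.2 : ℝ) * p.2) := by
  unfold om N
  push_cast [Prod.fst_add, Prod.snd_add]
  ring

lemma om_lip (m l p : K) : |om m (l + p) - om m l| ≤ 4 * si m * si p := by
  rw [om_add]
  have h1 : |(m.1 : ℝ)| ≤ si m := le_max_left _ _
  have h2 : |(m.2 : ℝ)| ≤ si m := le_max_right _ _
  have h3 : |(p.1 : ℝ)| ≤ si p := le_max_left _ _
  have h4 : |(p.2 : ℝ)| ≤ si p := le_max_right _ _
  rw [abs_mul, abs_two]
  have h5 : |(m.1 : ℝ) * p.1| ≤ si m * si p := by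
    rw [abs_mul]; exact mul_le_mul h1 h3 (abs_nonneg _) (si_nonneg _)
  have h6 : |(m.2 : ℝ) * p.2| ≤ si m * si p := by
    rw [abs_mul]; exact mul_le_mul h2 h4 (abs_nonneg _) (si_nonneg _)
  have := abs_add_le ((m.1 : ℝ) * p.1) ((m.2 : ℝ) * p.2)
  linarith

/-- the coupling coefficient `l · v_m` -/
def al (v : K → ℂ × ℂ) (m l : K) : ℂ := (l.1 : ℂ) * (v m).1 + (l.2 : ℂ) * (v m).2

lemma al_bound {v : K → ℂ × ℂ} {U : K → ℝ} (hv : ∀ m, ‖(v m).1‖ + ‖(v m).2‖ ≤ U m) (m l : K) :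
    ‖al v m l‖ ≤ si l * U m := by
  unfold al
  have h1 : |(l.1 : ℝ)| ≤ si l := le_max_left _ _
  have h2 : |(l.2 : ℝ)| ≤ si l := le_max_right _ _
  have e1 : ‖(l.1 : ℂ)‖ = |(l.1 : ℝ)| := by
    rw [Complex.norm_intCast]
  have e2 : ‖(l.2 : ℂ)‖ = |(l.2 : ℝ)| := by
    rw [Complex.norm_intCast]
  calc ‖(l.1 : ℂ) * (v m).1 + (l.2 : ℂ) * (v m).2‖
      ≤ ‖(l.1 : ℂ) * (v m).1‖ + ‖(l.2 : ℂ) * (v m).2‖ := norm_add_le _ _
    _ = |(l.1 : ℝ)| * ‖(v m).1‖ + |(l.2 : ℝ)| * ‖(v m).2‖ := by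
        rw [norm_mul, norm_mul, e1, e2]
    _ ≤ si l * ‖(v m).1‖ + si l * ‖(v m).2‖ := by gcongr
    _ = si l * (‖(v m).1‖ + ‖(v m).2‖) := by ring
    _ ≤ si l * U m := by gcongr; exacts [si_nonneg _, hv m]

lemma al_add (v : K → ℂ × ℂ) (m l p : K) : al v m (l + p) = al v m l + al v m p := by
  unfold al
  push_cast [Prod.fst_add, Prod.snd_add]
  ring

lemma al_symm {v : K → ℂ × ℂ} (hs : ∀ m, (v (-m)).1 = conj (v m).1 ∧ (v (-m)).2 = conj (v m).2)
    (hd : ∀ m : K, (m.1 : ℂ) * (v m).1 + (m.2 : ℂ) * (v m).2 = 0) (m l : K) :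
    al v (-m) (l + m) = conj (al v m l) := by
  have h0 : al v m m = 0 := hd m
  have h1 : al v m (l + m) = al v m l := by rw [al_add, h0, add_zero]
  rw [← h1]
  unfold al
  rw [(hs m).1, (hs m).2]
  simp only [map_add, map_mul, map_intCast]

end Pool.Agent.DED
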