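import Pool.Agent.DED.StepMain

open scoped BigOperators ComplexConjugate
open MeasureTheory Set

noncomputable section

namespace Pool.Agent.DED

lemma norm_le_nm {f : K → ℂ} (hf : Sq f) (k : K) : ‖f k‖ ≤ nm f := by
  have h := lp.norm_apply_le_norm (p := 2) (by norm_num) hf.toLp k
  rw [hf.norm_toLp] at h
  exact h

/-- Minkowski inequality for infinite sums in `l^2` -/
lemma nm_tsum_le {g : K → K → ℂ} {γ : K → ℝ} (hg : ∀ m, Sq (g m)) (hγ : Summable γ)
    (h : ∀ m, nm (g m) ≤ γ m) :
    Sq (fun k => ∑' m, g m k) ∧ nm (fun k => ∑' m, g m k) ≤ ∑' m, γ m := by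
  have h1 : Summable (fun m => (hg m).toLp) := by
    apply Summable.of_norm_bounded hγ
    intro m
    rw [(hg m).norm_toLp]
    exact h m
  have h2 : (fun k => ∑' m, g m k) = fun k => (∑' m, (hg m).toLp : lp (fun _ : K => ℂ) 2) k := by
    funext k
    have h3 := (lp.evalCLM (𝕜 := ℂ) (E := fun _ : K => ℂ) (p := 2) k).map_tsum h1
    exact h3.symm
  rw [h2]
  refine ⟨Sq.of_lp _, ?_⟩
  have h4 : nm (fun k => (∑' m, (hg m).toLp : lp (fun _ : K => ℂ) 2) k) =
      ‖(∑' m, (hg m).toLp : lp (fun _ : K => ℂ) 2)‖ := by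
    rw [← (Sq.of_lp (∑' m, (hg m).toLp)).norm_toLp]
    rfl
  rw [h4]
  have h5 : Summable (fun m => ‖(hg m).toLp‖) := by
    apply Summable.of_nonneg_of_le (fun m => norm_nonneg _) _ hγ
    intro m
    rw [(hg m).norm_toLp]
    exact h m
  refine (norm_tsum_le_tsum_norm h5).trans ?_
  apply Summable.tsum_le_tsum _ h5 hγ
  intro m
  rw [(hg m).norm_toLp]
  exact h m

/-- the coupling term -/
def cpl (v : K → ℂ × ℂ) (c : K → ℂ) (k : K) : ℂ := ∑' m, al v m (k - m) * c (k - m)

/-- the part of the coupling term with large velocity frequencies -/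
def tail (F : Finset K) (v : K → ℂ × ℂ) (c : K → ℂ) (k : K) : ℂ :=
  ∑' m, if m ∈ F then 0 else al v m (k - m) * c (k - m)

variable {v : K → ℂ × ℂ} {U : K → ℝ} {c : K → ℂ}

lemma al_mul_le (hv : Vel v U) (m l : K) (x : ℂ) :
    ‖al v m l * x‖ ≤ U m * ‖((eu l : ℝ) : ℂ) * x‖ := by
  rw [norm_mul, norm_mul, norm_real_nonneg (eu_nonneg l), ← mul_assoc]
  apply mul_le_mul_of_nonneg_right _ (norm_nonneg _)
  refine (al_bound hv.bd m l).trans ?_
  rw [mul_comm]
  exact mul_le_mul_of_nonneg_left (si_le_eu l) (hv.U_nonneg m)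

lemma cpl_summable (hv : Vel v U) (hU : Summable U) (hg : Sq (gr c)) (k : K) :
    Summable (fun m => al v m (k - m) * c (k - m)) := by
  apply Summable.of_norm_bounded (g := fun m => U m * nm (gr c)) (hU.mul_right _)
  intro m
  refine (al_mul_le hv m (k - m) _).trans ?_
  apply mul_le_mul_of_nonneg_left _ (hv.U_nonneg m)
  exact norm_le_nm hg (k - m)

lemma cpl_split (hv : Vel v U) (hU : Summable U) (hg : Sq (gr c)) (F : Finset K) (k : K) :
    cpl v c k = op F (al v) c k + tail F v c k := by
  have h := cpl_summable hv hU hg k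
  have h1 : Summable (fun m => if m ∈ F then al v m (k - m) * c (k - m) else 0) := by
    apply summable_of_hasFiniteSupport
    apply F.finite_toSet.subset
    intro m hm
    by_contra hc
    have hc' : m ∉ F := hc
    simp [hc'] at hm
  have h2 : (fun m => if m ∈ F then 0 else al v m (k - m) * c (k - m)) =
      fun m => al v m (k - m) * c (k - m) -
        (if m ∈ F then al v m (k - m) * c (k - m) else 0) := by
    funext m
    split_ifs <;> simp
  have h3 : ∑' m, (if m ∈ F then al v m (k - m) * c (k - m) else 0) = op F (al v) c k := by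
    rw [tsum_eq_sum (s := F)]
    · unfold op
      apply Finset.sum_congr rfl
      intro m hm
      rw [if_pos hm]
    · intro m hm
      rw [if_neg hm]
  unfold tail
  rw [h2, h.tsum_sub h1, h3]
  unfold cpl
  ring

lemma tail_bound (hv : Vel v U) (hU : Summable U) (hg : Sq (gr c)) (F : Finset K) :
    Sq (fun k => Complex.I * tail F v c k) ∧ nm (fun k => Complex.I * tail F v c k) ≤
      (∑' m, if m ∈ F then 0 else U m) * nm (gr c) := by
  have h0 : ∀ m, Sq (fun l => al v m l * c l) := fun m => hg.of_le_mul (al_mul_le hv m · _)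
  have h0' : ∀ m, nm (fun l => al v m l * c l) ≤ U m * nm (gr c) := fun m =>
    nm_le_mul hg (hv.U_nonneg m) (al_mul_le hv m · _)
  have hs : Summable (fun m => if m ∈ F then 0 else U m) := by
    apply Summable.of_nonneg_of_le _ _ hU
    · intro m
      split_ifs
      · exact le_rfl
      · exact hv.U_nonneg m
    · intro m
      split_ifs
      · exact hv.U_nonneg m
      · exact le_rfl
  have h := nm_tsum_le (g := fun m k => if m ∈ F then 0 else al v m (k - m) * c (k - m))
    (γ := fun m => (if m ∈ F then 0 else U m) * nm (gr c))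
    (by
      intro m
      by_cases hm : m ∈ F
      · simp only [hm, if_true]
        exact Sq.zero
      · simp only [hm, if_false]
        exact (h0 m).shift m)
    (hs.mul_right _)
    (by
      intro m
      by_cases hm : m ∈ F
      · simp only [hm, if_true, zero_mul]
        rw [nm_zero]
      · simp only [hm, if_false]
        have := nm_shift (fun l => al v m l * c l) m
        rw [this]
        exact h0' m)
  have e : (fun k => ∑' m, if m ∈ F then 0 else al v m (k - m) * c (k - m)) = tail F v c := rfl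
  rw [e] at h
  refine ⟨h.1.const_mul _, ?_⟩
  rw [nm_const_mul, Complex.norm_I, one_mul]
  refine h.2.trans ?_
  rw [tsum_mul_right]

end Pool.Agent.DED
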