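import Pool.Agent.DED.Iter

open scoped BigOperators ComplexConjugate Topology
open MeasureTheory Set Filter

noncomputable section

namespace Pool.Agent.DED

/-- normalised Lebesgue measure on a period interval -/
def mu1 : Measure ℝ := ENNReal.ofReal (1 / (2 * Real.pi)) • volume.restrict (Ioc 0 (2 * Real.pi))

/-- normalised Lebesgue measure on a period cell -/
def mu2 : Measure (ℝ × ℝ) := mu1.prod mu1

instance : IsProbabilityMeasure mu1 := by
  constructor
  unfold mu1
  rw [Measure.smul_apply, Measure.restrict_apply_univ, Real.volume_Ioc, sub_zero, smul_eq_mul,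
    ← ENNReal.ofReal_mul (by positivity)]
  rw [one_div, inv_mul_cancel₀ (by positivity), ENNReal.ofReal_one]

instance : IsProbabilityMeasure mu2 := by
  unfold mu2
  infer_instance

/-- the representative of a point of the circle -/
def r1 (z : UnitAddCircle) : ℝ := 2 * Real.pi * ((AddCircle.equivIoc 1 0 z : Ioc (0 : ℝ) (0 + 1)) : ℝ)

lemma r1_mp : MeasurePreserving r1 AddCircle.haarAddCircle mu1 := by
  have h1 : MeasurePreserving (AddCircle.equivIoc (1 : ℝ) 0) (AddCircle.haarAddCircle)
      (Measure.comap Subtype.val volume) := by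
    have := AddCircle.measurePreserving_equivIoc 1 (a := 0)
    rw [AddCircle.volume_eq_smul_haarAddCircle, ENNReal.ofReal_one, one_smul] at this
    exact this
  have h2 : MeasurePreserving (Subtype.val : Ioc (0 : ℝ) (0 + 1) → ℝ)
      (Measure.comap Subtype.val volume) (volume.restrict (Ioc (0 : ℝ) (0 + 1))) :=
    ⟨measurable_subtype_coe, map_comap_subtype_coe measurableSet_Ioc volume⟩
  have h3 : MeasurePreserving (fun x : ℝ => 2 * Real.pi * x)
      (volume.restrict (Ioc (0 : ℝ) (0 + 1))) mu1 := by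
    refine ⟨by fun_prop, ?_⟩
    have e1 : Ioc (0 : ℝ) (0 + 1) = (fun x : ℝ => 2 * Real.pi * x) ⁻¹' Ioc 0 (2 * Real.pi) := by
      ext x
      have hp := Real.two_pi_pos
      simp only [mem_Ioc, zero_add, mem_preimage]
      constructor
      · rintro ⟨h1, h2⟩
        exact ⟨by positivity, by nlinarith⟩
      · rintro ⟨h1, h2⟩
        exact ⟨by
          by_contra hc
          push Not at hc
          nlinarith, by
          by_contra hc
          push Not at hc
          nlinarith⟩
    rw [e1, ← Measure.restrict_map (by fun_prop) measurableSet_Ioc]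
    rw [Real.map_volume_mul_left (by positivity), Measure.restrict_smul]
    unfold mu1
    rw [abs_of_pos (by positivity), one_div]
  exact h3.comp (h2.comp h1)

/-- The measure on `ℝ / ℤ` is the Haar measure. -/
local instance : MeasureSpace UnitAddCircle := ⟨AddCircle.haarAddCircle⟩

local instance : Measure.IsAddHaarMeasure (volume : Measure UnitAddCircle) :=
  inferInstanceAs (Measure.IsAddHaarMeasure AddCircle.haarAddCircle)

local instance : IsProbabilityMeasure (volume : Measure UnitAddCircle) :=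
  inferInstanceAs (IsProbabilityMeasure AddCircle.haarAddCircle)

/-- representative of a point on the torus -/
def r2 (z : UnitAddTorus (Fin 2)) : ℝ × ℝ := (r1 (z 0), r1 (z 1))

lemma r2_mp : MeasurePreserving r2 (volume : Measure (UnitAddTorus (Fin 2))) mu2 := by
  have h1 : MeasurePreserving (MeasurableEquiv.finTwoArrow (α := UnitAddCircle))
      (volume : Measure (UnitAddTorus (Fin 2))) (AddCircle.haarAddCircle.prod AddCircle.haarAddCircle) :=
    measurePreserving_finTwoArrow AddCircle.haarAddCircle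
  have h2 := r1_mp.prod r1_mp
  exact h2.comp h1

/-- the exponentials -/
def ex (k : K) (x : ℝ × ℝ) : ℂ :=
  Complex.exp (Complex.I * ((k.1 : ℂ) * (x.1 : ℂ) + (k.2 : ℂ) * (x.2 : ℂ)))

/-- Fourier coefficients -/
def fc (f : ℝ × ℝ → ℂ) (k : K) : ℂ := ∫ x, ex (-k) x * f x ∂mu2

lemma fourier_r1 (n : ℤ) (z : UnitAddCircle) :
    fourier n z = Complex.exp (Complex.I * ((n : ℂ) * (r1 z : ℂ))) := by
  have h1 : ((AddCircle.equivIoc 1 0 z : Ioc (0 : ℝ) (0 + 1)) : ℝ) = (z : UnitAddCircle) :=
    AddCircle.coe_equivIoc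
  conv_lhs => rw [← h1]
  rw [fourier_coe_apply]
  congr 1
  unfold r1
  push_cast
  ring

lemma mFourier_r2 (n : Fin 2 → ℤ) (z : UnitAddTorus (Fin 2)) :
    UnitAddTorus.mFourier n z = ex (n 0, n 1) (r2 z) := by
  unfold UnitAddTorus.mFourier ex r2
  rw [ContinuousMap.coe_mk, Fin.prod_univ_two, fourier_r1, fourier_r1, ← Complex.exp_add]
  congr 1
  ring

lemma parseval {a b : ℝ × ℝ → ℂ} (ha : MemLp a 2 mu2) (hb : MemLp b 2 mu2) :
    HasSum (fun k : K => conj (fc a k) * fc b k) (∫ x, conj (a x) * b x ∂mu2) := by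
  have ha' : MemLp (a ∘ r2) 2 (volume : Measure (UnitAddTorus (Fin 2))) :=
    ha.comp_measurePreserving r2_mp
  have hb' : MemLp (b ∘ r2) 2 (volume : Measure (UnitAddTorus (Fin 2))) :=
    hb.comp_measurePreserving r2_mp
  have h := UnitAddTorus.hasSum_prod_mFourierCoeff ha'.toLp hb'.toLp
  have key : ∀ {g : ℝ × ℝ → ℂ} (hg : MemLp g 2 mu2)
      (hg' : MemLp (g ∘ r2) 2 (volume : Measure (UnitAddTorus (Fin 2)))) (n : Fin 2 → ℤ),
      UnitAddTorus.mFourierCoeff hg'.toLp n = fc g (n 0, n 1) := by
    intro g hg hg' n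
    unfold UnitAddTorus.mFourierCoeff fc
    have h1 : ∫ t, UnitAddTorus.mFourier (-n) t • (MemLp.toLp (g ∘ r2) hg') t =
        ∫ t, (fun x => ex (-(n 0, n 1)) x * g x) (r2 t) := by
      apply integral_congr_ae
      filter_upwards [hg'.coeFn_toLp] with t ht
      rw [ht, mFourier_r2, smul_eq_mul]
      rfl
    rw [h1]
    have h2 : AEStronglyMeasurable (fun x => ex (-(n 0, n 1)) x * g x) mu2 := by
      apply AEStronglyMeasurable.mul _ hg.1
      apply Continuous.aestronglyMeasurable
      unfold ex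
      fun_prop
    rw [← r2_mp.map_eq] at h2 ⊢
    exact (integral_map r2_mp.measurable.aemeasurable h2).symm
  have h2 : ∫ t, conj ((MemLp.toLp (a ∘ r2) ha') t) * (MemLp.toLp (b ∘ r2) hb') t = ∫ x, conj (a x) * b x ∂mu2 := by
    have h3 : ∫ t, conj ((MemLp.toLp (a ∘ r2) ha') t) * (MemLp.toLp (b ∘ r2) hb') t =
        ∫ t, (fun x => conj (a x) * b x) (r2 t) := by
      apply integral_congr_ae
      filter_upwards [ha'.coeFn_toLp, hb'.coeFn_toLp] with t ht1 ht2
      rw [ht1, ht2]
      rfl
    rw [h3]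
    have h4 : AEStronglyMeasurable (fun x => conj (a x) * b x) mu2 := by
      apply AEStronglyMeasurable.mul _ hb.1
      exact Complex.continuous_conj.comp_aestronglyMeasurable ha.1
    rw [← r2_mp.map_eq] at h4 ⊢
    exact (integral_map r2_mp.measurable.aemeasurable h4).symm
  rw [h2] at h
  simp only [key ha ha', key hb hb'] at h
  exact (finTwoArrowEquiv ℤ).hasSum_iff.1 h

end Pool.Agent.DED
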