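import Pool.Agent.DED.Torus

open scoped BigOperators ComplexConjugate Topology ContDiff
open MeasureTheory Set Filter

noncomputable section

namespace Pool.Agent.DED

/-- the half open period cell -/
def cell : Set (ℝ × ℝ) := Ioc 0 (2 * Real.pi) ×ˢ Ioc 0 (2 * Real.pi)

/-- functions that are `2π`-periodic in both variables -/
def Periodic2 {E : Type*} (f : ℝ × ℝ → E) : Prop :=
  ∀ x : ℝ × ℝ, f (x.1 + 2 * Real.pi, x.2) = f x ∧ f (x.1, x.2 + 2 * Real.pi) = f x

/-- first partial derivative -/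
def D1 {E : Type*} [NormedAddCommGroup E] [NormedSpace ℝ E] (f : ℝ × ℝ → E) (x : ℝ × ℝ) : E :=
  fderiv ℝ f x (1, 0)

/-- second partial derivative -/
def D2 {E : Type*} [NormedAddCommGroup E] [NormedSpace ℝ E] (f : ℝ × ℝ → E) (x : ℝ × ℝ) : E :=
  fderiv ℝ f x (0, 1)

lemma mu2_eq : mu2 = ENNReal.ofReal (1 / (2 * Real.pi) ^ 2) • volume.restrict cell := by
  unfold mu2 mu1 cell
  rw [Measure.prod_smul_left, Measure.prod_smul_right, smul_smul, Measure.prod_restrict,
    ← ENNReal.ofReal_mul (by positivity)]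
  congr 2
  field_simp

lemma mu2_ae : ∀ᵐ x ∂mu2, x ∈ cell := by
  rw [mu2_eq]
  apply Measure.ae_smul_measure
  exact ae_restrict_mem (measurableSet_Ioc.prod measurableSet_Ioc)

lemma cell_subset : cell ⊆ Icc 0 (2 * Real.pi) ×ˢ Icc 0 (2 * Real.pi) :=
  prod_mono Ioc_subset_Icc_self Ioc_subset_Icc_self

lemma cont_bdd {E : Type*} [NormedAddCommGroup E] {f : ℝ × ℝ → E} (hf : Continuous f) :
    ∃ C, ∀ x ∈ cell, ‖f x‖ ≤ C := by
  have hK : IsCompact (Icc (0 : ℝ) (2 * Real.pi) ×ˢ Icc (0 : ℝ) (2 * Real.pi)) :=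
    isCompact_Icc.prod isCompact_Icc
  obtain ⟨C, hC⟩ := hK.exists_bound_of_continuousOn hf.continuousOn
  exact ⟨C, fun x hx => hC x (cell_subset hx)⟩

lemma cont_memLp {f : ℝ × ℝ → ℂ} (hf : Continuous f) (p : ENNReal) : MemLp f p mu2 := by
  obtain ⟨C, hC⟩ := cont_bdd hf
  apply MemLp.of_bound hf.aestronglyMeasurable C
  filter_upwards [mu2_ae] with x hx
  exact hC x hx

lemma cont_int {f : ℝ × ℝ → ℂ} (hf : Continuous f) : Integrable f mu2 :=
  memLp_one_iff_integrable.1 (cont_memLp hf 1)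

lemma int_mu1 (g : ℝ → ℂ) :
    ∫ x, g x ∂mu1 = ((1 / (2 * Real.pi) : ℝ) : ℂ) * ∫ x in (0 : ℝ)..(2 * Real.pi), g x := by
  unfold mu1
  rw [integral_smul_measure, intervalIntegral.integral_of_le (by positivity),
    ENNReal.toReal_ofReal (by positivity)]
  rfl

lemma hasDerivAt_fst {g : ℝ × ℝ → ℂ} (hg : ContDiff ℝ 1 g) (x y : ℝ) :
    HasDerivAt (fun x => g (x, y)) (D1 g (x, y)) x := by
  have h1 : HasFDerivAt g (fderiv ℝ g (x, y)) (x, y) :=
    (hg.differentiable (by norm_num) _).hasFDerivAt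
  exact h1.comp_hasDerivAt x ((hasDerivAt_id x).prodMk (hasDerivAt_const x y))

lemma hasDerivAt_snd {g : ℝ × ℝ → ℂ} (hg : ContDiff ℝ 1 g) (x y : ℝ) :
    HasDerivAt (fun y => g (x, y)) (D2 g (x, y)) y := by
  have h1 : HasFDerivAt g (fderiv ℝ g (x, y)) (x, y) :=
    (hg.differentiable (by norm_num) _).hasFDerivAt
  exact h1.comp_hasDerivAt y ((hasDerivAt_const y x).prodMk (hasDerivAt_id y))

lemma D1_cont {g : ℝ × ℝ → ℂ} (hg : ContDiff ℝ 1 g) : Continuous (D1 g) := by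
  have := hg.continuous_fderiv (by norm_num)
  unfold D1
  fun_prop

lemma D2_cont {g : ℝ × ℝ → ℂ} (hg : ContDiff ℝ 1 g) : Continuous (D2 g) := by
  have := hg.continuous_fderiv (by norm_num)
  unfold D2
  fun_prop

lemma int_D1 {g : ℝ × ℝ → ℂ} (hg : ContDiff ℝ 1 g) (hp : Periodic2 g) :
    ∫ x, D1 g x ∂mu2 = 0 := by
  have hc := D1_cont hg
  have hi : Integrable (D1 g) (mu1.prod mu1) := cont_int hc
  unfold mu2
  rw [integral_prod_symm _ hi]
  have h : ∀ y, ∫ x, D1 g (x, y) ∂mu1 = 0 := by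
    intro y
    rw [int_mu1, intervalIntegral.integral_eq_sub_of_hasDerivAt
      (fun x _ => hasDerivAt_fst hg x y)]
    · have := (hp (0, y)).1
      simp only [zero_add] at this
      rw [this, sub_self, mul_zero]
    · apply Continuous.intervalIntegrable
      fun_prop
  simp [h]

lemma int_D2 {g : ℝ × ℝ → ℂ} (hg : ContDiff ℝ 1 g) (hp : Periodic2 g) :
    ∫ x, D2 g x ∂mu2 = 0 := by
  have hc := D2_cont hg
  have hi : Integrable (D2 g) (mu1.prod mu1) := cont_int hc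
  unfold mu2
  rw [integral_prod _ hi]
  have h : ∀ x, ∫ y, D2 g (x, y) ∂mu1 = 0 := by
    intro x
    rw [int_mu1, intervalIntegral.integral_eq_sub_of_hasDerivAt
      (fun y _ => hasDerivAt_snd hg x y)]
    · have := (hp (x, 0)).2
      simp only [zero_add] at this
      rw [this, sub_self, mul_zero]
    · apply Continuous.intervalIntegrable
      fun_prop
  simp [h]

lemma ex_contDiff (k : K) {n : WithTop ℕ∞} : ContDiff ℝ n (ex k) := by
  unfold ex
  have h1 : ContDiff ℝ n (fun x : ℝ × ℝ => (x.1 : ℂ)) :=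
    Complex.ofRealCLM.contDiff.comp contDiff_fst
  have h2 : ContDiff ℝ n (fun x : ℝ × ℝ => (x.2 : ℂ)) :=
    Complex.ofRealCLM.contDiff.comp contDiff_snd
  exact (contDiff_const.mul ((contDiff_const.mul h1).add (contDiff_const.mul h2))).cexp

lemma ex_periodic (k : K) : Periodic2 (ex k) := by
  intro x
  unfold ex
  constructor
  · rw [Complex.exp_eq_exp_iff_exists_int]
    refine ⟨k.1, ?_⟩
    push_cast
    ring
  · rw [Complex.exp_eq_exp_iff_exists_int]
    refine ⟨k.2, ?_⟩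
    push_cast
    ring

lemma Periodic2.mul {f g : ℝ × ℝ → ℂ} (hf : Periodic2 f) (hg : Periodic2 g) :
    Periodic2 (fun x => f x * g x) := by
  intro x
  beta_reduce
  rw [(hf x).1, (hg x).1, (hf x).2, (hg x).2]
  exact ⟨rfl, rfl⟩

lemma D1_ex (k : K) (x : ℝ × ℝ) : D1 (ex k) x = Complex.I * (k.1 : ℂ) * ex k x := by
  have h1 := hasDerivAt_fst (ex_contDiff k) x.1 x.2
  have h2 : HasDerivAt (fun t : ℝ => ex k (t, x.2)) (Complex.I * (k.1 : ℂ) * ex k x) x.1 := by
    unfold ex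
    have h3 : HasDerivAt (fun t : ℝ => (t : ℂ)) 1 x.1 := Complex.ofRealCLM.hasDerivAt
    have h4 := (((h3.const_mul (k.1 : ℂ)).add_const ((k.2 : ℂ) * (x.2 : ℂ))).const_mul
      Complex.I).cexp
    convert! h4 using 1
    ring
  exact h1.unique h2

lemma D2_ex (k : K) (x : ℝ × ℝ) : D2 (ex k) x = Complex.I * (k.2 : ℂ) * ex k x := by
  have h1 := hasDerivAt_snd (ex_contDiff k) x.1 x.2
  have h2 : HasDerivAt (fun t : ℝ => ex k (x.1, t)) (Complex.I * (k.2 : ℂ) * ex k x) x.2 := by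
    unfold ex
    have h3 : HasDerivAt (fun t : ℝ => (t : ℂ)) 1 x.2 := Complex.ofRealCLM.hasDerivAt
    have h4 := (((h3.const_mul (k.2 : ℂ)).const_add ((k.1 : ℂ) * (x.1 : ℂ))).const_mul
      Complex.I).cexp
    convert! h4 using 1
    ring
  exact h1.unique h2

lemma D1_mul {f g : ℝ × ℝ → ℂ} (hf : ContDiff ℝ 1 f) (hg : ContDiff ℝ 1 g) (x : ℝ × ℝ) :
    D1 (fun x => f x * g x) x = D1 f x * g x + f x * D1 g x := by
  have h1 := hasDerivAt_fst hf x.1 x.2
  have h2 := hasDerivAt_fst hg x.1 x.2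
  have h3 := hasDerivAt_fst (hf.mul hg) x.1 x.2
  exact h3.unique (h1.mul h2)

lemma D2_mul {f g : ℝ × ℝ → ℂ} (hf : ContDiff ℝ 1 f) (hg : ContDiff ℝ 1 g) (x : ℝ × ℝ) :
    D2 (fun x => f x * g x) x = D2 f x * g x + f x * D2 g x := by
  have h1 := hasDerivAt_snd hf x.1 x.2
  have h2 := hasDerivAt_snd hg x.1 x.2
  have h3 := hasDerivAt_snd (hf.mul hg) x.1 x.2
  exact h3.unique (h1.mul h2)

lemma fc_D1 {f : ℝ × ℝ → ℂ} (hf : ContDiff ℝ 1 f) (hp : Periodic2 f) (k : K) :
    fc (D1 f) k = Complex.I * (k.1 : ℂ) * fc f k := by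
  have h0 := int_D1 ((ex_contDiff (-k)).mul hf) ((ex_periodic (-k)).mul hp)
  have hc := D1_cont hf
  have hf' := hf.continuous
  have he := (ex_contDiff (-k) (n := 1)).continuous
  have h1 : (fun x => D1 (fun x => ex (-k) x * f x) x) =
      fun x => -(Complex.I * (k.1 : ℂ)) * (ex (-k) x * f x) + ex (-k) x * D1 f x := by
    funext x
    rw [D1_mul (ex_contDiff _) hf, D1_ex]
    push_cast [Prod.fst_neg]
    ring
  rw [show (fun x => D1 (fun x => ex (-k) x * f x) x) = D1 (fun x => ex (-k) x * f x) from rfl]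
    at h1
  rw [h1, integral_add (cont_int (by fun_prop)) (cont_int (by fun_prop)),
    integral_const_mul] at h0
  unfold fc
  linear_combination h0

lemma fc_D2 {f : ℝ × ℝ → ℂ} (hf : ContDiff ℝ 1 f) (hp : Periodic2 f) (k : K) :
    fc (D2 f) k = Complex.I * (k.2 : ℂ) * fc f k := by
  have h0 := int_D2 ((ex_contDiff (-k)).mul hf) ((ex_periodic (-k)).mul hp)
  have hc := D2_cont hf
  have hf' := hf.continuous
  have he := (ex_contDiff (-k) (n := 1)).continuous
  have h1 : (fun x => D2 (fun x => ex (-k) x * f x) x) =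
      fun x => -(Complex.I * (k.2 : ℂ)) * (ex (-k) x * f x) + ex (-k) x * D2 f x := by
    funext x
    rw [D2_mul (ex_contDiff _) hf, D2_ex]
    push_cast [Prod.snd_neg]
    ring
  rw [show (fun x => D2 (fun x => ex (-k) x * f x) x) = D2 (fun x => ex (-k) x * f x) from rfl]
    at h1
  rw [h1, integral_add (cont_int (by fun_prop)) (cont_int (by fun_prop)),
    integral_const_mul] at h0
  unfold fc
  linear_combination h0

end Pool.Agent.DED
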