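import Pool.Agent.DED.Torus2
import Pool.Agent.DED.SeqWeak

open scoped BigOperators ComplexConjugate Topology ContDiff
open MeasureTheory Set Filter

noncomputable section

namespace Pool.Agent.DED

section calculus

variable {E : Type*} [NormedAddCommGroup E] [NormedSpace ℝ E] {f : ℝ × ℝ → E}

lemma D1_smooth (hf : ContDiff ℝ ∞ f) : ContDiff ℝ ∞ (D1 f) := by
  unfold D1
  exact (hf.fderiv_right (m := ∞) (by simp)).clm_apply contDiff_const

lemma D2_smooth (hf : ContDiff ℝ ∞ f) : ContDiff ℝ ∞ (D2 f) := by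
  unfold D2
  exact (hf.fderiv_right (m := ∞) (by simp)).clm_apply contDiff_const

lemma fderiv_periodic (hp : Periodic2 f) (x : ℝ × ℝ) :
    fderiv ℝ f (x.1 + 2 * Real.pi, x.2) = fderiv ℝ f x ∧
    fderiv ℝ f (x.1, x.2 + 2 * Real.pi) = fderiv ℝ f x := by
  have h1 : (fun y : ℝ × ℝ => f (y + (2 * Real.pi, 0))) = f := by
    funext y
    have := (hp y).1
    rw [← this]
    congr 1
    ext <;> simp
  have h2 : (fun y : ℝ × ℝ => f (y + (0, 2 * Real.pi))) = f := by
    funext y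
    have := (hp y).2
    rw [← this]
    congr 1
    ext <;> simp
  have e1 : (x.1 + 2 * Real.pi, x.2) = x + (2 * Real.pi, 0) := by ext <;> simp
  have e2 : (x.1, x.2 + 2 * Real.pi) = x + (0, 2 * Real.pi) := by ext <;> simp
  constructor
  · rw [e1, ← fderiv_comp_add_right, h1]
  · rw [e2, ← fderiv_comp_add_right, h2]

lemma D1_periodic (hp : Periodic2 f) : Periodic2 (D1 f) := by
  intro x
  unfold D1
  rw [(fderiv_periodic hp x).1, (fderiv_periodic hp x).2]
  exact ⟨rfl, rfl⟩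

lemma D2_periodic (hp : Periodic2 f) : Periodic2 (D2 f) := by
  intro x
  unfold D2
  rw [(fderiv_periodic hp x).1, (fderiv_periodic hp x).2]
  exact ⟨rfl, rfl⟩

lemma D1_norm (hf : ContDiff ℝ ∞ f) (j : ℕ) (x : ℝ × ℝ) :
    ‖iteratedFDeriv ℝ j (D1 f) x‖ ≤ ‖iteratedFDeriv ℝ (j + 1) f x‖ := by
  have h1 : ContDiff ℝ ∞ (fderiv ℝ f) := hf.fderiv_right (m := ∞) (by simp)
  have h2 := norm_iteratedFDeriv_clm_apply_const (c := ((1 : ℝ), (0 : ℝ))) (n := j)
    (h1.contDiffAt (x := x)) (by exact_mod_cast le_top)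
  rw [norm_iteratedFDeriv_fderiv] at h2
  have h3 : ‖((1 : ℝ), (0 : ℝ))‖ = 1 := by simp [Prod.norm_def]
  rw [h3, one_mul] at h2
  exact h2

lemma D2_norm (hf : ContDiff ℝ ∞ f) (j : ℕ) (x : ℝ × ℝ) :
    ‖iteratedFDeriv ℝ j (D2 f) x‖ ≤ ‖iteratedFDeriv ℝ (j + 1) f x‖ := by
  have h1 : ContDiff ℝ ∞ (fderiv ℝ f) := hf.fderiv_right (m := ∞) (by simp)
  have h2 := norm_iteratedFDeriv_clm_apply_const (c := ((0 : ℝ), (1 : ℝ))) (n := j)
    (h1.contDiffAt (x := x)) (by exact_mod_cast le_top)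
  rw [norm_iteratedFDeriv_fderiv] at h2
  have h3 : ‖((0 : ℝ), (1 : ℝ))‖ = 1 := by simp [Prod.norm_def]
  rw [h3, one_mul] at h2
  exact h2

end calculus

lemma iter_D1 (n : ℕ) : ∀ {f : ℝ × ℝ → ℂ}, ContDiff ℝ ∞ f → Periodic2 f →
    (∀ k : K, fc (D1^[n] f) k = (Complex.I * (k.1 : ℂ)) ^ n * fc f k) ∧
    ∀ x, ‖D1^[n] f x‖ ≤ ‖iteratedFDeriv ℝ n f x‖ := by
  induction n with
  | zero =>
    intro f _ _
    refine ⟨fun k => by simp, fun x => ?_⟩
    rw [norm_iteratedFDeriv_zero]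
    simp
  | succ n ih =>
    intro f hf hp
    obtain ⟨h1, h2⟩ := ih (D1_smooth hf) (D1_periodic hp)
    refine ⟨fun k => ?_, fun x => ?_⟩
    · rw [Function.iterate_succ_apply, h1 k, fc_D1 (hf.of_le (by exact_mod_cast le_top)) hp, pow_succ]
      ring
    · rw [Function.iterate_succ_apply]
      exact (h2 x).trans (D1_norm hf n x)

lemma iter_D2 (n : ℕ) : ∀ {f : ℝ × ℝ → ℂ}, ContDiff ℝ ∞ f → Periodic2 f →
    (∀ k : K, fc (D2^[n] f) k = (Complex.I * (k.2 : ℂ)) ^ n * fc f k) ∧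
    ∀ x, ‖D2^[n] f x‖ ≤ ‖iteratedFDeriv ℝ n f x‖ := by
  induction n with
  | zero =>
    intro f _ _
    refine ⟨fun k => by simp, fun x => ?_⟩
    rw [norm_iteratedFDeriv_zero]
    simp
  | succ n ih =>
    intro f hf hp
    obtain ⟨h1, h2⟩ := ih (D2_smooth hf) (D2_periodic hp)
    refine ⟨fun k => ?_, fun x => ?_⟩
    · rw [Function.iterate_succ_apply, h1 k, fc_D2 (hf.of_le (by exact_mod_cast le_top)) hp, pow_succ]
      ring
    · rw [Function.iterate_succ_apply]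
      exact (h2 x).trans (D2_norm hf n x)

lemma norm_ex (k : K) (x : ℝ × ℝ) : ‖ex k x‖ = 1 := by
  unfold ex
  rw [Complex.norm_exp]
  simp

lemma fc_le {f : ℝ × ℝ → ℂ} {C : ℝ} (h : ∀ x ∈ cell, ‖f x‖ ≤ C) (k : K) : ‖fc f k‖ ≤ C := by
  unfold fc
  have := norm_integral_le_of_norm_le_const (μ := mu2) (f := fun x => ex (-k) x * f x) (C := C)
    (by
      filter_upwards [mu2_ae] with x hx
      rw [norm_mul, norm_ex, one_mul]
      exact h x hx)
  simpa using this

/-- decay of the Fourier coefficients of a smooth function -/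
lemma fc_decay {f : ℝ × ℝ → ℂ} (hf : ContDiff ℝ ∞ f) (hp : Periodic2 f) {n : ℕ} {C : ℝ}
    (hC : 0 ≤ C) (h0 : ∀ x ∈ cell, ‖f x‖ ≤ C) (hn : ∀ x ∈ cell, ‖iteratedFDeriv ℝ n f x‖ ≤ C)
    (k : K) : ‖fc f k‖ ≤ 2 ^ n * C / ws k ^ n := by
  have hws := ws_pos k
  have h1 := fc_le h0 k
  obtain ⟨a1, a2⟩ := iter_D1 n hf hp
  obtain ⟨b1, b2⟩ := iter_D2 n hf hp
  have h2 : |(k.1 : ℝ)| ^ n * ‖fc f k‖ ≤ C := by
    have := fc_le (fun x hx => (a2 x).trans (hn x hx)) k
    rw [a1 k, norm_mul, norm_pow, norm_mul, Complex.norm_I, one_mul, Complex.norm_intCast] at this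
    exact this
  have h3 : |(k.2 : ℝ)| ^ n * ‖fc f k‖ ≤ C := by
    have := fc_le (fun x hx => (b2 x).trans (hn x hx)) k
    rw [b1 k, norm_mul, norm_pow, norm_mul, Complex.norm_I, one_mul, Complex.norm_intCast] at this
    exact this
  have h4 : si k ^ n * ‖fc f k‖ ≤ C := by
    unfold si
    rcases max_cases |(k.1 : ℝ)| |(k.2 : ℝ)| with h | h
    · rw [h.1]; exact h2
    · rw [h.1]; exact h3
  rw [le_div_iff₀ (by positivity)]
  rcases le_total (si k) 1 with h5 | h5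
  · have h6 : ws k ^ n ≤ 2 ^ n := pow_le_pow_left₀ hws.le (by unfold ws; linarith) n
    calc ‖fc f k‖ * ws k ^ n ≤ C * 2 ^ n := mul_le_mul h1 h6 (by positivity) hC
      _ = _ := by ring
  · have h6 : ws k ^ n ≤ (2 * si k) ^ n := pow_le_pow_left₀ hws.le (by unfold ws; linarith) n
    calc ‖fc f k‖ * ws k ^ n ≤ ‖fc f k‖ * (2 * si k) ^ n :=
          mul_le_mul_of_nonneg_left h6 (norm_nonneg _)
      _ = 2 ^ n * (si k ^ n * ‖fc f k‖) := by rw [mul_pow]; ring
      _ ≤ 2 ^ n * C := mul_le_mul_of_nonneg_left h4 (by positivity)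

lemma ex_neg_conj (k : K) (x : ℝ × ℝ) : ex (-k) x = conj (ex k x) := by
  unfold ex
  rw [← Complex.exp_conj]
  congr 1
  simp only [map_mul, map_add, Complex.conj_I, Complex.conj_ofReal, map_intCast, Prod.fst_neg,
    Prod.snd_neg]
  push_cast
  ring

lemma ex_add (k l : K) (x : ℝ × ℝ) : ex (k + l) x = ex k x * ex l x := by
  unfold ex
  rw [← Complex.exp_add]
  congr 1
  push_cast [Prod.fst_add, Prod.snd_add]
  ring

lemma fc_real {f : ℝ × ℝ → ℂ} (hf : ∀ x, conj (f x) = f x) (k : K) :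
    fc f (-k) = conj (fc f k) := by
  unfold fc
  rw [← integral_conj]
  apply integral_congr_ae
  filter_upwards with x
  rw [map_mul, hf, ← ex_neg_conj]

/-- convolution formula for a product -/
lemma fc_mul {a θ : ℝ × ℝ → ℂ} (ha : Continuous a) (hθ : MemLp θ 2 mu2) (k : K) :
    HasSum (fun m => fc a m * fc θ (k - m)) (fc (fun x => a x * θ x) k) := by
  have he : Continuous (ex k) := (ex_contDiff k (n := 1)).continuous
  have hA : MemLp (fun x => conj (a x) * ex k x) 2 mu2 := by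
    apply cont_memLp
    fun_prop
  have h := parseval hA hθ
  have h1 : (∫ x, conj (conj (a x) * ex k x) * θ x ∂mu2) = fc (fun x => a x * θ x) k := by
    unfold fc
    apply integral_congr_ae
    filter_upwards with x
    rw [map_mul, Complex.conj_conj, ← ex_neg_conj]
    ring
  have h2 : ∀ l : K, conj (fc (fun x => conj (a x) * ex k x) l) = fc a (k - l) := by
    intro l
    unfold fc
    rw [← integral_conj]
    apply integral_congr_ae
    filter_upwards with x
    rw [map_mul, map_mul, Complex.conj_conj, ← ex_neg_conj, ← ex_neg_conj, neg_neg,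
      show -(k - l) = l + -k by abel, ex_add]
    ring
  rw [h1] at h
  simp only [h2] at h
  have h3 := (Equiv.subLeft k).hasSum_iff.2 h
  refine h3.congr_fun ?_
  intro m
  simp only [Function.comp_apply, Equiv.subLeft_apply, sub_sub_cancel]

end Pool.Agent.DED
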