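import Pool.Agent.DED.Torus3

open scoped BigOperators ComplexConjugate Topology ContDiff
open MeasureTheory Set Filter

noncomputable section

namespace Pool.Agent.DED

/-- uniformly smooth incompressible velocity fields -/
structure VField (u : ℝ → ℝ × ℝ → ℝ × ℝ) : Prop where
  smooth : ∀ t, 0 ≤ t → ContDiff ℝ ∞ (u t)
  periodic : ∀ t, 0 ≤ t → Periodic2 (u t)
  bounded : ∀ n : ℕ, ∃ C, ∀ t, 0 ≤ t → ∀ x, ‖iteratedFDeriv ℝ n (u t) x‖ ≤ C
  meas : ∀ x, Measurable (fun t => u t x)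
  div : ∀ t, 0 ≤ t → ∀ x, (D1 (u t) x).1 + (D2 (u t) x).2 = 0

/-- the first coordinate, complexified -/
def P1 : ℝ × ℝ →L[ℝ] ℂ := Complex.ofRealCLM.comp (ContinuousLinearMap.fst ℝ ℝ ℝ)

/-- the second coordinate, complexified -/
def P2 : ℝ × ℝ →L[ℝ] ℂ := Complex.ofRealCLM.comp (ContinuousLinearMap.snd ℝ ℝ ℝ)

lemma P1_apply (x : ℝ × ℝ) : P1 x = (x.1 : ℂ) := rfl
lemma P2_apply (x : ℝ × ℝ) : P2 x = (x.2 : ℂ) := rfl

lemma P1_norm : ‖P1‖ ≤ 1 := by
  apply ContinuousLinearMap.opNorm_le_bound _ zero_le_one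
  intro x
  rw [P1_apply, Complex.norm_real, one_mul]
  exact norm_fst_le x

lemma P2_norm : ‖P2‖ ≤ 1 := by
  apply ContinuousLinearMap.opNorm_le_bound _ zero_le_one
  intro x
  rw [P2_apply, Complex.norm_real, one_mul]
  exact norm_snd_le x

/-- a complexified component of the velocity -/
def comp (P : ℝ × ℝ →L[ℝ] ℂ) (u : ℝ → ℝ × ℝ → ℝ × ℝ) (t : ℝ) (x : ℝ × ℝ) : ℂ :=
  P (u (max t 0) x)

/-- the Fourier coefficients of the velocity -/
def vv (u : ℝ → ℝ × ℝ → ℝ × ℝ) (t : ℝ) (m : K) : ℂ × ℂ :=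
  (fc (comp P1 u t) m, fc (comp P2 u t) m)

section

variable {u : ℝ → ℝ × ℝ → ℝ × ℝ} (hu : VField u)
include hu

lemma comp_smooth (P : ℝ × ℝ →L[ℝ] ℂ) (t : ℝ) : ContDiff ℝ ∞ (comp P u t) :=
  P.contDiff.comp (hu.smooth _ (le_max_right t 0))

lemma comp_periodic (P : ℝ × ℝ →L[ℝ] ℂ) (t : ℝ) : Periodic2 (comp P u t) := by
  intro x
  have h := hu.periodic _ (le_max_right t 0) x
  unfold comp
  rw [h.1, h.2]
  exact ⟨rfl, rfl⟩

lemma comp_bound (n : ℕ) : ∃ C, 0 ≤ C ∧ ∀ P : ℝ × ℝ →L[ℝ] ℂ, ‖P‖ ≤ 1 → ∀ t x,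
    ‖iteratedFDeriv ℝ n (comp P u t) x‖ ≤ C := by
  obtain ⟨C, hC⟩ := hu.bounded n
  have hC0 : 0 ≤ C := (norm_nonneg _).trans (hC 0 le_rfl 0)
  refine ⟨C, hC0, fun P hP t x => ?_⟩
  have h1 := P.norm_iteratedFDeriv_comp_left (n := n)
    ((hu.smooth _ (le_max_right t 0)).contDiffAt (x := x)) (by exact_mod_cast le_top)
  refine h1.trans ?_
  calc ‖P‖ * ‖iteratedFDeriv ℝ n (u (max t 0)) x‖ ≤ 1 * C :=
        mul_le_mul hP (hC _ (le_max_right t 0) x) (norm_nonneg _) zero_le_one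
    _ = C := one_mul C

lemma comp_deriv (P : ℝ × ℝ →L[ℝ] ℂ) (t : ℝ) (x : ℝ × ℝ) :
    D1 (comp P u t) x = P (D1 (u (max t 0)) x) ∧ D2 (comp P u t) x = P (D2 (u (max t 0)) x) := by
  have h1 : DifferentiableAt ℝ (u (max t 0)) x :=
    (hu.smooth _ (le_max_right t 0)).differentiable (by simp) x
  have h2 : fderiv ℝ (comp P u t) x = P.comp (fderiv ℝ (u (max t 0)) x) :=
    (P.hasFDerivAt.comp x h1.hasFDerivAt).fderiv
  unfold D1 D2
  rw [h2]
  exact ⟨rfl, rfl⟩

lemma comp_meas (P : ℝ × ℝ →L[ℝ] ℂ) : Measurable (Function.uncurry (comp P u)) := by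
  have h : Measurable (Function.uncurry (fun (x : ℝ × ℝ) (t : ℝ) => comp P u t x)) := by
    apply measurable_uncurry_of_continuous_of_measurable
    · intro t
      exact (comp_smooth hu P t).continuous
    · intro x
      exact P.continuous.measurable.comp
        ((hu.meas x).comp (measurable_id.max measurable_const))
  exact h.comp measurable_swap

end

lemma fc_meas {B : ℝ → ℝ × ℝ → ℂ} (hB : Measurable (Function.uncurry B)) (k : K) :
    Measurable (fun s => fc (B s) k) := by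
  have he : Measurable (ex (-k)) := (ex_contDiff (-k) (n := 1)).continuous.measurable
  have h : Measurable (fun p : ℝ × (ℝ × ℝ) => ex (-k) p.2 * B p.1 p.2) :=
    (he.comp measurable_snd).mul hB
  exact (h.stronglyMeasurable.integral_prod_right').measurable

lemma real_conj_P1 (x : ℝ × ℝ) : conj (P1 x) = P1 x := by
  rw [P1_apply, Complex.conj_ofReal]

lemma real_conj_P2 (x : ℝ × ℝ) : conj (P2 x) = P2 x := by
  rw [P2_apply, Complex.conj_ofReal]

/-- the velocity coefficients satisfy the standing assumptions -/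
lemma VField.tvel {u : ℝ → ℝ × ℝ → ℝ × ℝ} (hu : VField u) (n : ℕ) :
    ∃ C, 0 ≤ C ∧ TVel (vv u) (fun m => C / ws m ^ n) := by
  obtain ⟨Ca, hCa, ha⟩ := comp_bound hu 0
  obtain ⟨Cb, hCb, hb⟩ := comp_bound hu n
  have key : ∀ P : ℝ × ℝ →L[ℝ] ℂ, ‖P‖ ≤ 1 → ∀ t m,
      ‖fc (comp P u t) m‖ ≤ 2 ^ n * (Ca + Cb) / ws m ^ n := by
    intro P hP t m
    apply fc_decay (comp_smooth hu P t) (comp_periodic hu P t) (by positivity)
    · intro x _
      have := ha P hP t x
      rw [norm_iteratedFDeriv_zero] at this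
      linarith
    · intro x _
      have := hb P hP t x
      linarith
  refine ⟨2 * (2 ^ n * (Ca + Cb)), by positivity, ?_⟩
  refine ⟨fun t => ⟨fun m => ?_, fun m => ?_, fun m => ?_⟩, fun m => ?_, fun m => ?_⟩
  · have h1 := key P1 P1_norm t m
    have h2 := key P2 P2_norm t m
    unfold vv
    have e : 2 * (2 ^ n * (Ca + Cb)) / ws m ^ n =
      2 ^ n * (Ca + Cb) / ws m ^ n + 2 ^ n * (Ca + Cb) / ws m ^ n := by ring
    rw [e]
    exact add_le_add h1 h2
  · exact ⟨fc_real (fun x => real_conj_P1 _) m, fc_real (fun x => real_conj_P2 _) m⟩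
  · unfold vv
    have h1 := fc_D1 ((comp_smooth hu P1 t).of_le (by exact_mod_cast le_top))
      (comp_periodic hu P1 t) m
    have h2 := fc_D2 ((comp_smooth hu P2 t).of_le (by exact_mod_cast le_top))
      (comp_periodic hu P2 t) m
    have c1 : Continuous (D1 (comp P1 u t)) := (D1_smooth (comp_smooth hu P1 t)).continuous
    have c2 : Continuous (D2 (comp P2 u t)) := (D2_smooth (comp_smooth hu P2 t)).continuous
    have ce : Continuous (ex (-m)) := (ex_contDiff (-m) (n := 1)).continuous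
    have h3 : fc (D1 (comp P1 u t)) m + fc (D2 (comp P2 u t)) m = 0 := by
      unfold fc
      rw [← integral_add (cont_int (by fun_prop)) (cont_int (by fun_prop))]
      have : ∀ x, ex (-m) x * D1 (comp P1 u t) x + ex (-m) x * D2 (comp P2 u t) x = 0 := by
        intro x
        rw [(comp_deriv hu P1 t x).1, (comp_deriv hu P2 t x).2, P1_apply, P2_apply, ← mul_add,
          ← Complex.ofReal_add, hu.div _ (le_max_right t 0) x, Complex.ofReal_zero, mul_zero]
      simp only [this, integral_zero]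
    rw [h1, h2] at h3
    have h4 : Complex.I * ((m.1 : ℂ) * fc (comp P1 u t) m + (m.2 : ℂ) * fc (comp P2 u t) m) = 0 := by
      linear_combination h3
    exact (mul_eq_zero.1 h4).resolve_left Complex.I_ne_zero
  · exact fc_meas (comp_meas hu P1) m
  · exact fc_meas (comp_meas hu P2) m

end Pool.Agent.DED
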