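import Pool.Agent.DED.Window

open scoped BigOperators ComplexConjugate Topology
open MeasureTheory Set Filter

noncomputable section

namespace Pool.Agent.DED

lemma window {U : K → ℝ} (hU0 : ∀ m, 0 ≤ U m) (hU : Summable U)
    (hU1 : Summable (fun m => eu m * U m)) {T : ℝ} (hT : 1 ≤ T) :
    ∃ μ₀ β β1 : ℝ, 1 ≤ μ₀ ∧ 0 ≤ β ∧ 0 ≤ β1 ∧ 6 * β ≤ μ₀ ^ 2 ∧
    ∀ (v : ℝ → K → ℂ × ℂ) (c : ℝ → K → ℂ) (C L : ℝ), TVel v U → Sol T v c C L →
    ∀ μ : ℝ, μ₀ ≤ μ →
      (0 < nm (c 0) → Real.exp (-(2 * μ ^ 2)) * nm (c 0) ^ 2 ≤ nm (c 1) ^ 2 →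
        ∀ s t : ℝ, 1 ≤ s → s ≤ t → t ≤ T →
          Real.exp (-(9 * μ ^ 2 * (t - s) + 6 * β)) * nm (c s) ^ 2 ≤ nm (c t) ^ 2) ∧
      ((Real.exp β * (nm (gr (c 0)) + β1 * (Real.exp β * nm (c 0)))) ^ 2 ≤
          2 * μ ^ 2 * (Real.exp (-(4 * β)) * nm (c 0) ^ 2) →
        ∀ s t : ℝ, 0 ≤ s → s ≤ t → t ≤ T →
          Real.exp (-(9 * μ ^ 2 * (t - s) + 6 * β)) * nm (c s) ^ 2 ≤ nm (c t) ^ 2) := by
  have hT0 : 0 < T := lt_of_lt_of_le one_pos hT
  set Ut : ℝ := ∑' m, U m + 1 with hUt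
  have hUt1 : 1 ≤ Ut := by
    have : 0 ≤ ∑' m, U m := tsum_nonneg hU0
    linarith
  set U1 : ℝ := ∑' m, eu m * U m with hU1def
  have hU10 : 0 ≤ U1 := tsum_nonneg fun m => mul_nonneg (eu_nonneg m) (hU0 m)
  set δ : ℝ := 1 / (68 * T * Ut) with hδdef
  have hδ : 0 < δ := by positivity
  set β : ℝ := 34 / δ * Ut with hβ
  have hβ0 : 0 ≤ β := by positivity
  set β1 : ℝ := 34 / δ * U1 with hβ1
  have hβ10 : 0 ≤ β1 := by positivity
  obtain ⟨M, hM⟩ := tail_small hU0 hU (η := Real.exp (-(3 * β)) / (8 * T)) (by positivity)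
  set F : Finset K := box M with hF
  have hF' : ∀ m ∈ F, si m ≤ M := fun m hm => mem_box.1 hm
  set εM : ℝ := Real.exp (-(3 * β)) / (8 * T) with hεM
  have hεM0 : 0 ≤ εM := by positivity
  set A1 : ℝ := Real.exp (3 * β) * εM with hA1
  have hA1' : A1 = 1 / (8 * T) := by
    rw [hA1, hεM, mul_div_assoc', ← Real.exp_add, add_neg_cancel, Real.exp_zero]
  set A2 : ℝ := Real.exp (3 * β) * (εM * β1 * Real.exp (2 * β) + K2 M δ Ut) with hA2
  have hM0 : (0 : ℝ) ≤ M := Nat.cast_nonneg M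
  have hK2 : 0 ≤ K2 M δ Ut := by
    have h3 := L2c_nonneg hM0 hδ
    have h4 := Kc_nonneg (B0 := 34 / δ) (B1 := 2 * L2c M δ) hM0 hδ (by positivity) (by positivity)
    unfold K2
    positivity
  have hA20 : 0 ≤ A2 := by positivity
  refine ⟨2 + M + Ut + 2 * T * A2 + 8 * A2 + 6 * β, β, β1, ?_, hβ0, hβ10, ?_, ?_⟩
  · have : 0 ≤ 2 * T * A2 := by positivity
    linarith
  · have h1 : 0 ≤ 2 * T * A2 := by positivity
    have h2 : 1 ≤ 2 + M + Ut + 2 * T * A2 + 8 * A2 + 6 * β := by linarith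
    have h3 : 6 * β ≤ 2 + M + Ut + 2 * T * A2 + 8 * A2 + 6 * β := by linarith
    nlinarith
  intro v c C L hv hs μ hμ
  have hTA : 0 ≤ 2 * T * A2 := by positivity
  have hμ1 : 1 ≤ μ := by linarith
  have hμ0 : 0 < μ := by linarith
  have hμsq : μ ≤ μ ^ 2 := by nlinarith
  have hUF : ∑ m ∈ F, U m ≤ Ut := by
    have := hU.sum_le_tsum F (fun m _ => hU0 m)
    linarith
  have hU1F : ∑ m ∈ F, eu m * U m ≤ U1 :=
    hU1.sum_le_tsum F (fun m _ => mul_nonneg (eu_nonneg m) (hU0 m))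
  -- the number of steps
  set J : ℕ := ⌈max μ (2 * β)⌉₊ with hJ
  have hJ1 : max μ (2 * β) ≤ J := Nat.le_ceil _
  have hJμ : μ ≤ J := (le_max_left _ _).trans hJ1
  have hJβ : 2 * β ≤ J := (le_max_right _ _).trans hJ1
  have hJ0 : (0 : ℝ) < J := by linarith
  set ε : ℝ := 1 / J with hε
  have hpar : Par F U M μ δ ε J Ut U1 :=
    { hδ := hδ, hM0 := hM0, hμ1 := hμ1, hM := by linarith, hF := hF', hsym := fun m hm => box_symm hm,
      hU := hU0, hε := by positivity, hJ := by rw [hε]; field_simp,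
      hεμ := by rw [hε, one_div, inv_mul_le_iff₀ hJ0]; linarith,
      hβ := by
        rw [← hβ, hε, one_div, inv_mul_le_iff₀ hJ0]; linarith,
      hUt := hUF, hU1 := hU1F }
  obtain ⟨C', hC', hdec⟩ := phi_dec hpar hv hs
  obtain ⟨L', hL', hlip⟩ := phi_lip hpar hv hs
  set φ : ℝ → K → ℂ := phi F v c μ δ ε T J with hφ
  set e : ℝ → K → ℂ := err F v c μ δ ε T J with he
  have hwin : Win F U μ δ Ut C' L' T A1 A2 v φ e :=
    { hμ := hμ1, hδ := hδ, hT := hT0, hF := fun m hm => (hF' m hm).trans (by linarith),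
      hsym := fun m hm => box_symm hm, hv := hv, hUt := hUF, hC := hC', hL := hL',
      dec := hdec, lip := hlip, ode := phi_ode hpar hv hU hs,
      esq := fun t ht => (phi_err hpar hv hU hs ht hM hεM0).1,
      ebd := fun t ht => (phi_err hpar hv hU hs ht hM hεM0).2,
      hA1 := by positivity, hA2 := hA20,
      c1 := by
        rw [hδdef]
        apply le_of_eq
        field_simp
        norm_num,
      c2 := by
        rw [hA1', div_pow, one_pow, mul_one_div, div_le_div_iff₀ (by positivity) (by positivity)]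
        nlinarith,
      c3 := by
        rw [le_div_iff₀ hT0]
        have h1 : 2 * T * A2 ≤ μ := by linarith
        have h2 : (2 * T * A2) ^ 2 ≤ μ ^ 2 := pow_le_pow_left₀ hTA h1 2
        have h3 : 4 * A2 ^ 2 * T ≤ (2 * T * A2) ^ 2 := by
          have : T ≤ T ^ 2 := by nlinarith
          have h4 := mul_le_mul_of_nonneg_left this (show 0 ≤ 4 * A2 ^ 2 by positivity)
          linarith
        linarith,
      c4 := by
        rw [div_le_iff₀ (by positivity)]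
        linarith,
      c5 := by
        rw [hA1']
        apply one_div_le_one_div_of_le (by norm_num)
        linarith,
      c6 := by
        have h1 : A1 ≤ 1 / 8 := by
          rw [hA1']
          apply one_div_le_one_div_of_le (by norm_num)
          linarith
        have h2 : 8 * A2 + 2 ≤ μ := by linarith
        linarith }
  -- comparison of norms
  have hcmp1 : ∀ t ∈ Icc 0 T, nm (φ t) ≤ Real.exp β * nm (c t) := fun t ht =>
    psi_le_first hpar (hpar.gen hv ht).bd (hs.dec.sq ht) le_rfl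
  have hcmp2 : ∀ t ∈ Icc 0 T, nm (c t) ≤ Real.exp (2 * β) * nm (φ t) := fun t ht =>
    psi_le_last hpar (hpar.gen hv ht).bd (hs.dec.sq ht) (Nat.zero_le J)
  have hsq1 : ∀ t ∈ Icc 0 T, nm (φ t) ^ 2 ≤ Real.exp (2 * β) * nm (c t) ^ 2 := by
    intro t ht
    have := pow_le_pow_left₀ (nm_nonneg _) (hcmp1 t ht) 2
    rw [mul_pow, ← Real.exp_nat_mul] at this
    exact_mod_cast this
  have hsq2 : ∀ t ∈ Icc 0 T, nm (c t) ^ 2 ≤ Real.exp (4 * β) * nm (φ t) ^ 2 := by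
    intro t ht
    have := pow_le_pow_left₀ (nm_nonneg _) (hcmp2 t ht) 2
    rw [mul_pow, ← Real.exp_nat_mul] at this
    refine this.trans (le_of_eq ?_)
    congr 2
    push_cast
    ring
  have hfin : ∀ s t : ℝ, 0 ≤ s → s ≤ t → t ≤ T →
      (∀ τ ∈ Icc s t, nm (gr (φ τ)) ^ 2 ≤ 4 * μ ^ 2 * nm (φ τ) ^ 2) →
      Real.exp (-(9 * μ ^ 2 * (t - s) + 6 * β)) * nm (c s) ^ 2 ≤ nm (c t) ^ 2 := by
    intro s t h1 h2 h3 h4
    have hsm : s ∈ Icc 0 T := ⟨h1, h2.trans h3⟩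
    have htm : t ∈ Icc 0 T := ⟨h1.trans h2, h3⟩
    have h5 := hwin.slow h1 h2 h3 h4
    have h6 := hsq2 s hsm
    have h7 := hsq1 t htm
    have e1 : Real.exp (-(9 * μ ^ 2 * (t - s) + 6 * β)) =
        Real.exp (-(2 * β)) * (Real.exp (-(9 * μ ^ 2 * (t - s))) * Real.exp (-(4 * β))) := by
      rw [← Real.exp_add, ← Real.exp_add]
      congr 1
      ring
    have e2 : Real.exp (-(4 * β)) * Real.exp (4 * β) = 1 := by
      rw [← Real.exp_add, neg_add_cancel, Real.exp_zero]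
    have e3 : Real.exp (-(2 * β)) * Real.exp (2 * β) = 1 := by
      rw [← Real.exp_add, neg_add_cancel, Real.exp_zero]
    calc Real.exp (-(9 * μ ^ 2 * (t - s) + 6 * β)) * nm (c s) ^ 2
        ≤ Real.exp (-(9 * μ ^ 2 * (t - s) + 6 * β)) * (Real.exp (4 * β) * nm (φ s) ^ 2) :=
          mul_le_mul_of_nonneg_left h6 (Real.exp_pos _).le
      _ = Real.exp (-(2 * β)) * (Real.exp (-(9 * μ ^ 2 * (t - s))) * nm (φ s) ^ 2) *
          (Real.exp (-(4 * β)) * Real.exp (4 * β)) := by rw [e1]; ring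
      _ = Real.exp (-(2 * β)) * (Real.exp (-(9 * μ ^ 2 * (t - s))) * nm (φ s) ^ 2) := by
          rw [e2, mul_one]
      _ ≤ Real.exp (-(2 * β)) * nm (φ t) ^ 2 :=
          mul_le_mul_of_nonneg_left h5 (Real.exp_pos _).le
      _ ≤ Real.exp (-(2 * β)) * (Real.exp (2 * β) * nm (c t) ^ 2) :=
          mul_le_mul_of_nonneg_left h7 (Real.exp_pos _).le
      _ = nm (c t) ^ 2 := by rw [← mul_assoc, e3, one_mul]
  have h0m : (0 : ℝ) ∈ Icc 0 T := ⟨le_rfl, hT0.le⟩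
  have h1m : (1 : ℝ) ∈ Icc 0 T := ⟨zero_le_one, hT⟩
  refine ⟨?_, ?_⟩
  · intro hc0 hc1 s t hs1 hst htT
    by_cases hex : ∃ t₁ ∈ Icc (0 : ℝ) 1, nm (gr (φ t₁)) ^ 2 ≤ 2 * μ ^ 2 * nm (φ t₁) ^ 2
    · obtain ⟨t₁, ht₁, hp⟩ := hex
      have hlow := hwin.low ⟨ht₁.1, ht₁.2.trans hT⟩ hp
      apply hfin s t (zero_le_one.trans hs1) hst htT
      intro τ hτ
      exact hlow τ ⟨(ht₁.2.trans hs1).trans hτ.1, hτ.2.trans htT⟩
    · exfalso
      push Not at hex
      have hf := hwin.fast hT (fun τ hτ => (hex τ hτ).le)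
      have h6 := hsq2 1 h1m
      have h7 := hsq1 0 h0m
      have hc0' : 0 < nm (c 0) ^ 2 := by positivity
      have h8 : nm (c 1) ^ 2 ≤ Real.exp (6 * β - 7 / 2 * μ ^ 2) * nm (c 0) ^ 2 := by
        calc nm (c 1) ^ 2 ≤ Real.exp (4 * β) * nm (φ 1) ^ 2 := h6
          _ ≤ Real.exp (4 * β) * (Real.exp (-(7 / 2 * μ ^ 2)) * nm (φ 0) ^ 2) :=
              mul_le_mul_of_nonneg_left hf (Real.exp_pos _).le
          _ ≤ Real.exp (4 * β) * (Real.exp (-(7 / 2 * μ ^ 2)) *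
              (Real.exp (2 * β) * nm (c 0) ^ 2)) := by
              apply mul_le_mul_of_nonneg_left _ (Real.exp_pos _).le
              exact mul_le_mul_of_nonneg_left h7 (Real.exp_pos _).le
          _ = _ := by
              rw [← mul_assoc, ← mul_assoc, ← Real.exp_add, ← Real.exp_add]
              congr 2
              ring
      have h9 := hc1.trans h8
      have h10 : Real.exp (-(2 * μ ^ 2)) ≤ Real.exp (6 * β - 7 / 2 * μ ^ 2) :=
        le_of_mul_le_mul_right h9 hc0'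
      have h11 := Real.exp_le_exp.1 h10
      have h12 : 6 * β + 1 ≤ μ := by linarith
      linarith
  · intro hc0 s t hs0 hst htT
    have hg := gr_last_le (ε := ε) (J := J) hpar (hpar.gen hv h0m).bd (hs.dec.sq h0m)
      (hs.dec.gr_sq hs.hC h0m)
    have h1 := pow_le_pow_left₀ (nm_nonneg _) hg 2
    have h2 : Real.exp (-(4 * β)) * nm (c 0) ^ 2 ≤ nm (φ 0) ^ 2 := by
      have h3 := hsq2 0 h0m
      have e2 : Real.exp (-(4 * β)) * Real.exp (4 * β) = 1 := by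
        rw [← Real.exp_add, neg_add_cancel, Real.exp_zero]
      calc Real.exp (-(4 * β)) * nm (c 0) ^ 2
          ≤ Real.exp (-(4 * β)) * (Real.exp (4 * β) * nm (φ 0) ^ 2) :=
            mul_le_mul_of_nonneg_left h3 (Real.exp_pos _).le
        _ = _ := by rw [← mul_assoc, e2, one_mul]
    have hp : nm (gr (φ 0)) ^ 2 ≤ 2 * μ ^ 2 * nm (φ 0) ^ 2 := by
      refine h1.trans (hc0.trans ?_)
      exact mul_le_mul_of_nonneg_left h2 (by positivity)
    have hlow := hwin.low h0m hp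
    apply hfin s t hs0 hst htT
    intro τ hτ
    exact hlow τ ⟨hs0.trans hτ.1, hτ.2.trans htT⟩

end Pool.Agent.DED
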