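import Pool.Agent.DED.EnergyT

open scoped BigOperators ComplexConjugate Topology
open MeasureTheory Set Filter

noncomputable section

namespace Pool.Agent.DED

/-- smooth solutions at the level of Fourier coefficients, on the window `[0,T]` -/
structure Sol (T : ℝ) (v : ℝ → K → ℂ × ℂ) (c : ℝ → K → ℂ) (C L : ℝ) : Prop where
  hC : 0 ≤ C
  hL : 0 ≤ L
  dec : Dec (Icc 0 T) c C
  lip : DLip (Icc 0 T) c L
  ode : ∀ᵐ t : ℝ, t ∈ Ioo 0 T → ∀ k, HasDerivAt (fun s => c s k)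
    (-(N k : ℂ) * c t k + Complex.I * cpl (v t) (c t) k) t

/-- the transformed solution -/
def phi (F : Finset K) (v : ℝ → K → ℂ × ℂ) (c : ℝ → K → ℂ) (μ δ ε T : ℝ) (J : ℕ) (t : ℝ) : K → ℂ :=
  psi F (bb v μ δ T t) ε (c t) J

/-- the error of the transformed solution -/
def err (F : Finset K) (v : ℝ → K → ℂ × ℂ) (c : ℝ → K → ℂ) (μ δ ε T : ℝ) (J : ℕ) (t : ℝ) : K → ℂ :=
  er F (bb v μ δ T t) (v t) μ δ ε (c t) (fun k => Complex.I * tail F (v t) (c t) k) J

section

variable {F : Finset K} {U : K → ℝ} {M μ δ ε : ℝ} {J : ℕ} {Ut U1 : ℝ} {T C L : ℝ}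
  {v : ℝ → K → ℂ × ℂ} {c : ℝ → K → ℂ}

lemma Par.gen (h : Par F U M μ δ ε J Ut U1) (hv : TVel v U) {t : ℝ} (ht : t ∈ Icc 0 T) :
    Gen F (bb v μ δ T t) U M μ (34 / δ) (2 * L2c M δ) :=
  bb_gen hv h.hμ h.hδ h.hM0 h.hM h.hF ht

lemma phi_dec (h : Par F U M μ δ ε J Ut U1) (hv : TVel v U) (hs : Sol T v c C L) :
    ∃ C', 0 ≤ C' ∧ Dec (Icc 0 T) (phi F v c μ δ ε T J) C' := by
  have hδ := h.hδ
  exact psi_dec (ε := ε) hs.hC hs.dec (βm := fun m => 34 / δ * U m)
    (fun t ht m hm l => (h.gen hv ht).bd m hm l) (fun m => mul_nonneg (by positivity) (h.hU m)) J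

lemma phi_lip (h : Par F U M μ δ ε J Ut U1) (hv : TVel v U) (hs : Sol T v c C L) :
    ∃ L', 0 ≤ L' ∧ DLip (Icc 0 T) (phi F v c μ δ ε T J) L' := by
  have hδ := h.hδ
  have hμ := h.hμ
  exact psi_dlip (ε := ε) hs.hC hs.hL hs.dec hs.lip (βm := fun m => 34 / δ * U m)
    (Lm := fun m => 4 * (17 * μ * U m))
    (fun t ht m hm l => (h.gen hv ht).bd m hm l) (fun m => mul_nonneg (by positivity) (h.hU m))
    (fun s hs t ht m hm l => bb_lip_t hv hμ hδ h.hM (h.hF m hm) l hs ht)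
    (fun m => by
      have := h.hU m
      positivity) J

lemma phi_ode (h : Par F U M μ δ ε J Ut U1) (hv : TVel v U) (hUs : Summable U)
    (hs : Sol T v c C L) :
    ∀ᵐ t : ℝ, t ∈ Ioo 0 T → ∀ k, HasDerivAt (fun s => phi F v c μ δ ε T J s k)
      (-(N k : ℂ) * phi F v c μ δ ε T J t k +
        Complex.I * op F (zz (v t) μ δ 1) (phi F v c μ δ ε T J t) k +
        err F v c μ δ ε T J t k) t := by
  have h1 : ∀ᵐ t : ℝ, ∀ m : K, ∀ l : K, m ∈ F → HasDerivAt (fun t => bb v μ δ T t m l)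
      (-(om m l : ℂ) * bb v μ δ T t m l + Complex.I * anr (v t) μ δ m l) t := by
    rw [ae_all_iff]
    intro m
    rw [ae_all_iff]
    intro l
    by_cases hm : m ∈ F
    · filter_upwards [bb_deriv (δ := δ) hv h.hμ h.hM (h.hF m hm) l T] with t ht _
      exact ht
    · filter_upwards with t hm'
      exact absurd hm' hm
  filter_upwards [h1, hs.ode] with t ht1 ht2 hmem k
  have ht' : t ∈ Icc 0 T := ⟨hmem.1.le, hmem.2.le⟩
  have hg := hs.dec.gr_sq hs.hC ht'
  have h3 : ∀ k, HasDerivAt (fun s => c s k) (-(N k : ℂ) * c t k +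
      Complex.I * op F (al (v t)) (c t) k + Complex.I * tail F (v t) (c t) k) t := by
    intro k
    have := ht2 hmem k
    rw [cpl_split (hv.vel t) hUs hg F k] at this
    convert! this using 1
    ring
  have h4 := psi_hasDerivAt (ε := ε) (b := fun t => bb v μ δ T t)
    (fun m hm l => ht1 m l hm) h3 J k
  rw [h.hJ] at h4
  exact h4

lemma phi_err (h : Par F U M μ δ ε J Ut U1) (hv : TVel v U) (hUs : Summable U)
    (hs : Sol T v c C L) {t : ℝ} (ht : t ∈ Icc 0 T) {εM : ℝ}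
    (hεM : ∑' m, (if m ∈ F then 0 else U m) ≤ εM) (hεM0 : 0 ≤ εM) :
    Sq (err F v c μ δ ε T J t) ∧ nm (err F v c μ δ ε T J t) ≤
      Real.exp (3 * (34 / δ * Ut)) * εM * nm (gr (phi F v c μ δ ε T J t)) +
      Real.exp (3 * (34 / δ * Ut)) * (εM * (34 / δ * U1) * Real.exp (2 * (34 / δ * Ut)) +
        K2 M δ Ut) * nm (phi F v c μ δ ε T J t) := by
  have hδ := h.hδ
  have hg := hs.dec.gr_sq hs.hC ht
  have hc := hs.dec.sq ht
  have h1 := tail_bound (hv.vel t) hUs hg F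
  have h2 := er_bound (ε := ε) (J := J) h (hv.vel t) (h.gen hv ht) hc h1.1
  have h3 := gr_first_le (ε := ε) (J := J) h (h.gen hv ht).bd hc hg
  refine ⟨h2.1, h2.2.trans ?_⟩
  set β := 34 / δ * Ut with hβ
  have hn := nm_nonneg (psi F (bb v μ δ T t) ε (c t) J)
  have hgn := nm_nonneg (gr (psi F (bb v μ δ T t) ε (c t) J))
  have hgc := nm_nonneg (gr (c t))
  have e3 : Real.exp (3 * β) = Real.exp β * Real.exp (2 * β) := by
    rw [← Real.exp_add]; congr 1; ring
  have hp1 := Real.exp_pos β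
  have hp2 := Real.exp_pos (2 * β)
  have h4 : nm (fun k => Complex.I * tail F (v t) (c t) k) ≤ εM * nm (gr (c t)) :=
    h1.2.trans (mul_le_mul_of_nonneg_right hεM hgc)
  have h5 := mul_le_mul_of_nonneg_left h3 hεM0
  unfold phi
  set n := nm (psi F (bb v μ δ T t) ε (c t) J)
  set g := nm (gr (psi F (bb v μ δ T t) ε (c t) J))
  calc Real.exp β * (nm (fun k => Complex.I * tail F (v t) (c t) k) +
        K2 M δ Ut * (Real.exp (2 * β) * n))
      ≤ Real.exp β * (εM * (Real.exp (2 * β) * (g + 34 / δ * U1 * (Real.exp (2 * β) * n))) +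
        K2 M δ Ut * (Real.exp (2 * β) * n)) := by
        apply mul_le_mul_of_nonneg_left _ hp1.le
        linarith
    _ = _ := by rw [e3]; ring

end

/-- the box of frequencies -/
def box (M : ℕ) : Finset K := (Finset.Icc (-(M : ℤ)) M) ×ˢ (Finset.Icc (-(M : ℤ)) M)

lemma mem_box {M : ℕ} {m : K} : m ∈ box M ↔ si m ≤ M := by
  unfold box si
  rw [Finset.mem_product, Finset.mem_Icc, Finset.mem_Icc, max_le_iff, abs_le, abs_le]
  constructor
  · rintro ⟨⟨h1, h2⟩, h3, h4⟩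
    exact ⟨⟨by exact_mod_cast h1, by exact_mod_cast h2⟩, by exact_mod_cast h3, by exact_mod_cast h4⟩
  · rintro ⟨⟨h1, h2⟩, h3, h4⟩
    exact ⟨⟨by exact_mod_cast h1, by exact_mod_cast h2⟩, by exact_mod_cast h3, by exact_mod_cast h4⟩

lemma box_symm {M : ℕ} {m : K} (h : m ∈ box M) : -m ∈ box M := by
  rw [mem_box] at h ⊢
  rwa [si_neg]

lemma exists_box (s : Finset K) : ∃ M : ℕ, s ⊆ box M := by
  obtain ⟨M, hM⟩ := exists_nat_ge (∑ m ∈ s, si m)
  refine ⟨M, fun m hm => ?_⟩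
  rw [mem_box]
  exact (Finset.single_le_sum (fun m _ => si_nonneg m) hm).trans hM

lemma tail_small {U : K → ℝ} (hU0 : ∀ m, 0 ≤ U m) (hU : Summable U) {η : ℝ} (hη : 0 < η) :
    ∃ M : ℕ, ∑' m, (if m ∈ box M then 0 else U m) ≤ η := by
  have h1 := hU.hasSum
  have h2 : ∀ᶠ s : Finset K in atTop, |∑ m ∈ s, U m - ∑' m, U m| < η := by
    have := (Metric.tendsto_nhds.1 h1) η hη
    simpa [Real.dist_eq] using this
  obtain ⟨s, hs⟩ := h2.exists
  obtain ⟨M, hM⟩ := exists_box s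
  refine ⟨M, ?_⟩
  have h3 : Summable (fun m => if m ∈ box M then U m else 0) := by
    apply summable_of_hasFiniteSupport
    apply (box M).finite_toSet.subset
    intro m hm
    by_contra hc
    have hc' : m ∉ box M := hc
    simp [hc'] at hm
  have h4 : (fun m => if m ∈ box M then 0 else U m) =
      fun m => U m - (if m ∈ box M then U m else 0) := by
    funext m
    split_ifs <;> simp
  have h5 : ∑' m, (if m ∈ box M then U m else 0) = ∑ m ∈ box M, U m := by
    rw [tsum_eq_sum (s := box M)]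
    · apply Finset.sum_congr rfl
      intro m hm
      rw [if_pos hm]
    · intro m hm
      rw [if_neg hm]
  rw [h4, hU.tsum_sub h3, h5]
  have h6 : ∑ m ∈ s, U m ≤ ∑ m ∈ box M, U m :=
    Finset.sum_le_sum_of_subset_of_nonneg hM (fun m _ _ => hU0 m)
  have h7 := (abs_lt.1 hs).1
  linarith

end Pool.Agent.DED
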