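import Pool.Agent.DED.L2

open scoped BigOperators ComplexConjugate

noncomputable section

namespace Pool.Agent.DED

/-- squared Euclidean length -/
def N (k : K) : ℝ := (k.1 : ℝ) ^ 2 + (k.2 : ℝ) ^ 2

/-- sup norm -/
def si (k : K) : ℝ := max |(k.1 : ℝ)| |(k.2 : ℝ)|

/-- Euclidean norm -/
def eu (k : K) : ℝ := ‖((k.1 : ℝ) : ℂ) + ((k.2 : ℝ) : ℂ) * Complex.I‖

/-- product weight -/
def wt (k : K) : ℝ := (1 + |(k.1 : ℝ)|) * (1 + |(k.2 : ℝ)|)

lemma N_nonneg (k : K) : 0 ≤ N k := by unfold N; positivity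

lemma eu_nonneg (k : K) : 0 ≤ eu k := norm_nonneg _

lemma eu_sq (k : K) : eu k ^ 2 = N k := by
  unfold eu N
  rw [← Complex.normSq_eq_norm_sq, Complex.normSq_add_mul_I]

lemma eu_add (k m : K) : eu (k + m) ≤ eu k + eu m := by
  unfold eu
  refine le_trans (le_of_eq ?_) (norm_add_le _ _)
  congr 1
  push_cast [Prod.fst_add, Prod.snd_add]
  ring

lemma si_nonneg (k : K) : 0 ≤ si k := le_trans (abs_nonneg _) (le_max_left _ _)

lemma si_sq_le (k : K) : si k ^ 2 ≤ N k := by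
  unfold si N
  rcases max_cases |(k.1 : ℝ)| |(k.2 : ℝ)| with h | h
  · rw [h.1, sq_abs]; nlinarith [sq_nonneg (k.2 : ℝ)]
  · rw [h.1, sq_abs]; nlinarith [sq_nonneg (k.1 : ℝ)]

lemma N_le_si (k : K) : N k ≤ 2 * si k ^ 2 := by
  have h1 : |(k.1 : ℝ)| ≤ si k := le_max_left _ _
  have h2 : |(k.2 : ℝ)| ≤ si k := le_max_right _ _
  have h3 : (k.1 : ℝ) ^ 2 ≤ si k ^ 2 := by
    rw [← sq_abs]; exact pow_le_pow_left₀ (abs_nonneg _) h1 2
  have h4 : (k.2 : ℝ) ^ 2 ≤ si k ^ 2 := by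
    rw [← sq_abs]; exact pow_le_pow_left₀ (abs_nonneg _) h2 2
  unfold N
  linarith

lemma si_le_eu (k : K) : si k ≤ eu k := by
  apply le_of_sq_le_sq _ (eu_nonneg k)
  rw [eu_sq]
  exact si_sq_le k

lemma si_add (k m : K) : si (k + m) ≤ si k + si m := by
  unfold si
  apply max_le
  · push_cast [Prod.fst_add]
    exact (abs_add_le _ _).trans (add_le_add (le_max_left _ _) (le_max_left _ _))
  · push_cast [Prod.snd_add]
    exact (abs_add_le _ _).trans (add_le_add (le_max_right _ _) (le_max_right _ _))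

lemma si_neg (k : K) : si (-k) = si k := by
  simp [si]

lemma N_neg (k : K) : N (-k) = N k := by
  simp [N]

lemma wt_ge_one (k : K) : 1 ≤ wt k := by
  unfold wt
  have h1 := abs_nonneg (k.1 : ℝ)
  have h2 := abs_nonneg (k.2 : ℝ)
  nlinarith

lemma wt_pos (k : K) : 0 < wt k := lt_of_lt_of_le one_pos (wt_ge_one k)

lemma wt_add (k m : K) : wt (k + m) ≤ wt k * wt m := by
  have h1 : 1 + |((k + m).1 : ℝ)| ≤ (1 + |(k.1 : ℝ)|) * (1 + |(m.1 : ℝ)|) := by
    have := abs_add_le (k.1 : ℝ) (m.1 : ℝ)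
    push_cast [Prod.fst_add]
    nlinarith [abs_nonneg (k.1 : ℝ), abs_nonneg (m.1 : ℝ),
      mul_nonneg (abs_nonneg (k.1 : ℝ)) (abs_nonneg (m.1 : ℝ))]
  have h2 : 1 + |((k + m).2 : ℝ)| ≤ (1 + |(k.2 : ℝ)|) * (1 + |(m.2 : ℝ)|) := by
    have := abs_add_le (k.2 : ℝ) (m.2 : ℝ)
    push_cast [Prod.snd_add]
    nlinarith [abs_nonneg (k.2 : ℝ), abs_nonneg (m.2 : ℝ),
      mul_nonneg (abs_nonneg (k.2 : ℝ)) (abs_nonneg (m.2 : ℝ))]
  unfold wt
  calc (1 + |((k + m).1 : ℝ)|) * (1 + |((k + m).2 : ℝ)|)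
      ≤ ((1 + |(k.1 : ℝ)|) * (1 + |(m.1 : ℝ)|)) * ((1 + |(k.2 : ℝ)|) * (1 + |(m.2 : ℝ)|)) := by
        apply mul_le_mul h1 h2 (by positivity) (by positivity)
    _ = _ := by ring

lemma wt_neg (k : K) : wt (-k) = wt k := by simp [wt]

lemma wt_sub (k m : K) : wt (k - m) ≤ wt k * wt m := by
  rw [sub_eq_add_neg, ← wt_neg m]
  exact wt_add k (-m)

lemma wt_le_sub (k m : K) : wt k ≤ wt (k - m) * wt m := by
  have := wt_add (k - m) m
  simpa using this

lemma si_le_wt (k : K) : si k ≤ wt k := by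
  unfold si wt
  have h1 := abs_nonneg (k.1 : ℝ)
  have h2 := abs_nonneg (k.2 : ℝ)
  apply max_le <;> nlinarith

lemma N_le_wt (k : K) : N k ≤ wt k ^ 2 := by
  have h1 := abs_nonneg (k.1 : ℝ)
  have h2 := abs_nonneg (k.2 : ℝ)
  have e1 : (k.1 : ℝ) ^ 2 = |(k.1 : ℝ)| ^ 2 := (sq_abs _).symm
  have e2 : (k.2 : ℝ) ^ 2 = |(k.2 : ℝ)| ^ 2 := (sq_abs _).symm
  unfold N wt
  rw [e1, e2]
  have h3 : (1 + |(k.1 : ℝ)|) * (1 + |(k.2 : ℝ)|) ≥ |(k.1 : ℝ)| + |(k.2 : ℝ)| := by nlinarith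
  have h4 : ((1 + |(k.1 : ℝ)|) * (1 + |(k.2 : ℝ)|)) ^ 2 ≥ (|(k.1 : ℝ)| + |(k.2 : ℝ)|) ^ 2 :=
    pow_le_pow_left₀ (by positivity) h3 2
  nlinarith [mul_nonneg h1 h2]

lemma eu_le_wt (k : K) : eu k ≤ wt k := by
  apply le_of_sq_le_sq _ (wt_pos k).le
  rw [eu_sq]
  exact N_le_wt k

lemma summable_int_wt : Summable (fun a : ℤ => 1 / (1 + |(a : ℝ)|) ^ 2) := by
  have h1 : Summable (fun a : ℤ => 1 / (a : ℝ) ^ 2) :=
    Real.summable_one_div_int_pow.2 (by norm_num)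
  have h2 : Summable (fun a : ℤ => if a = 0 then (1 : ℝ) else 0) := by
    apply summable_of_hasFiniteSupport
    apply Set.Finite.subset (Set.finite_singleton 0)
    intro a ha
    by_contra h
    simp at h
    simp [h] at ha
  apply Summable.of_nonneg_of_le (fun a => by positivity) _ (h1.add h2)
  intro a
  by_cases h : a = 0
  · simp [h]
  · simp only [h, if_false, add_zero]
    have h3 : 0 < (a : ℝ) ^ 2 := by
      have : (a : ℝ) ≠ 0 := by exact_mod_cast h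
      positivity
    apply one_div_le_one_div_of_le h3
    rw [← sq_abs (a : ℝ)]
    apply pow_le_pow_left₀ (abs_nonneg _)
    linarith

lemma summable_wt : Summable (fun k : K => 1 / wt k ^ 2) := by
  have h := Summable.mul_of_nonneg summable_int_wt summable_int_wt
    (fun a => by positivity) (fun a => by positivity)
  refine h.congr (fun k => ?_)
  unfold wt
  rw [mul_pow]
  field_simp

lemma summable_wt_pow {p : ℕ} (hp : 2 ≤ p) : Summable (fun k : K => 1 / wt k ^ p) := by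
  apply Summable.of_nonneg_of_le (fun k => ?_) (fun k => ?_) summable_wt
  · have := wt_pos k
    positivity
  · apply one_div_le_one_div_of_le (pow_pos (wt_pos k) 2)
    exact pow_le_pow_right₀ (wt_ge_one k) hp

/-- decay of order `p` -/
lemma Sq.of_decay {f : K → ℂ} {C : ℝ} {p : ℕ} (hp : 1 ≤ p) (h : ∀ k, ‖f k‖ ≤ C / wt k ^ p) :
    Sq f := by
  have h1 : Summable (fun k : K => C ^ 2 * (1 / wt k ^ (2 * p))) :=
    (summable_wt_pow (by omega)).mul_left _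
  apply Summable.of_nonneg_of_le (fun k => by positivity) _ h1
  intro k
  have := pow_le_pow_left₀ (norm_nonneg _) (h k) 2
  refine this.trans (le_of_eq ?_)
  rw [div_pow, ← pow_mul, mul_comm p 2]
  ring

end Pool.Agent.DED
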